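import Pool.Agent.Lib.MP_7ab245_nt.Solv.GY.Y22

/-! GY-Y26: every group strictly containing the stabiliser of the line of `w` has small index.
PROOF.  `n = osz ρ w`, `X = {ρ s w | φ s ∈ S}`, `b = |X|`.  The orbit `O` of `w` has `S.index * b` elements: the map `O → Γ ⧸ S`, `ρ x w ↦ φ x S` is well defined (`ρ x w = ρ x' w` implies `ρ (x⁻¹ x') w = w`, so `φ (x⁻¹ x') ∈ S`), surjective,
and the fibre of `φ x S` is `ρ x '' X`.  Pairs: `tsz ρ w ![1, g] ≤ n * b`: for given `ρ x w` the second vector `ρ (x * g) w` is in `ρ x '' X`, which depends only on `ρ x w` (`ρ x w = ρ x' w`: `x⁻¹ x'` has image in `S`);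
`card_range_prod_le`.  `HB` with `r = 2` (`indep_pair`): `n ^ (8κ-1) ≤ (n b) ^ (4κ)`; multiply by `idx ^ (4κ)`, `idx = S.index`: `idx ^ (4κ) n ^ (8κ-1) ≤ (n · n) ^ (4κ)`, so `idx ^ (4κ) ≤ n`, and `2 idx ^ κ ≤ idx ^ (4κ)` if `idx ≥ 2`
(`idx ≥ 1` since `G`, so `Γ`, is finite; `idx = 1`: `2 ≤ n`, the hypothesis `hn`). -/

set_option autoImplicit false

namespace Pool.Agent.Lib.MP_7ab245_nt.Solv.GY

open SX Module

theorem index_le_of_block (κ : ℕ) (hκ : 3 ≤ κ) {G Γ W : Type*} [Group G] [Finite G]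
    [Group Γ] [AddCommGroup W] [Module ℚ W] (ρ : Representation ℚ G W) (w : W) (φ : G →* Γ)
    (hφ : IsQ ρ w φ) (hn : 2 ≤ osz ρ w) (hB : HB ρ w 2 (4 * κ)) (S : Subgroup Γ)
    (hS : ∀ g, (ρ g w = w ∨ ρ g w = -w) → φ g ∈ S)
    (hg : ∃ g, φ g ∈ S ∧ ρ g w ≠ w ∧ ρ g w ≠ -w) : 2 * S.index ^ κ ≤ osz ρ w := by
  classical
  obtain ⟨g, hgS, hg1, hg2⟩ := hg
  set K : Subgroup G := S.comap φ with hK
  have hmulw : ∀ (x y : G) (v : W), ρ (x * y) v = ρ x (ρ y v) := fun x y v => by
    rw [map_mul]; rfl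
  have hinvw : ∀ (x : G) (v : W), ρ x⁻¹ (ρ x v) = v := fun x v => by
    rw [← hmulw, inv_mul_cancel, map_one]; rfl
  have hstab : ∀ x y : G, ρ x w = ρ y w → x⁻¹ * y ∈ K := by
    intro x y h
    refine hS _ (Or.inl ?_)
    rw [hmulw, ← h, hinvw]
  set X : Set W := (fun u => ρ u w) '' (K : Set G) with hX
  have hXfin : X.Finite := Set.toFinite _
  -- claim 1
  have h1 : K.index * X.ncard ≤ osz ρ w := by
    have e1 : K.index * X.ncard = Nat.card ((G ⧸ K) × X) := by
      rw [Nat.card_prod, Subgroup.index, Nat.card_coe_set_eq]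
    rw [e1, osz]
    have hf : Finite (Set.range fun x : G => ρ x w) := Set.finite_range _
    let F : (G ⧸ K) × X → Set.range fun x : G => ρ x w := fun p =>
      ⟨ρ p.1.out p.2.1, by
        obtain ⟨u, _, hu⟩ := p.2.2
        refine ⟨p.1.out * u, ?_⟩
        change ρ (p.1.out * u) w = _
        rw [hmulw]
        exact congrArg _ hu⟩
    refine Nat.card_le_card_of_injective F ?_
    rintro ⟨q, y, u, hu, rfl⟩ ⟨q', y', u', hu', rfl⟩ h
    have h2 : ρ q.out (ρ u w) = ρ q'.out (ρ u' w) := congrArg Subtype.val h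
    rw [← hmulw, ← hmulw] at h2
    have h3 := hstab _ _ h2
    have h4 : q = q' := by
      rw [← Quotient.out_eq' q, ← Quotient.out_eq' q']
      refine QuotientGroup.eq.2 ?_
      have h5 : q.out⁻¹ * q'.out = u * ((q.out * u)⁻¹ * (q'.out * u')) * u'⁻¹ := by group
      rw [h5]
      exact K.mul_mem (K.mul_mem hu h3) (K.inv_mem hu')
    subst h4
    have h5 : ρ u w = ρ u' w := by
      have := congrArg (ρ q.out⁻¹) h2
      rwa [hmulw, hmulw, hinvw, hinvw] at this
    exact Prod.ext rfl (Subtype.ext h5)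
  have hidx : K.index = S.index := Subgroup.index_comap_of_surjective S hφ.1
  rw [hidx] at h1
  -- claim 2
  have h2 : tsz ρ w (![1, g] : Fin 2 → G) ≤ osz ρ w * X.ncard := by
    refine (card_range_comp_le (fun x : G => (ρ x w, ρ (x * g) w))
      (fun x : G => fun i => ρ (x * (![1, g] : Fin 2 → G) i) w) ?_).trans ?_
    · intro i j hij
      have e1 : ρ i w = ρ j w := congrArg Prod.fst hij
      have e2 : ρ (i * g) w = ρ (j * g) w := congrArg Prod.snd hij
      funext k
      fin_cases k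
      · simpa using e1
      · simpa using e2
    · refine card_range_prod_le (fun x : G => ρ x w) (fun x : G => ρ (x * g) w) X.ncard ?_
      intro i
      have hsub : {b | ∃ j, ρ j w = ρ i w ∧ ρ (j * g) w = b} ⊆ (fun v => ρ i v) '' X := by
        rintro b ⟨j, hj, rfl⟩
        have h3 := hstab i j hj.symm
        refine ⟨ρ (i⁻¹ * j * g) w, ⟨i⁻¹ * j * g, K.mul_mem h3 hgS, rfl⟩, ?_⟩
        change ρ i (ρ (i⁻¹ * j * g) w) = _
        rw [← hmulw]
        congr 2
        group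
      exact (Set.ncard_le_ncard hsub (hXfin.image _)).trans (Set.ncard_image_le hXfin)
  -- claim 3
  have h3 := hB 2 le_rfl le_rfl (![1, g] : Fin 2 → G) (indep_pair ρ w g hg1 hg2)
  set n := osz ρ w with hndef
  set b := X.ncard with hb
  have hidx1 : 1 ≤ S.index := by
    have : Finite Γ := Finite.of_surjective φ hφ.1
    exact Nat.one_le_iff_ne_zero.2 Subgroup.index_ne_zero_of_finite
  have h4 : S.index ^ (4 * κ) * n ^ (2 * (4 * κ) - 1) ≤ n * n ^ (2 * (4 * κ) - 1) := by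
    calc S.index ^ (4 * κ) * n ^ (2 * (4 * κ) - 1)
        ≤ S.index ^ (4 * κ) * (n * b) ^ (4 * κ) :=
          Nat.mul_le_mul_left _ (h3.trans (Nat.pow_le_pow_left h2 _))
      _ = (n * (S.index * b)) ^ (4 * κ) := by rw [← mul_pow]; ring
      _ ≤ (n * n) ^ (4 * κ) := Nat.pow_le_pow_left (Nat.mul_le_mul_left _ h1) _
      _ = n ^ (2 * (4 * κ)) := by rw [← pow_two, ← pow_mul]
      _ = n * n ^ (2 * (4 * κ) - 1) := by
          rw [← pow_succ']
          congr 1
          omega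
  have h5 : S.index ^ (4 * κ) ≤ n := Nat.le_of_mul_le_mul_right h4 (by positivity)
  rcases Nat.lt_or_ge S.index 2 with h6 | h6
  · have : S.index = 1 := by omega
    rw [this, one_pow]
    omega
  · refine le_trans ?_ h5
    have e1 : S.index ^ (4 * κ) = S.index ^ (3 * κ) * S.index ^ κ := by rw [← pow_add]; congr 1; ring
    rw [e1]
    refine Nat.mul_le_mul_right _ ?_
    calc 2 ≤ S.index := h6
      _ = S.index ^ 1 := (pow_one _).symm
      _ ≤ S.index ^ (3 * κ) := Nat.pow_le_pow_right hidx1 (by omega)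

end Pool.Agent.Lib.MP_7ab245_nt.Solv.GY
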