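import Pool.Agent.Lib.MP_7ab245_nt.Solv.GY.Y25
import Pool.Agent.Lib.MP_7ab245_nt.Solv.GY.Y26
import Pool.Agent.Lib.MP_7ab245_nt.Solv.SX.ASDefs

/-! GY-Y27: the interface theorem `groupAS` of helper81, from `groupY`.
PROOF.  We may take `κ' = max κ 3`: all the bounds for `κ'` imply those for `κ` (`idx ≥ 1`).  `R = κ' + 6`, `D = 4 κ'`; `HypB ρ w R D` implies `HB ρ w R D` and `HB ρ w 2 D`.  First clause: `index_le_of_block` (`ρ 1 w = w`; `SameL ρ w g 1` is
`ρ g w = ρ 1 w ∨ ρ g w = -ρ 1 w`).  `T` from `groupY`.  `Nrm T (φ g)` from `cj (φ g) T = T` (`mem_cj`).  Centraliser: let `Nrm T (φ g)`, so `cj (φ g) T ≤ T`, equal since finite (`card_cj` or `Subgroup.eq_of_le_of_card_ge`);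
`g ∈ cen ρ w φ T`: let `φ a ∈ T` and let `T` move `ρ x w`; `cj (φ x) T` moves `ρ x w` too and is in `Comp` (`comp_cj`), so it is `T` (transport by `x⁻¹`: `cj (φ x⁻¹) T` is in `Comp` and moves `w`, so it is `T`), so `Nrm T (φ x)`, and the hypothesis for
`t = a`, `s = x` gives the claim (`g t s` against `t g s`, symmetric up to sign).  Let `Nrm T (φ s)`: then `cj (φ s) T = T` moves `ρ s w` (`mv_cj`), and the last clause of `groupY` gives `ρ (g * s) w = ± ρ s w`. -/

set_option autoImplicit false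

namespace Pool.Agent.Lib.MP_7ab245_nt.Solv.GY

open SX Module

private theorem nrm_iff {Γ : Type*} [Group Γ] [Finite Γ] (T : Subgroup Γ) (x : Γ) :
    (∀ t ∈ T, x * t * x⁻¹ ∈ T) ↔ cj x T = T := by
  constructor
  · intro h
    have hle : cj x T ≤ T := by
      intro y hy
      obtain ⟨t, ht, rfl⟩ := mem_cj.1 hy
      exact h t ht
    apply Subgroup.eq_of_le_of_card_ge hle
    apply le_of_eq
    exact (Nat.card_congr (T.equivMapOfInjective (MulAut.conj x).toMonoidHom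
      (MulAut.conj x).injective).toEquiv)
  · intro h t ht
    have h1 : x * t * x⁻¹ ∈ cj x T := mem_cj.2 ⟨t, ht, rfl⟩
    rwa [h] at h1

theorem groupAS' (κ : ℕ) : ∃ n₀ R D : ℕ, 1 ≤ D ∧ ∀ {G Γ W : Type} [Group G] [Finite G] [Group Γ]
    [AddCommGroup W] [Module ℚ W] (ρ : Representation ℚ G W) (w : W) (φ : G →* Γ),
    IsQ ρ w φ → n₀ ≤ osz ρ w → HypB ρ w R D →
    (∀ N : Subgroup Γ, N.Normal → Group.IsSolvable N → N = ⊥) →
    -- every subgroup of `Γ` strictly containing the stabiliser of the line has small index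
    (∀ S : Subgroup Γ, (∀ g, SameL ρ w g 1 → φ g ∈ S) → (∃ g, φ g ∈ S ∧ ¬ SameL ρ w g 1) →
      2 * S.index ^ κ ≤ osz ρ w) ∧
    -- the simple group
    ∃ T : Subgroup Γ, NonAb T ∧
      (∀ R' : Subgroup Γ, R' ≤ T → (∀ t ∈ T, ∀ x ∈ R', t * x * t⁻¹ ∈ R') → R' = ⊥ ∨ R' = T) ∧
      (∃ g, φ g ∈ T ∧ ¬ SameL ρ w g 1) ∧ osz ρ w ^ κ < Nat.card (MulAut T) ∧
      (∀ g, SameL ρ w g 1 → Nrm T (φ g)) ∧
      -- trivial centraliser on the lines moved by `T`
      ∀ g, Nrm T (φ g) → (∀ t s, φ t ∈ T → Nrm T (φ s) → SameL ρ w (g * t * s) (t * g * s)) →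
        ∀ s, Nrm T (φ s) → SameL ρ w (g * s) s := by
  obtain ⟨n₁, h₁⟩ := groupY (max κ 3) (le_max_right _ _)
  refine ⟨max n₁ 2, max κ 3 + 6, 4 * max κ 3, by omega, ?_⟩
  intro G Γ W _ _ _ _ _ ρ w φ hφ hn hB hsol
  have : Finite Γ := Finite.of_surjective φ hφ.1
  have hn1 : n₁ ≤ osz ρ w := (le_max_left _ _).trans hn
  have hn2 : 2 ≤ osz ρ w := (le_max_right _ _).trans hn
  have hHB : HB ρ w (max κ 3 + 6) (4 * max κ 3) :=
    fun r h2 hr u hu => (hB r (by omega) hr u hu).le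
  have hHB2 : HB ρ w 2 (4 * max κ 3) :=
    fun r h2 hr u hu => (hB r (by omega) (by omega) u hu).le
  have h1w : ρ 1 w = w := by rw [map_one]; rfl
  refine ⟨?_, ?_⟩
  · intro S hS hg
    have h2 := index_le_of_block (max κ 3) (le_max_right _ _) ρ w φ hφ hn2 hHB2 S
      (fun g hg' => hS g (by unfold SameL; rw [h1w]; exact hg'))
      (by
        obtain ⟨g, hg1, hg2⟩ := hg
        unfold SameL at hg2
        rw [h1w, not_or] at hg2
        exact ⟨g, hg1, hg2.1, hg2.2⟩)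
    have h3 : 0 < S.index := Nat.pos_of_ne_zero Subgroup.FiniteIndex.index_ne_zero
    have h4 : S.index ^ κ ≤ S.index ^ max κ 3 := Nat.pow_le_pow_right h3 (le_max_left _ _)
    omega
  · obtain ⟨-, T, hcomp, hmv, huniq, hna, hsimp, hcard, -, -, hstab, hlast⟩ :=
      h₁ ρ w φ hφ hn1 hsol hHB
    refine ⟨T, hna, hsimp, ?_, ?_, ?_, ?_⟩
    · obtain ⟨g, hg1, hg2, hg3⟩ := hmv
      refine ⟨g, hg1, ?_⟩
      unfold SameL
      rw [h1w, not_or]
      exact ⟨hg2, hg3⟩
    · exact lt_of_le_of_lt (Nat.pow_le_pow_right (by omega) (le_max_left _ _)) hcard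
    · intro g hg
      unfold SameL at hg
      rw [h1w] at hg
      exact (nrm_iff T (φ g)).2 (hstab g hg)
    · intro g hg hcom s hs
      have hgc : g ∈ cen ρ w φ T := by
        refine ⟨(nrm_iff T (φ g)).1 hg, ?_⟩
        intro a x ha hx
        have h5 : Mv ρ φ (cj (φ x⁻¹) T) w := by
          have h6 := (mv_cj ρ φ T x⁻¹ (ρ x w)).2 hx
          have h7 : ρ x⁻¹ (ρ x w) = w := by
            rw [← Module.End.mul_apply, ← map_mul, inv_mul_cancel, h1w]
          rwa [h7] at h6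
        have h8 : cj (φ x⁻¹) T = T := huniq _ (comp_cj hcomp _) h5
        have h9 : cj (φ x) T = T := by
          conv_lhs => rw [← h8]
          rw [← cj_mul, ← map_mul, mul_inv_cancel, map_one, cj_one]
        rcases hcom a x ha ((nrm_iff T (φ x)).2 h9) with h | h
        · exact Or.inl h.symm
        · right
          rw [h, neg_neg]
      have h10 : cj (φ s) T = T := (nrm_iff T (φ s)).1 hs
      have h11 := (mv_cj ρ φ T s w).2 hmv
      rw [h10] at h11
      exact hlast g hgc s h11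

end Pool.Agent.Lib.MP_7ab245_nt.Solv.GY
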