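import Pool.Agent.Lib.MP_7ab245_nt.Solv.SX.Defs

/-! Definitions for the structure of the Galois group in the reduction of Lehmer's problem
(notes: SOLV_ext2_helper76.md, SOLV_AS.md). -/

set_option autoImplicit false

namespace Pool.Agent.Lib.MP_7ab245_nt.Solv.GY

open SX

section grp
variable {Γ : Type*} [Group Γ]

/-- `T` is a minimal normal subgroup of a minimal normal subgroup of `Γ` -/
def Comp (T : Subgroup Γ) : Prop := ∃ N : Subgroup Γ, MinNormal N ∧ MinIn N T

/-- the elements of `S` commute with the elements of `T` -/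
def Comm (S T : Subgroup Γ) : Prop := ∀ a ∈ S, ∀ b ∈ T, a * b = b * a

/-- `T` has no proper nontrivial normal subgroup -/
def Simp (T : Subgroup Γ) : Prop :=
  ∀ R : Subgroup Γ, R ≤ T → (∀ t ∈ T, ∀ x ∈ R, t * x * t⁻¹ ∈ R) → R = ⊥ ∨ R = T

end grp

section act
variable {G Γ W : Type*} [Group G] [Group Γ] [AddCommGroup W] [Module ℚ W]

/-- `T` moves the line of the vector `y` -/
def Mv (ρ : Representation ℚ G W) (φ : G →* Γ) (T : Subgroup Γ) (y : W) : Prop :=
  ∃ g, φ g ∈ T ∧ ρ g y ≠ y ∧ ρ g y ≠ -y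

/-- orbit of the vector `y` under the preimage of `T` -/
def orb (ρ : Representation ℚ G W) (φ : G →* Γ) (T : Subgroup Γ) (y : W) : Set W :=
  (fun u => ρ u y) '' {u | φ u ∈ T}

/-- the members of `Comp` which move the line of `y` -/
def movers (ρ : Representation ℚ G W) (φ : G →* Γ) (y : W) : Set (Subgroup Γ) :=
  {T | Comp T ∧ Mv ρ φ T y}

/-- all members of `Comp` are nonabelian -/
def AllNA (Γ : Type*) [Group Γ] : Prop := ∀ T : Subgroup Γ, Comp T → NonAb T

/-- only one member of `Comp` moves the line of `w` -/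
def Uniq (ρ : Representation ℚ G W) (w : W) (φ : G →* Γ) : Prop :=
  ∀ T T' : Subgroup Γ, Comp T → Comp T' → Mv ρ φ T w → Mv ρ φ T' w → T = T'

/-- the elements which normalise `T` and commute (up to sign) with `T` on the vectors of the orbit
of `w` moved by `T` -/
def cen (ρ : Representation ℚ G W) (w : W) (φ : G →* Γ) (T : Subgroup Γ) : Set G :=
  {d | cj (φ d) T = T ∧ ∀ a x, φ a ∈ T → Mv ρ φ T (ρ x w) →
    ρ (a * d * x) w = ρ (d * a * x) w ∨ ρ (a * d * x) w = -ρ (d * a * x) w}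

/-- the elements of `cen` which map the line of `w` to a line of its orbit under `T` -/
def cen0 (ρ : Representation ℚ G W) (w : W) (φ : G →* Γ) (T : Subgroup Γ) : Set G :=
  {d | d ∈ cen ρ w φ T ∧ ∃ t, φ t ∈ T ∧ (ρ d w = ρ t w ∨ ρ d w = -ρ t w)}

/-- Theorem B, as a property of `ρ`, `w`: `#{(x u_i w)_i} ≥ n ^ (r - 1 / D)`, for
`r ≤ R` linearly independent vectors `u_i w` -/
def HB (ρ : Representation ℚ G W) (w : W) (R D : ℕ) : Prop :=
  ∀ r : ℕ, 2 ≤ r → r ≤ R → ∀ u : Fin r → G, LinearIndependent ℚ (fun i => ρ (u i) w) →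
    osz ρ w ^ (r * D - 1) ≤ tsz ρ w u ^ D

end act

end Pool.Agent.Lib.MP_7ab245_nt.Solv.GY
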