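import Pool.Agent.Lib.MP_7ab245_nt.Solv.SX.X02
import Pool.Agent.Lib.MP_7ab245_nt.Solv.SX.X05
import Pool.Agent.Lib.MP_7ab245_nt.Solv.GY.Defs

/-! GY-Y01: basic facts on `Comp`.
PROOF. `comp_comm`: `T ≤ N`, `T' ≤ N'`.  `N = N'`: `SX.comm_of_ne`.  `N ≠ N'`: `N ⊓ N'` is normal and `≤ N`, so it is `⊥` (if it is `N` then `N ≤ N'`, so `N = N'` by minimality of `N'`,
`N ≠ ⊥`); `a b a⁻¹ b⁻¹ ∈ N ⊓ N'`.  `comp_cj`: `SX.minIn_cj`.  `comp_simp`: `SX.simple_of_min`.  `eq_of_le`: if `T ≤ N'` with `N'` minimal normal then `N' = N`.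
`exists_comp`: finite group: a minimal normal subgroup `N` has a minimal nontrivial subgroup normalised by `N` (take one of least order). -/

set_option autoImplicit false

namespace Pool.Agent.Lib.MP_7ab245_nt.Solv.GY

open SX

variable {Γ : Type*} [Group Γ]

/-- `T` lies in only one minimal normal subgroup -/
private theorem eq_of_le' {N N' T : Subgroup Γ} (hN : MinNormal N) (hN' : MinNormal N')
    (hT0 : T ≠ ⊥) (hT : T ≤ N) (hT' : T ≤ N') : N = N' := by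
  have h1 : (N ⊓ N').Normal := by
    have := hN.1
    have := hN'.1
    exact Subgroup.normal_inf_normal N N'
  have h2 : N ⊓ N' ≠ ⊥ := fun h => hT0 (le_bot_iff.1 (h ▸ le_inf hT hT'))
  have h3 : N ⊓ N' = N := (hN.2.2 _ h1 inf_le_left).resolve_left h2
  have h4 : N ⊓ N' = N' := (hN'.2.2 _ h1 inf_le_right).resolve_left h2
  exact h3.symm.trans h4

theorem comp_comm {T T' : Subgroup Γ} (hT : Comp T) (hT' : Comp T') (h : T ≠ T') : Comm T T' := by
  obtain ⟨N, hN, hNT⟩ := hT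
  obtain ⟨N', hN', hNT'⟩ := hT'
  by_cases hNN : N = N'
  · subst hNN
    exact comm_of_ne hNT hNT' h
  · intro a ha b hb
    have haN : a ∈ N := hNT.1 ha
    have hbN : b ∈ N' := hNT'.1 hb
    have hinf : N ⊓ N' = ⊥ := by
      by_contra hne
      exact hNN (eq_of_le' hN hN' hne inf_le_left inf_le_right)
    have h1 : a * b * a⁻¹ * b⁻¹ ∈ N ⊓ N' := by
      constructor
      · have h2 : b * a⁻¹ * b⁻¹ ∈ N := hN.1.conj_mem _ (N.inv_mem haN) b
        have h3 : a * b * a⁻¹ * b⁻¹ = a * (b * a⁻¹ * b⁻¹) := by group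
        rw [h3]
        exact N.mul_mem haN h2
      · exact N'.mul_mem (hN'.1.conj_mem _ hbN a) (N'.inv_mem hbN)
    rw [hinf, Subgroup.mem_bot] at h1
    have h4 : a * b * (b * a)⁻¹ = 1 := by
      rw [← h1]; group
    exact mul_inv_eq_one.1 h4

theorem comp_cj {T : Subgroup Γ} (hT : Comp T) (s : Γ) : Comp (cj s T) := by
  obtain ⟨N, hN, hNT⟩ := hT
  exact ⟨N, hN, minIn_cj hN.1 hNT s⟩

theorem comp_simp {T : Subgroup Γ} (hT : Comp T) : Simp T := by
  obtain ⟨N, hN, hNT⟩ := hT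
  exact fun R hR hRT => simple_of_min hN hNT hR hRT

theorem comp_ne_bot {T : Subgroup Γ} (hT : Comp T) : T ≠ ⊥ := by
  obtain ⟨N, hN, hNT⟩ := hT
  exact hNT.2.1

/-- `T` lies in only one minimal normal subgroup -/
theorem eq_of_le {N N' T : Subgroup Γ} (hN : MinNormal N) (hN' : MinNormal N') (hT0 : T ≠ ⊥)
    (hT : T ≤ N) (hT' : T ≤ N') : N = N' := eq_of_le' hN hN' hT0 hT hT'

theorem exists_minIn [Finite Γ] {N : Subgroup Γ} (hN : MinNormal N) :
    ∃ T : Subgroup Γ, MinIn N T := by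
  let P : Subgroup Γ → Prop := fun T => T ≤ N ∧ T ≠ ⊥ ∧ ∀ n ∈ N, ∀ t ∈ T, n * t * n⁻¹ ∈ T
  have hP : ∃ T, P T := ⟨N, le_rfl, hN.2.1, fun n hn t ht =>
    N.mul_mem (N.mul_mem hn ht) (N.inv_mem hn)⟩
  obtain ⟨T, hT, hmin⟩ := (Set.toFinite {T | P T}).exists_minimalFor id _ hP
  refine ⟨T, hT.1, hT.2.1, hT.2.2, fun M hM hMn => ?_⟩
  by_cases h : M = ⊥
  · exact Or.inl h
  · right
    have hPM : P M := ⟨hM.trans hT.1, h, hMn⟩
    exact le_antisymm hM (hmin hPM hM)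

end Pool.Agent.Lib.MP_7ab245_nt.Solv.GY
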