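import Mathlib

/-! GY-Y21: numerics (`n` = size of the orbit, `Nat.log 2 (n ^ 2)` grows slower than every power of `n`).
PROOF.  `log_small`: `Nat.log 2 (n ^ 2) ≤ 2 * (Nat.log 2 n + 1)` and `2 ^ Nat.log 2 n ≤ n`; with `t = Nat.log 2 n` we need `C * (2 t + 2) ^ k < 2 ^ t` for `t ≥ t₀` (polynomial against exponential; e.g. by
`isLittleO_pow_const_const_pow_of_one_lt` or `tendsto_pow_const_div_const_pow_of_one_lt`).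
`num_orbit` (`o` = size of the orbit under `T`, `D = 4 κ`): suppose `o ^ κ < 2 n ^ (κ-1)`; then `n ^ (8κ-1) ≤ n ^ (4κ) L ^ (4κ) (o ^ κ) ^ 4 ≤ n ^ (4κ) L ^ (4κ) 16 n ^ (4κ-4)`, so `n ^ 3 ≤ 16 L ^ (4κ)`, contradiction to `log_small`.
`num_quad`: `n ^ (16κ-1) ≤ 2 ^ (4κ) n ^ (12κ) L ^ (8κ)` gives `n ^ (4κ-1) ≤ 2 ^ (4κ) L ^ (8κ)`, contradiction to `log_small`.
`num_two`: `4 n ^ (2κ-2) ≤ (o o') ^ κ ≤ 16 ^ κ n ^ κ`, so `n ≤ 16 ^ κ` as `κ ≥ 3`.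
`num_quadD`: `n ^ (16κ-1) ≤ 2 ^ (4κ) n ^ (12κ)` gives `n ^ (4κ-1) ≤ 2 ^ (4κ)`, false for `n ≥ 4`.
`num_cen`: `e ^ κ * 2 * n ^ (κ-1) ≤ (e o) ^ κ ≤ 4 ^ κ n ^ κ`, so `e ^ κ ≤ 4 ^ κ n`; `n ^ (8κ-1) ≤ n ^ (4κ) e ^ (4κ) ≤ n ^ (4κ) 4 ^ (4κ) n ^ 4`, so `n ^ (4κ-5) ≤ 4 ^ (4κ)`, `n ≤ 4 ^ (4κ)`.
`num_ncj`: `l ^ κ * 2 * n ^ (κ-1) ≤ (l o) ^ κ ≤ n ^ κ`.
`num_K`: `n ^ (4κ r - 1) ≤ K ^ (4κ) n ^ (4κ (r-1))` gives `n ^ (4κ-1) ≤ K ^ (4κ)`, so `n ≤ K ^ (4κ)`. -/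

set_option autoImplicit false

namespace Pool.Agent.Lib.MP_7ab245_nt.Solv.GY

theorem log_small (C k : ℕ) : ∃ n₀ : ℕ, ∀ n, n₀ ≤ n → C * Nat.log 2 (n ^ 2) ^ k < n := by
  have h1 := (Real.isLittleO_pow_log_id_atTop (n := k)).def
    (show (0 : ℝ) < 1 / (2 * ((C : ℝ) + 1) * 4 ^ k) by positivity)
  have h2 := tendsto_natCast_atTop_atTop.eventually h1
  obtain ⟨n₀, hn₀⟩ := Filter.eventually_atTop.1 h2
  refine ⟨max n₀ 1, fun n hn => ?_⟩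
  have h3 := hn₀ n ((le_max_left _ _).trans hn)
  have hn1 : 1 ≤ n := (le_max_right _ _).trans hn
  have hn1r : (1 : ℝ) ≤ n := by exact_mod_cast hn1
  have hl0 : 0 ≤ Real.log (n : ℝ) := Real.log_nonneg hn1r
  rw [Real.norm_eq_abs, Real.norm_eq_abs, abs_of_nonneg (pow_nonneg hl0 k), id_eq,
    abs_of_nonneg (show (0 : ℝ) ≤ n by positivity)] at h3
  have h4 : (Nat.log 2 (n ^ 2) : ℝ) ≤ 4 * Real.log n := by
    have h5 : (2 : ℝ) ^ Nat.log 2 (n ^ 2) ≤ (n : ℝ) ^ 2 := by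
      exact_mod_cast Nat.pow_log_le_self 2 (by positivity)
    have h6 := Real.log_le_log (by positivity) h5
    rw [Real.log_pow, Real.log_pow] at h6
    have h7 : 1 / 2 ≤ Real.log 2 := by
      have := Real.log_two_gt_d9
      linarith
    have h8 : (0 : ℝ) ≤ Nat.log 2 (n ^ 2) := Nat.cast_nonneg _
    push_cast at h6
    nlinarith
  have h5 : (Nat.log 2 (n ^ 2) : ℝ) ^ k ≤ 4 ^ k * Real.log n ^ k := by
    rw [← mul_pow]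
    exact pow_le_pow_left₀ (Nat.cast_nonneg _) h4 k
  have h6 : (C : ℝ) * (Nat.log 2 (n ^ 2) : ℝ) ^ k < n := by
    calc (C : ℝ) * (Nat.log 2 (n ^ 2) : ℝ) ^ k
        ≤ C * (4 ^ k * (1 / (2 * ((C : ℝ) + 1) * 4 ^ k) * n)) := by
          refine mul_le_mul_of_nonneg_left (h5.trans ?_) (Nat.cast_nonneg _)
          exact mul_le_mul_of_nonneg_left h3 (by positivity)
      _ = (C / ((C : ℝ) + 1)) * (n / 2) := by field_simp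
      _ ≤ 1 * (n / 2) := by
          refine mul_le_mul_of_nonneg_right ?_ (by positivity)
          rw [div_le_one (by positivity)]
          linarith
      _ < n := by linarith
  exact_mod_cast h6

theorem num_orbit (κ : ℕ) (hκ : 3 ≤ κ) : ∃ n₀ : ℕ, ∀ n o : ℕ, n₀ ≤ n →
    n ^ (2 * (4 * κ) - 1) ≤ (n * Nat.log 2 (n ^ 2) * o) ^ (4 * κ) → 2 * n ^ (κ - 1) ≤ o ^ κ := by
  obtain ⟨n₀, h0⟩ := log_small 16 (4 * κ)
  refine ⟨n₀ + 1, fun n o hn h => ?_⟩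
  by_contra hcon
  push Not at hcon
  have h1 := h0 n (by omega)
  have hnpos : 0 < n := by omega
  have h2 : (n * Nat.log 2 (n ^ 2) * o) ^ (4 * κ) =
      n ^ (4 * κ) * Nat.log 2 (n ^ 2) ^ (4 * κ) * (o ^ κ) ^ 4 := by
    rw [← pow_mul, mul_pow, mul_pow, mul_comm κ 4]
  have h3 : (o ^ κ) ^ 4 ≤ 16 * n ^ (4 * κ - 4) := by
    calc (o ^ κ) ^ 4 ≤ (2 * n ^ (κ - 1)) ^ 4 := Nat.pow_le_pow_left hcon.le 4
      _ = 16 * n ^ (4 * κ - 4) := by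
        rw [mul_pow, ← pow_mul]
        congr 2
        omega
  have h4 : n ^ (2 * (4 * κ) - 1) ≤ 16 * Nat.log 2 (n ^ 2) ^ (4 * κ) * n ^ (8 * κ - 4) := by
    calc n ^ (2 * (4 * κ) - 1)
        ≤ n ^ (4 * κ) * Nat.log 2 (n ^ 2) ^ (4 * κ) * (16 * n ^ (4 * κ - 4)) := by
          rw [h2] at h
          exact h.trans (Nat.mul_le_mul_left _ h3)
      _ = 16 * Nat.log 2 (n ^ 2) ^ (4 * κ) * (n ^ (4 * κ) * n ^ (4 * κ - 4)) := by ring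
      _ = _ := by
          rw [← pow_add]
          congr 2
          omega
  have h5 : n ^ (2 * (4 * κ) - 1) = n ^ 3 * n ^ (8 * κ - 4) := by
    rw [← pow_add]
    congr 1
    omega
  rw [h5] at h4
  have h6 := Nat.le_of_mul_le_mul_right h4 (Nat.pow_pos hnpos)
  have h7 : n ≤ n ^ 3 := Nat.le_self_pow (by norm_num) n
  omega

theorem num_quad (κ : ℕ) (hκ : 3 ≤ κ) : ∃ n₀ : ℕ, ∀ n : ℕ, n₀ ≤ n →
    ¬ n ^ (4 * (4 * κ) - 1) ≤ (2 * n ^ 3 * Nat.log 2 (n ^ 2) ^ 2) ^ (4 * κ) := by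
  obtain ⟨n₀, h0⟩ := log_small (2 ^ (4 * κ)) (8 * κ)
  refine ⟨n₀ + 1, fun n hn h => ?_⟩
  have h1 := h0 n (by omega)
  have hnpos : 0 < n := by omega
  have h2 : (2 * n ^ 3 * Nat.log 2 (n ^ 2) ^ 2) ^ (4 * κ) =
      2 ^ (4 * κ) * Nat.log 2 (n ^ 2) ^ (8 * κ) * n ^ (12 * κ) := by
    rw [mul_pow, mul_pow, ← pow_mul, ← pow_mul]
    have e1 : 3 * (4 * κ) = 12 * κ := by ring
    have e2 : 2 * (4 * κ) = 8 * κ := by ring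
    rw [e1, e2]
    ring
  have h3 : n ^ (4 * (4 * κ) - 1) = n ^ (4 * κ - 1) * n ^ (12 * κ) := by
    rw [← pow_add]
    congr 1
    omega
  rw [h2, h3] at h
  have h4 := Nat.le_of_mul_le_mul_right h (Nat.pow_pos hnpos)
  have h5 : n ≤ n ^ (4 * κ - 1) := Nat.le_self_pow (by omega) n
  omega

theorem num_two (κ : ℕ) (hκ : 3 ≤ κ) : ∃ n₀ : ℕ, ∀ n o o' : ℕ, n₀ ≤ n →
    2 * n ^ (κ - 1) ≤ o ^ κ → 2 * n ^ (κ - 1) ≤ o' ^ κ → o * o' ≤ 16 * n → False := by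
  refine ⟨16 ^ κ + 1, fun n o o' hn h1 h2 h3 => ?_⟩
  have hnpos : 0 < n := lt_of_lt_of_le (Nat.succ_pos _) hn
  have h4 : (2 * n ^ (κ - 1)) * (2 * n ^ (κ - 1)) ≤ 16 ^ κ * n ^ κ := by
    calc (2 * n ^ (κ - 1)) * (2 * n ^ (κ - 1)) ≤ o ^ κ * o' ^ κ := Nat.mul_le_mul h1 h2
      _ = (o * o') ^ κ := (mul_pow _ _ _).symm
      _ ≤ (16 * n) ^ κ := Nat.pow_le_pow_left h3 κ
      _ = 16 ^ κ * n ^ κ := mul_pow _ _ _
  have h5 : (2 * n ^ (κ - 1)) * (2 * n ^ (κ - 1)) = 4 * n ^ (κ - 2) * n ^ κ := by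
    have e : n ^ (κ - 1) * n ^ (κ - 1) = n ^ (κ - 2) * n ^ κ := by
      rw [← pow_add, ← pow_add]
      congr 1
      omega
    calc (2 * n ^ (κ - 1)) * (2 * n ^ (κ - 1)) = 4 * (n ^ (κ - 1) * n ^ (κ - 1)) := by ring
      _ = 4 * n ^ (κ - 2) * n ^ κ := by rw [e]; ring
  rw [h5] at h4
  have h6 := Nat.le_of_mul_le_mul_right h4 (Nat.pow_pos hnpos)
  have h7 : n ≤ n ^ (κ - 2) := Nat.le_self_pow (by omega) n
  omega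

theorem num_quadD (κ : ℕ) (hκ : 3 ≤ κ) : ∀ n : ℕ, 5 ≤ n →
    ¬ n ^ (4 * (4 * κ) - 1) ≤ (2 * n ^ 3) ^ (4 * κ) := by
  intro n hn h
  have hnpos : 0 < n := by omega
  have h2 : (2 * n ^ 3) ^ (4 * κ) = 2 ^ (4 * κ) * n ^ (12 * κ) := by
    rw [mul_pow, ← pow_mul]
    have e1 : 3 * (4 * κ) = 12 * κ := by ring
    rw [e1]
  have h3 : n ^ (4 * (4 * κ) - 1) = n ^ (4 * κ - 1) * n ^ (12 * κ) := by
    rw [← pow_add]
    congr 1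
    omega
  rw [h2, h3] at h
  have h4 := Nat.le_of_mul_le_mul_right h (Nat.pow_pos hnpos)
  have h5 : 4 ^ (4 * κ - 1) ≤ n ^ (4 * κ - 1) := Nat.pow_le_pow_left (by omega) _
  have h6 : 2 ^ (4 * κ) < 4 ^ (4 * κ - 1) := by
    have e : (4 : ℕ) ^ (4 * κ - 1) = 2 ^ (2 * (4 * κ - 1)) := by
      rw [pow_mul]
      norm_num
    rw [e]
    exact Nat.pow_lt_pow_right (by norm_num) (by omega)
  omega

theorem num_cen (κ : ℕ) (hκ : 3 ≤ κ) : ∃ n₀ : ℕ, ∀ n o e : ℕ, n₀ ≤ n →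
    2 * n ^ (κ - 1) ≤ o ^ κ → e * o ≤ 4 * n → n ^ (2 * (4 * κ) - 1) ≤ (n * e) ^ (4 * κ) →
    False := by
  refine ⟨4 ^ (4 * κ) + 1, fun n o e hn h1 h2 h3 => ?_⟩
  have hnpos : 0 < n := lt_of_lt_of_le (Nat.succ_pos _) hn
  have h4 : e ^ κ ≤ 4 ^ κ * n := by
    have h5 : e ^ κ * 2 * n ^ (κ - 1) ≤ 4 ^ κ * n * n ^ (κ - 1) := by
      calc e ^ κ * 2 * n ^ (κ - 1) = e ^ κ * (2 * n ^ (κ - 1)) := by ring
        _ ≤ e ^ κ * o ^ κ := Nat.mul_le_mul_left _ h1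
        _ = (e * o) ^ κ := (mul_pow _ _ _).symm
        _ ≤ (4 * n) ^ κ := Nat.pow_le_pow_left h2 κ
        _ = 4 ^ κ * n ^ κ := mul_pow _ _ _
        _ = 4 ^ κ * n * n ^ (κ - 1) := by
          rw [mul_assoc, ← pow_succ']
          congr 2
          omega
    have h6 := Nat.le_of_mul_le_mul_right h5 (Nat.pow_pos hnpos)
    omega
  have h5 : n ^ (2 * (4 * κ) - 1) ≤ 4 ^ (4 * κ) * n ^ (4 * κ + 4) := by
    calc n ^ (2 * (4 * κ) - 1) ≤ (n * e) ^ (4 * κ) := h3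
      _ = n ^ (4 * κ) * (e ^ κ) ^ 4 := by rw [mul_pow, ← pow_mul, mul_comm κ 4]
      _ ≤ n ^ (4 * κ) * (4 ^ κ * n) ^ 4 := Nat.mul_le_mul_left _ (Nat.pow_le_pow_left h4 4)
      _ = 4 ^ (4 * κ) * n ^ (4 * κ + 4) := by
        rw [mul_pow, ← pow_mul, mul_comm κ 4, pow_add]
        ring
  have h6 : n ^ (2 * (4 * κ) - 1) = n ^ (4 * κ - 5) * n ^ (4 * κ + 4) := by
    rw [← pow_add]
    congr 1
    omega
  rw [h6] at h5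
  have h7 := Nat.le_of_mul_le_mul_right h5 (Nat.pow_pos hnpos)
  have h8 : n ≤ n ^ (4 * κ - 5) := Nat.le_self_pow (by omega) n
  omega

theorem num_ncj (κ : ℕ) (hκ : 3 ≤ κ) : ∀ n o l : ℕ, 1 ≤ n →
    2 * n ^ (κ - 1) ≤ o ^ κ → l * o ≤ n → 2 * l ^ κ ≤ n := by
  intro n o l hn h1 h2
  have h3 : 2 * l ^ κ * n ^ (κ - 1) ≤ n * n ^ (κ - 1) := by
    calc 2 * l ^ κ * n ^ (κ - 1) = l ^ κ * (2 * n ^ (κ - 1)) := by ring
      _ ≤ l ^ κ * o ^ κ := Nat.mul_le_mul_left _ h1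
      _ = (l * o) ^ κ := (mul_pow _ _ _).symm
      _ ≤ n ^ κ := Nat.pow_le_pow_left h2 κ
      _ = n * n ^ (κ - 1) := by
        rw [← pow_succ']
        congr 1
        omega
  exact Nat.le_of_mul_le_mul_right h3 (Nat.pow_pos hn)

theorem num_K (κ : ℕ) (hκ : 3 ≤ κ) (K : ℕ) : ∃ n₀ : ℕ, ∀ n r t : ℕ, n₀ ≤ n → 1 ≤ r →
    n ^ (r * (4 * κ) - 1) ≤ t ^ (4 * κ) → ¬ t ≤ K * n ^ (r - 1) := by
  refine ⟨K ^ (4 * κ) + 1, fun n r t hn hr h1 h2 => ?_⟩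
  have hnpos : 0 < n := by omega
  obtain ⟨s, rfl⟩ : ∃ s, r = s + 1 := ⟨r - 1, by omega⟩
  rw [Nat.add_sub_cancel] at h2
  have h3 : n ^ ((s + 1) * (4 * κ) - 1) ≤ K ^ (4 * κ) * n ^ (s * (4 * κ)) := by
    calc n ^ ((s + 1) * (4 * κ) - 1) ≤ t ^ (4 * κ) := h1
      _ ≤ (K * n ^ s) ^ (4 * κ) := Nat.pow_le_pow_left h2 _
      _ = K ^ (4 * κ) * n ^ (s * (4 * κ)) := by rw [mul_pow, ← pow_mul]
  have h4 : n ^ ((s + 1) * (4 * κ) - 1) = n ^ (4 * κ - 1) * n ^ (s * (4 * κ)) := by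
    rw [← pow_add]
    congr 1
    rw [add_mul, one_mul]
    omega
  rw [h4] at h3
  have h5 := Nat.le_of_mul_le_mul_right h3 (Nat.pow_pos hnpos)
  have h6 : n ≤ n ^ (4 * κ - 1) := Nat.le_self_pow (by omega) n
  omega

end Pool.Agent.Lib.MP_7ab245_nt.Solv.GY
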