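import Pool.Agent.Lib.MP_7ab245_nt.Solv.SX.X14
import Pool.Agent.Lib.MP_7ab245_nt.Solv.SX.X22
import Pool.Agent.Lib.MP_7ab245_nt.Solv.GY.Y21
import Pool.Agent.Lib.MP_7ab245_nt.Solv.GY.Y01

/-! GY-Y23: `|Aut T|` is large, and the dimension.
PROOF.  `four_le`: `n₀ = B ^ B + 1`, `B = 3 ^ 9` (keep `B` opaque, e.g. `obtain ⟨B, hB⟩ : ∃ B, B = 3 ^ 9`).  If the dimension `d` is `≤ 3` then `|T| ≤ 3 ^ d² ≤ B` (`SX.card_le_of_moves`; `Mv ρ φ T w` is `Moves ρ w φ T` by definition), so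
`|Aut T| ≤ |T| ^ |T| ≤ B ^ B`, a contradiction.
`mulAut_gt`: `n₀` from `SX.groupX κ` and `num_K κ hκ K`.  `T ≤ N`, `MinIn N T`: `T' = T.subgroupOf N` is a minimal normal subgroup of the group `N` (`M ≤ T'` normal in `N`: `M.map N.subtype` is `⊥` or `T`), `T'.map N.subtype = T`,
`|Aut T'| = |Aut T|` (`SX.card_mulAut_map`), and not abelian (`AllNA`).  If `|Aut T| ≤ n ^ κ`, `groupX` gives `r`, `u` with `tsz ρ w u ≤ K n ^ (r-1)`; `HB` (`R = κ + 6`) and `num_K`: contradiction. -/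

set_option autoImplicit false

namespace Pool.Agent.Lib.MP_7ab245_nt.Solv.GY

open SX Module

private theorem y23_card_mulAut_le {T : Type*} [Group T] [Finite T] {B : ℕ}
    (h : Nat.card T ≤ B) : Nat.card (MulAut T) ≤ B ^ B := by
  have h1 : Nat.card (MulAut T) ≤ Nat.card (T → T) :=
    Nat.card_le_card_of_injective (fun f : MulAut T => (f : T → T)) DFunLike.coe_injective
  have h2 : Nat.card (T → T) = Nat.card T ^ Nat.card T := by
    rw [Nat.card_fun]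
  have h3 : 0 < Nat.card T := Nat.card_pos
  calc Nat.card (MulAut T) ≤ Nat.card T ^ Nat.card T := h1.trans_eq h2
    _ ≤ B ^ Nat.card T := Nat.pow_le_pow_left h _
    _ ≤ B ^ B := Nat.pow_le_pow_right (h3.trans_le h) h

theorem four_le : ∃ n₀ : ℕ, ∀ {G Γ W : Type*} [Group G] [Finite G]
    [Group Γ] [AddCommGroup W] [Module ℚ W] (ρ : Representation ℚ G W) (w : W) (φ : G →* Γ),
    IsQ ρ w φ → ∀ T : Subgroup Γ, Comp T → Mv ρ φ T w → n₀ ≤ Nat.card (MulAut T) →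
    4 ≤ finrank ℚ (spn ρ w φ T) := by
  obtain ⟨B, hB⟩ : ∃ B : ℕ, B = 3 ^ 9 := ⟨_, rfl⟩
  refine ⟨B ^ B + 1, ?_⟩
  intro G Γ W _ _ _ _ _ ρ w φ hφ T hT hm hn
  have hfin : Finite Γ := Finite.of_surjective φ hφ.1
  obtain ⟨N, hN, hTN⟩ := hT
  by_contra hd
  push Not at hd
  have h1 := card_le_of_moves ρ w φ hφ hN hTN hm
  have h2 : finrank ℚ (spn ρ w φ T) ^ 2 ≤ 9 := by
    have h3 : finrank ℚ (spn ρ w φ T) ≤ 3 := by omega
    calc finrank ℚ (spn ρ w φ T) ^ 2 ≤ 3 ^ 2 := Nat.pow_le_pow_left h3 2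
      _ = 9 := by norm_num
  have h3 : Nat.card T ≤ B := by
    rw [hB]
    exact h1.trans (Nat.pow_le_pow_right (by norm_num) h2)
  have h4 := y23_card_mulAut_le h3
  omega

private theorem y23_minNormal {Γ : Type*} [Group Γ] {N T : Subgroup Γ} (hT : MinIn N T) :
    MinNormal (T.subgroupOf N) := by
  obtain ⟨hTN, hTb, hTn, hTm⟩ := hT
  have e : (T.subgroupOf N).map N.subtype = T := Subgroup.map_subgroupOf_eq_of_le hTN
  refine ⟨⟨fun t ht n => ?_⟩, ?_, ?_⟩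
  · rw [Subgroup.mem_subgroupOf] at ht ⊢
    exact hTn n.1 n.2 t.1 ht
  · intro h
    rw [h, Subgroup.map_bot] at e
    exact hTb e.symm
  · intro M hM hMT
    have h1 : M.map N.subtype ≤ T := by
      rw [← e]
      exact Subgroup.map_mono hMT
    have h2 : ∀ n ∈ N, ∀ t ∈ M.map N.subtype, n * t * n⁻¹ ∈ M.map N.subtype := by
      rintro n hn _ ⟨t, ht, rfl⟩
      exact ⟨⟨n, hn⟩ * t * (⟨n, hn⟩ : N)⁻¹, hM.conj_mem t ht ⟨n, hn⟩, rfl⟩
    rcases hTm _ h1 h2 with h | h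
    · left
      exact (Subgroup.map_eq_bot_iff_of_injective M N.subtype_injective).1 h
    · right
      apply Subgroup.map_injective N.subtype_injective
      rw [h, e]

theorem mulAut_gt (κ : ℕ) (hκ : 3 ≤ κ) : ∃ n₀ : ℕ, ∀ {G Γ W : Type*} [Group G] [Finite G]
    [Group Γ] [AddCommGroup W] [Module ℚ W] (ρ : Representation ℚ G W) (w : W) (φ : G →* Γ),
    IsQ ρ w φ → n₀ ≤ osz ρ w → AllNA Γ → HB ρ w (κ + 6) (4 * κ) →
    ∀ T : Subgroup Γ, Comp T → osz ρ w ^ κ < Nat.card (MulAut T) := by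
  obtain ⟨K, n₁, h₁⟩ := groupX κ
  obtain ⟨n₂, h₂⟩ := num_K κ hκ K
  refine ⟨max n₁ n₂, ?_⟩
  intro G Γ W _ _ _ _ _ ρ w φ hφ hn hNA hHB T hT
  have hn1 : n₁ ≤ osz ρ w := (le_max_left _ _).trans hn
  have hn2 : n₂ ≤ osz ρ w := (le_max_right _ _).trans hn
  have hna := hNA T hT
  obtain ⟨N, hN, hTN⟩ := hT
  have e : (T.subgroupOf N).map N.subtype = T := Subgroup.map_subgroupOf_eq_of_le hTN.1
  have hcard : Nat.card (MulAut (T.subgroupOf N)) = Nat.card (MulAut T) := by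
    rw [← card_mulAut_map N (T.subgroupOf N), e]
  by_contra hle
  push Not at hle
  have hna' : ¬ ∀ a b : T.subgroupOf N, a * b = b * a := by
    intro hab
    obtain ⟨a, ha, b, hb, hne⟩ := hna
    apply hne
    have h := hab ⟨⟨a, hTN.1 ha⟩, Subgroup.mem_subgroupOf.2 ha⟩
      ⟨⟨b, hTN.1 hb⟩, Subgroup.mem_subgroupOf.2 hb⟩
    exact congrArg (fun x : T.subgroupOf N => ((x : N) : Γ)) h
  obtain ⟨r, hr2, hr, u, hu, hu'⟩ := h₁ ρ w φ hφ hn1 N (T.subgroupOf N) hN (y23_minNormal hTN)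
    hna' (by rw [hcard]; exact hle)
  exact h₂ _ r _ hn2 (by omega) (hHB r hr2 hr u hu) hu'

end Pool.Agent.Lib.MP_7ab245_nt.Solv.GY
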