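import Pool.Agent.Lib.MP_7ab245_nt.Solv.GY.Y01

/-! GY-Y24: the minimal normal subgroups.
PROOF.  `existsUnique_minNormal`: existence: a nontrivial normal subgroup of least order.  Uniqueness: `N`, `N'` minimal normal; `T`, `T'` with `MinIn N T`, `MinIn N' T'` (`exists_minIn`); conjugates `cj s T`, `cj s' T'` move `w` (`SX.exists_moves`;
`Moves ρ w φ T` is `Mv ρ φ T w` by definition) and are in `Comp` (`SX.minIn_cj`), so they are equal (`Uniq`), and contained in `N` and in `N'`: `N = N'` by `eq_of_le`.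
`allNA`: let `Comp T`, `T ≤ N`, with `T` abelian.  The conjugates of `T` are abelian, two different ones commute elementwise (`SX.comm_of_ne`, `SX.minIn_cj`), and they generate `N` (`SX.iSup_cj`), so `N` is abelian
(e.g. `Subgroup.closure` induction / centralizers), hence solvable and normal: `N = ⊥`, contradiction.  (See also the proof of `SX.X23`.)
`exists_mover`: take `N`, `T`, and a conjugate moving `w`. -/

set_option autoImplicit false

namespace Pool.Agent.Lib.MP_7ab245_nt.Solv.GY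

open SX

private theorem y24_exists_min {Γ : Type*} [Group Γ] [Finite Γ] [Nontrivial Γ] :
    ∃ N : Subgroup Γ, MinNormal N := by
  obtain ⟨N, hN, hmin⟩ := (Set.toFinite {N : Subgroup Γ | N.Normal ∧ N ≠ ⊥}).exists_minimal
    ⟨⊤, inferInstanceAs (⊤ : Subgroup Γ).Normal, top_ne_bot⟩
  refine ⟨N, hN.1, hN.2, fun M hM hle => ?_⟩
  by_cases h : M = ⊥
  · exact Or.inl h
  · exact Or.inr (le_antisymm hle (hmin ⟨hM, h⟩ hle))

/-- in every minimal normal subgroup there is a member of `Comp` which moves `w` -/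
private theorem y24_mover {G Γ W : Type*} [Group G] [Group Γ] [Finite Γ] [AddCommGroup W]
    [Module ℚ W] (ρ : Representation ℚ G W) (w : W) (φ : G →* Γ) (hφ : IsQ ρ w φ)
    {N : Subgroup Γ} (hN : MinNormal N) : ∃ T : Subgroup Γ, MinIn N T ∧ Mv ρ φ T w := by
  obtain ⟨T, hT⟩ := exists_minIn hN
  obtain ⟨s, hs⟩ := exists_moves ρ w φ hφ hN hT
  exact ⟨cj s T, minIn_cj hN.1 hT s, hs⟩

theorem existsUnique_minNormal {G Γ W : Type*} [Group G] [Finite G]
    [Group Γ] [Nontrivial Γ] [AddCommGroup W] [Module ℚ W] (ρ : Representation ℚ G W) (w : W)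
    (φ : G →* Γ) (hφ : IsQ ρ w φ) (hu : Uniq ρ w φ) : ∃! N : Subgroup Γ, MinNormal N := by
  have : Finite Γ := Finite.of_surjective φ hφ.1
  obtain ⟨N, hN⟩ := y24_exists_min (Γ := Γ)
  refine ⟨N, hN, fun N' hN' => ?_⟩
  obtain ⟨T, hT, hTm⟩ := y24_mover ρ w φ hφ hN
  obtain ⟨T', hT', hTm'⟩ := y24_mover ρ w φ hφ hN'
  have h : T = T' := hu T T' ⟨N, hN, hT⟩ ⟨N', hN', hT'⟩ hTm hTm'
  exact eq_of_le hN' hN hT.2.1 (h ▸ hT'.1) hT.1

theorem exists_mover {G Γ W : Type*} [Group G] [Finite G]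
    [Group Γ] [Nontrivial Γ] [AddCommGroup W] [Module ℚ W] (ρ : Representation ℚ G W) (w : W)
    (φ : G →* Γ) (hφ : IsQ ρ w φ) : ∃ T : Subgroup Γ, Comp T ∧ Mv ρ φ T w := by
  have : Finite Γ := Finite.of_surjective φ hφ.1
  obtain ⟨N, hN⟩ := y24_exists_min (Γ := Γ)
  obtain ⟨T, hT, hTm⟩ := y24_mover ρ w φ hφ hN
  exact ⟨T, ⟨N, hN, hT⟩, hTm⟩

theorem allNA {Γ : Type*} [Group Γ] [Finite Γ]
    (hsol : ∀ N : Subgroup Γ, N.Normal → Group.IsSolvable N → N = ⊥) : AllNA Γ := by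
  rintro T ⟨N, hN, hT⟩
  by_contra hna
  have hab : ∀ a ∈ T, ∀ b ∈ T, a * b = b * a := by
    intro a ha b hb
    by_contra h
    exact hna ⟨a, ha, b, hb, h⟩
  have hcomm : ∀ s u : Γ, ∀ a ∈ cj s T, ∀ b ∈ cj u T, a * b = b * a := by
    intro s u a ha b hb
    by_cases he : cj s T = cj u T
    · rw [← he] at hb
      obtain ⟨a0, ha0, rfl⟩ := mem_cj.1 ha
      obtain ⟨b0, hb0, rfl⟩ := mem_cj.1 hb
      have h2 := hab a0 ha0 b0 hb0
      have h3 : s * a0 * s⁻¹ * (s * b0 * s⁻¹) = s * (a0 * b0) * s⁻¹ := by group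
      have h4 : s * b0 * s⁻¹ * (s * a0 * s⁻¹) = s * (b0 * a0) * s⁻¹ := by group
      rw [h3, h4, h2]
    · exact comm_of_ne (minIn_cj hN.1 hT s) (minIn_cj hN.1 hT u) he a ha b hb
  have hN1 : ∀ a ∈ N, ∀ b ∈ N, a * b = b * a := by
    have hle : ∀ s : Γ, ∀ a ∈ cj s T, ∀ b ∈ N, a * b = b * a := by
      intro s a ha b hb
      have h1 : N ≤ Subgroup.centralizer {a} := by
        rw [← iSup_cj hN hT]
        refine iSup_le fun u y hy => ?_
        rw [Subgroup.mem_centralizer_singleton_iff]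
        exact (hcomm s u a ha y hy).symm
      exact (Subgroup.mem_centralizer_singleton_iff.1 (h1 hb)).symm
    intro a ha b hb
    have h1 : N ≤ Subgroup.centralizer {b} := by
      conv_lhs => rw [← iSup_cj hN hT]
      refine iSup_le fun u y hy => ?_
      rw [Subgroup.mem_centralizer_singleton_iff]
      exact hle u y hy b hb
    exact Subgroup.mem_centralizer_singleton_iff.1 (h1 ha)
  have hsN : Group.IsSolvable N :=
    Group.isSolvable_of_comm fun a b => Subtype.ext (hN1 a a.2 b b.2)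
  exact hN.2.1 (hsol N hN.1 hsN)

end Pool.Agent.Lib.MP_7ab245_nt.Solv.GY
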