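import Pool.Agent.Lib.MP_7ab245_nt.Solv.GY.Y22
import Pool.Agent.Lib.MP_7ab245_nt.Solv.GY.Y23
import Pool.Agent.Lib.MP_7ab245_nt.Solv.GY.Y24

/-! GY-Y25: the group theorem.
PROOF.  `n₀` = maximum of 3 and the `n₀` of `structure_of_HB κ`, `mulAut_gt κ`, and the `n₀` of `four_le` (as `n ≤ n ^ κ < |Aut T|`).  `Γ` is finite (`φ` surjective) and nontrivial: if it is trivial then `ρ g w = ± w` for all `g` (`IsQ`) and
`osz ρ w ≤ 2`.  `AllNA Γ` from `allNA`.  `T` from `exists_mover`, unique by `Uniq`.  `NonAb T`, `Simp T` (`comp_simp`), `mulAut_gt`, (1), (2) from `structure_of_HB`.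
Stabiliser: `cj_eq_of_eq` for `x = g`, `x' = 1`.
Last conclusion: `d ∈ cen ρ w φ T`, `T` moves `ρ x w`.  `cj (φ x) T` is in `Comp` and moves `ρ x w`, so `cj (φ x) T = T` (`uniq_all`), hence `cj (φ x⁻¹) T = T`, so `x⁻¹ d x ∈ cen ρ w φ T` (`cen_conj`),
`ρ (x⁻¹ d x) w = ± w`, `ρ (d * x) w = ± ρ x w`. -/

set_option autoImplicit false

namespace Pool.Agent.Lib.MP_7ab245_nt.Solv.GY

open SX Module

private theorem y25_rmul {G W : Type*} [Group G] [AddCommGroup W] [Module ℚ W]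
    (ρ : Representation ℚ G W) (a b : G) (v : W) : ρ (a * b) v = ρ a (ρ b v) := by
  rw [map_mul]; rfl

private theorem y25_nontrivial {G Γ W : Type*} [Group G] [Finite G] [Group Γ]
    [AddCommGroup W] [Module ℚ W] (ρ : Representation ℚ G W) (w : W) (φ : G →* Γ)
    (hφ : IsQ ρ w φ) (hn : 3 ≤ osz ρ w) : Nontrivial Γ := by
  rw [← not_subsingleton_iff_nontrivial]
  intro hs
  have h1 : ∀ g : G, ρ g w = w ∨ ρ g w = -w := by
    intro g
    have h := (hφ.2 g).1 (Subsingleton.elim _ _) 1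
    simpa using h
  have h2 : (Set.range fun x : G => ρ x w) ⊆ {w, -w} := by
    rintro _ ⟨x, rfl⟩
    rcases h1 x with h | h
    · left; exact h
    · right; exact h
  have h3 : osz ρ w ≤ 2 := by
    unfold osz
    rw [Nat.card_coe_set_eq]
    refine (Set.ncard_le_ncard h2 (Set.toFinite _)).trans ?_
    have h4 := Set.ncard_insert_le w {-w}
    rw [Set.ncard_singleton] at h4
    exact h4
  omega

theorem groupY (κ : ℕ) (hκ : 3 ≤ κ) : ∃ n₀ : ℕ, ∀ {G Γ W : Type*} [Group G] [Finite G]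
    [Group Γ] [AddCommGroup W] [Module ℚ W] (ρ : Representation ℚ G W) (w : W) (φ : G →* Γ),
    IsQ ρ w φ → n₀ ≤ osz ρ w → (∀ N : Subgroup Γ, N.Normal → Group.IsSolvable N → N = ⊥) →
    HB ρ w (κ + 6) (4 * κ) →
    (∃! N : Subgroup Γ, MinNormal N) ∧
    ∃ T : Subgroup Γ, Comp T ∧ Mv ρ φ T w ∧ (∀ T' : Subgroup Γ, Comp T' → Mv ρ φ T' w → T' = T) ∧
      NonAb T ∧ Simp T ∧ osz ρ w ^ κ < Nat.card (MulAut T) ∧
      2 * osz ρ w ^ (κ - 1) ≤ Nat.card (orb ρ φ T w) ^ κ ∧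
      2 * ncj T ^ κ ≤ osz ρ w ∧
      (∀ g, (ρ g w = w ∨ ρ g w = -w) → cj (φ g) T = T) ∧
      ∀ d ∈ cen ρ w φ T, ∀ x, Mv ρ φ T (ρ x w) →
        ρ (d * x) w = ρ x w ∨ ρ (d * x) w = -ρ x w := by
  obtain ⟨n₁, h₁⟩ := structure_of_HB κ hκ
  obtain ⟨n₂, h₂⟩ := mulAut_gt κ hκ
  obtain ⟨n₃, h₃⟩ := four_le
  refine ⟨max 3 (max n₁ (max n₂ n₃)), ?_⟩
  intro G Γ W _ _ _ _ _ ρ w φ hφ hn hsol hHB
  have hn0 : 3 ≤ osz ρ w := (le_max_left _ _).trans hn
  have hn' : max n₁ (max n₂ n₃) ≤ osz ρ w := (le_max_right _ _).trans hn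
  have hn1 : n₁ ≤ osz ρ w := (le_max_left _ _).trans hn'
  have hn'' : max n₂ n₃ ≤ osz ρ w := (le_max_right _ _).trans hn'
  have hn2 : n₂ ≤ osz ρ w := (le_max_left _ _).trans hn''
  have hn3 : n₃ ≤ osz ρ w := (le_max_right _ _).trans hn''
  have hfin : Finite Γ := Finite.of_surjective φ hφ.1
  have hnt : Nontrivial Γ := y25_nontrivial ρ w φ hφ hn0
  have hNA : AllNA Γ := allNA hsol
  have hgt := h₂ ρ w φ hφ hn2 hNA hHB
  have hfour : ∀ T, Comp T → Mv ρ φ T w → 4 ≤ finrank ℚ (spn ρ w φ T) := by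
    intro T hT hm
    refine h₃ ρ w φ hφ T hT hm ?_
    have h4 : osz ρ w ≤ osz ρ w ^ κ := Nat.le_self_pow (by omega) _
    exact hn3.trans (h4.trans (hgt T hT).le)
  have hHB4 : HB ρ w 4 (4 * κ) := fun r hr2 hr u hu => hHB r hr2 (by omega) u hu
  obtain ⟨hu, hst⟩ := h₁ ρ w φ hφ hn1 hNA hHB4 hfour
  obtain ⟨T, hT, hm⟩ := exists_mover ρ w φ hφ
  obtain ⟨hs1, hs2, hs3⟩ := hst T hT hm
  refine ⟨existsUnique_minNormal ρ w φ hφ hu, T, hT, hm, fun T' hT' hm' => hu T' T hT' hT hm' hm,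
    hNA T hT, comp_simp hT, hgt T hT, hs1, hs2, fun g hg => ?_, fun d hd x hx => ?_⟩
  · have h := cj_eq_of_eq ρ w φ hu hT hm (x := g) (x' := 1) (by simpa using hg)
    rw [h, map_one, cj_one]
  · have hx1 : Mv ρ φ (cj (φ x) T) (ρ x w) := (mv_cj ρ φ T x w).2 hm
    have hx2 : cj (φ x) T = T := uniq_all ρ w φ hu x (comp_cj hT _) hT hx1 hx
    have hx3 : cj (φ x⁻¹) T = T := by
      conv_lhs => rw [← hx2]
      rw [← cj_mul, ← map_mul, inv_mul_cancel, map_one, cj_one]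
    have hd' := cen_conj ρ w φ T hd x⁻¹
    rw [hx3, inv_inv] at hd'
    have h5 : ρ (d * x) w = ρ x (ρ (x⁻¹ * d * x) w) := by
      rw [← y25_rmul]
      congr 2
      group
    rw [h5]
    rcases hs3 _ hd' with h6 | h6
    · left; rw [h6]
    · right; rw [h6, map_neg]

end Pool.Agent.Lib.MP_7ab245_nt.Solv.GY
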