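import Pool.Agent.Lib.MP_7ab245_nt.Solv.GY.Defs

/-! GY-Y02: a subgroup of the direct product of two commuting subgroups and its projections.
PROOF. `T ⊔ Q` is the set of products `t * q` (`Subgroup.mem_sup` style; `Comm`), `(t, q) ↦ t * q` is injective since `T ⊓ Q = ⊥`: `card_sup_eq`.
`exists_proj`: `R = {t ∈ T | ∃ q ∈ Q, t * q ∈ B}` is a subgroup (`(t q) (t' q') = (t t') (q q')`).  The map `B ⊓ (T ⊔ Q) → R`, `t * q ↦ t` (well defined: the decomposition is unique) is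
surjective with fibres the cosets of `B ⊓ Q`: `t q, t q' ∈ B` gives `q⁻¹ q' ∈ B ⊓ Q`. (For example: choose `q_t` for every `t ∈ R`; `(t, z) ↦ t * q_t * z`, `z ∈ B ⊓ Q`, is a bijection
`R × (B ⊓ Q) ≃ B ⊓ (T ⊔ Q)`; or use the first isomorphism theorem.) -/

set_option autoImplicit false

namespace Pool.Agent.Lib.MP_7ab245_nt.Solv.GY

open SX

variable {Γ : Type*} [Group Γ] [Finite Γ]

private theorem mem_sup_iff' {Γ : Type*} [Group Γ] {T Q : Subgroup Γ} (hc : Comm T Q) (x : Γ) :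
    x ∈ T ⊔ Q ↔ ∃ t ∈ T, ∃ q ∈ Q, t * q = x := by
  constructor
  · intro hx
    let S : Subgroup Γ :=
      { carrier := {x | ∃ t ∈ T, ∃ q ∈ Q, t * q = x}
        one_mem' := ⟨1, T.one_mem, 1, Q.one_mem, by simp⟩
        mul_mem' := by
          rintro _ _ ⟨t, ht, q, hq, rfl⟩ ⟨t', ht', q', hq', rfl⟩
          refine ⟨t * t', T.mul_mem ht ht', q * q', Q.mul_mem hq hq', ?_⟩
          have h := hc t' ht' q hq
          calc t * t' * (q * q') = t * (t' * q) * q' := by group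
            _ = t * (q * t') * q' := by rw [h]
            _ = t * q * (t' * q') := by group
        inv_mem' := by
          rintro _ ⟨t, ht, q, hq, rfl⟩
          refine ⟨t⁻¹, T.inv_mem ht, q⁻¹, Q.inv_mem hq, ?_⟩
          rw [hc t⁻¹ (T.inv_mem ht) q⁻¹ (Q.inv_mem hq)]
          group }
    have h1 : T ⊔ Q ≤ S := by
      apply sup_le
      · intro t ht
        exact ⟨t, ht, 1, Q.one_mem, by simp⟩
      · intro q hq
        exact ⟨1, T.one_mem, q, hq, by simp⟩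
    exact h1 hx
  · rintro ⟨t, ht, q, hq, rfl⟩
    exact (T ⊔ Q).mul_mem ((le_sup_left : T ≤ T ⊔ Q) ht) ((le_sup_right : Q ≤ T ⊔ Q) hq)

theorem mem_sup_iff {T Q : Subgroup Γ} (hc : Comm T Q) (x : Γ) :
    x ∈ T ⊔ Q ↔ ∃ t ∈ T, ∃ q ∈ Q, t * q = x := mem_sup_iff' hc x

private theorem unique_dec {T Q : Subgroup Γ} (hTQ : T ⊓ Q = ⊥) {t t' q q' : Γ} (ht : t ∈ T)
    (ht' : t' ∈ T) (hq : q ∈ Q) (hq' : q' ∈ Q) (h : t * q = t' * q') : t = t' ∧ q = q' := by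
  have h1 : t'⁻¹ * t = q' * q⁻¹ := by
    have : t'⁻¹ * t * q = q' := by
      rw [mul_assoc, h]; group
    rw [← this]; group
  have h2 : t'⁻¹ * t ∈ T ⊓ Q := by
    refine ⟨T.mul_mem (T.inv_mem ht') ht, ?_⟩
    rw [h1]
    exact Q.mul_mem hq' (Q.inv_mem hq)
  rw [hTQ, Subgroup.mem_bot] at h2
  have h3 : t = t' := (inv_mul_eq_one.1 h2).symm
  subst h3
  exact ⟨rfl, mul_left_cancel h⟩

theorem card_sup_eq {T Q : Subgroup Γ} (hc : Comm T Q) (hTQ : T ⊓ Q = ⊥) :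
    Nat.card (T ⊔ Q : Subgroup Γ) = Nat.card T * Nat.card Q := by
  rw [← Nat.card_prod]
  symm
  refine Nat.card_eq_of_bijective (fun p : T × Q => (⟨p.1 * p.2,
    (mem_sup_iff hc _).2 ⟨p.1, p.1.2, p.2, p.2.2, rfl⟩⟩ : (T ⊔ Q : Subgroup Γ))) ⟨?_, ?_⟩
  · rintro ⟨⟨t, ht⟩, ⟨q, hq⟩⟩ ⟨⟨t', ht'⟩, ⟨q', hq'⟩⟩ h
    have h1 : t * q = t' * q' := congrArg Subtype.val h
    obtain ⟨rfl, rfl⟩ := unique_dec hTQ ht ht' hq hq' h1
    rfl
  · rintro ⟨x, hx⟩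
    obtain ⟨t, ht, q, hq, rfl⟩ := (mem_sup_iff hc _).1 hx
    exact ⟨⟨⟨t, ht⟩, ⟨q, hq⟩⟩, rfl⟩

theorem exists_proj {T Q : Subgroup Γ} (B : Subgroup Γ) (hc : Comm T Q) (hTQ : T ⊓ Q = ⊥) :
    ∃ R : Subgroup Γ, (∀ t, t ∈ R ↔ t ∈ T ∧ ∃ q ∈ Q, t * q ∈ B) ∧
      Nat.card (B ⊓ (T ⊔ Q) : Subgroup Γ) = Nat.card R * Nat.card (B ⊓ Q : Subgroup Γ) := by
  let R : Subgroup Γ :=
    { carrier := {t | t ∈ T ∧ ∃ q ∈ Q, t * q ∈ B}
      one_mem' := ⟨T.one_mem, 1, Q.one_mem, by simp⟩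
      mul_mem' := by
        rintro t t' ⟨ht, q, hq, hB⟩ ⟨ht', q', hq', hB'⟩
        refine ⟨T.mul_mem ht ht', q * q', Q.mul_mem hq hq', ?_⟩
        have h := hc t' ht' q hq
        have h1 : t * t' * (q * q') = t * q * (t' * q') := by
          calc t * t' * (q * q') = t * (t' * q) * q' := by group
            _ = t * (q * t') * q' := by rw [h]
            _ = t * q * (t' * q') := by group
        rw [h1]
        exact B.mul_mem hB hB'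
      inv_mem' := by
        rintro t ⟨ht, q, hq, hB⟩
        refine ⟨T.inv_mem ht, q⁻¹, Q.inv_mem hq, ?_⟩
        rw [hc t⁻¹ (T.inv_mem ht) q⁻¹ (Q.inv_mem hq), ← mul_inv_rev]
        exact B.inv_mem hB }
  have hR : ∀ t, t ∈ R ↔ t ∈ T ∧ ∃ q ∈ Q, t * q ∈ B := fun t => Iff.rfl
  refine ⟨R, hR, ?_⟩
  have hch : ∀ t : R, ∃ q ∈ Q, (t : Γ) * q ∈ B := fun t => t.2.2
  choose c hcQ hcB using hch
  rw [← Nat.card_prod]
  symm
  refine Nat.card_eq_of_bijective (fun p : R × (B ⊓ Q : Subgroup Γ) =>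
    (⟨p.1 * c p.1 * p.2, B.mul_mem (hcB p.1) p.2.2.1, (mem_sup_iff hc _).2
      ⟨p.1, p.1.2.1, c p.1 * p.2, Q.mul_mem (hcQ p.1) p.2.2.2, by group⟩⟩ :
      (B ⊓ (T ⊔ Q) : Subgroup Γ))) ⟨?_, ?_⟩
  · rintro ⟨t, ⟨z, hz⟩⟩ ⟨t', ⟨z', hz'⟩⟩ h
    have h1 : (t : Γ) * c t * z = t' * c t' * z' := congrArg Subtype.val h
    have h2 := unique_dec hTQ t.2.1 t'.2.1 (Q.mul_mem (hcQ t) hz.2) (Q.mul_mem (hcQ t') hz'.2)
      (by rw [← mul_assoc, ← mul_assoc]; exact h1)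
    have h3 : t = t' := Subtype.ext h2.1
    subst h3
    have h4 : z = z' := mul_left_cancel h2.2
    subst h4
    rfl
  · rintro ⟨x, hxB, hx⟩
    obtain ⟨t, ht, q, hq, rfl⟩ := (mem_sup_iff hc _).1 hx
    have htR : t ∈ R := ⟨ht, q, hq, hxB⟩
    have hz : (c ⟨t, htR⟩)⁻¹ * q ∈ B ⊓ Q := by
      refine ⟨?_, Q.mul_mem (Q.inv_mem (hcQ _)) hq⟩
      have h1 : (c ⟨t, htR⟩)⁻¹ * q = (t * c ⟨t, htR⟩)⁻¹ * (t * q) := by group
      rw [h1]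
      exact B.mul_mem (B.inv_mem (hcB ⟨t, htR⟩)) hxB
    refine ⟨⟨⟨t, htR⟩, ⟨_, hz⟩⟩, ?_⟩
    apply Subtype.ext
    change t * c ⟨t, htR⟩ * ((c ⟨t, htR⟩)⁻¹ * q) = t * q
    group

end Pool.Agent.Lib.MP_7ab245_nt.Solv.GY
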