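import Pool.Agent.Lib.MP_7ab245_nt.Solv.GY.Defs

/-! GY-Y03: at most one factor is swallowed.
PROOF. For `j = 1, 2` let `S_j = {t ∈ T | ∃ u ∈ T_j, t * u ∈ B}`: a subgroup (`T` and `T_j ≤ Q` commute), normalised by `T`: for `t₀ ∈ T` take `q₀ ∈ Q` with `t₀ q₀ ∈ B`; if `t u ∈ B` then
`(t₀ q₀) (t u) (t₀ q₀)⁻¹ = (t₀ t t₀⁻¹) (q₀ u q₀⁻¹) ∈ B` and `q₀ u q₀⁻¹ ∈ T_j`.  So `S_j = ⊥` or `S_j = T` (`Simp T`).  `S_j = ⊥`: every `u ∈ T_j` has `t` with `t u ∈ B` (`h_j`), so `t = 1`, `u ∈ B`,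
`T_j ≤ B`, contradiction.  So `S_1 = S_2 = T`.  Let `s, s' ∈ T`, `s u ∈ B`, `s' u' ∈ B` with `u ∈ T_1`, `u' ∈ T_2`.  As `T`, `T_1`, `T_2` commute pairwise, the commutator of `s u` and `s' u'` is
the commutator of `s` and `s'`; it is in `B ⊓ T = ⊥`.  So `T` is abelian, a contradiction to `NonAb T`. -/

set_option autoImplicit false

namespace Pool.Agent.Lib.MP_7ab245_nt.Solv.GY

open SX

private theorem swallow {Γ : Type*} [Group Γ] {T Q U B : Subgroup Γ} (hc : Comm T Q)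
    (h1 : U ≤ Q) (hn1 : ∀ q ∈ Q, ∀ u ∈ U, q * u * q⁻¹ ∈ U)
    (hs : Simp T) (hpr : ∀ t ∈ T, ∃ q ∈ Q, t * q ∈ B)
    (hB1 : ¬ U ≤ B) (hj1 : ∀ u ∈ U, ∃ t ∈ T, t * u ∈ B) :
    ∀ t ∈ T, ∃ u ∈ U, t * u ∈ B := by
  obtain ⟨S, hS⟩ : ∃ S : Subgroup Γ, ∀ t, t ∈ S ↔ t ∈ T ∧ ∃ u ∈ U, t * u ∈ B := by
    refine ⟨{ carrier := {t | t ∈ T ∧ ∃ u ∈ U, t * u ∈ B}
              mul_mem' := ?_
              one_mem' := ?_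
              inv_mem' := ?_ }, fun t => Iff.rfl⟩
    · rintro t t' ⟨ht, u, hu, htu⟩ ⟨ht', u', hu', htu'⟩
      refine ⟨T.mul_mem ht ht', u * u', U.mul_mem hu hu', ?_⟩
      have e : t * t' * (u * u') = t * u * (t' * u') := by
        have e1 : t' * u = u * t' := hc t' ht' u (h1 hu)
        calc t * t' * (u * u') = t * (t' * u) * u' := by group
          _ = t * (u * t') * u' := by rw [e1]
          _ = t * u * (t' * u') := by group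
      rw [e]
      exact B.mul_mem htu htu'
    · refine ⟨T.one_mem, 1, U.one_mem, ?_⟩
      rw [one_mul]
      exact B.one_mem
    · rintro t ⟨ht, u, hu, htu⟩
      refine ⟨T.inv_mem ht, u⁻¹, U.inv_mem hu, ?_⟩
      have e : t⁻¹ * u⁻¹ = (t * u)⁻¹ := by
        rw [hc t ht u (h1 hu), mul_inv_rev]
      rw [e]
      exact B.inv_mem htu
  have hle : S ≤ T := fun t ht => ((hS t).mp ht).1
  have hnorm : ∀ t ∈ T, ∀ x ∈ S, t * x * t⁻¹ ∈ S := by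
    intro t₀ ht₀ t ht
    obtain ⟨htT, u, hu, htu⟩ := (hS t).mp ht
    obtain ⟨q₀, hq₀, hb⟩ := hpr t₀ ht₀
    rw [hS]
    refine ⟨T.mul_mem (T.mul_mem ht₀ htT) (T.inv_mem ht₀), q₀ * u * q₀⁻¹, hn1 q₀ hq₀ u hu, ?_⟩
    have h3 : t₀ * q₀ * (t * u) * (t₀ * q₀)⁻¹ ∈ B :=
      B.mul_mem (B.mul_mem hb htu) (B.inv_mem hb)
    have e1 : q₀ * t = t * q₀ := (hc t htT q₀ hq₀).symm
    have e2 : t₀⁻¹ * (q₀ * u * q₀⁻¹) = (q₀ * u * q₀⁻¹) * t₀⁻¹ :=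
      hc t₀⁻¹ (T.inv_mem ht₀) _ (h1 (hn1 q₀ hq₀ u hu))
    have e : t₀ * t * t₀⁻¹ * (q₀ * u * q₀⁻¹) = t₀ * q₀ * (t * u) * (t₀ * q₀)⁻¹ := by
      calc t₀ * t * t₀⁻¹ * (q₀ * u * q₀⁻¹) = t₀ * t * (t₀⁻¹ * (q₀ * u * q₀⁻¹)) := by group
        _ = t₀ * t * ((q₀ * u * q₀⁻¹) * t₀⁻¹) := by rw [e2]
        _ = t₀ * (t * q₀) * u * (t₀ * q₀)⁻¹ := by group
        _ = t₀ * (q₀ * t) * u * (t₀ * q₀)⁻¹ := by rw [e1]
        _ = t₀ * q₀ * (t * u) * (t₀ * q₀)⁻¹ := by group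
    rw [e]
    exact h3
  rcases hs S hle hnorm with h | h
  · exfalso
    apply hB1
    intro u hu
    obtain ⟨t, ht, htu⟩ := hj1 u hu
    have h3 : t ∈ S := (hS t).mpr ⟨ht, u, hu, htu⟩
    rw [h, Subgroup.mem_bot] at h3
    rwa [h3, one_mul] at htu
  · intro t ht
    rw [← h] at ht
    exact ((hS t).mp ht).2

theorem at_most_one {Γ : Type*} [Group Γ] {T Q T₁ T₂ B : Subgroup Γ} (hc : Comm T Q)
    (h1 : T₁ ≤ Q) (h2 : T₂ ≤ Q) (h12 : Comm T₁ T₂)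
    (hn1 : ∀ q ∈ Q, ∀ u ∈ T₁, q * u * q⁻¹ ∈ T₁) (hn2 : ∀ q ∈ Q, ∀ u ∈ T₂, q * u * q⁻¹ ∈ T₂)
    (hs : Simp T) (hna : NonAb T) (hBT : B ⊓ T = ⊥) (hpr : ∀ t ∈ T, ∃ q ∈ Q, t * q ∈ B)
    (hB1 : ¬ T₁ ≤ B) (hB2 : ¬ T₂ ≤ B) (hj1 : ∀ u ∈ T₁, ∃ t ∈ T, t * u ∈ B)
    (hj2 : ∀ u ∈ T₂, ∃ t ∈ T, t * u ∈ B) : False := by
  obtain ⟨a, ha, b, hb, hab⟩ := hna
  obtain ⟨u, hu, hau⟩ := swallow hc h1 hn1 hs hpr hB1 hj1 a ha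
  obtain ⟨u', hu', hbu⟩ := swallow hc h2 hn2 hs hpr hB2 hj2 b hb
  have c1 : u * b = b * u := (hc b hb u (h1 hu)).symm
  have c2 : u * u' = u' * u := h12 u hu u' hu'
  have c3 : u' * a⁻¹ = a⁻¹ * u' := (hc a⁻¹ (T.inv_mem ha) u' (h2 hu')).symm
  have e : a * u * (b * u') * (a * u)⁻¹ * (b * u')⁻¹ = a * b * a⁻¹ * b⁻¹ := by
    calc a * u * (b * u') * (a * u)⁻¹ * (b * u')⁻¹
        = a * (u * b) * u' * (a * u)⁻¹ * (b * u')⁻¹ := by group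
      _ = a * (b * u) * u' * (a * u)⁻¹ * (b * u')⁻¹ := by rw [c1]
      _ = a * b * (u * u') * (a * u)⁻¹ * (b * u')⁻¹ := by group
      _ = a * b * (u' * u) * (a * u)⁻¹ * (b * u')⁻¹ := by rw [c2]
      _ = a * b * (u' * a⁻¹) * u'⁻¹ * b⁻¹ := by group
      _ = a * b * (a⁻¹ * u') * u'⁻¹ * b⁻¹ := by rw [c3]
      _ = a * b * a⁻¹ * b⁻¹ := by group
  have hB : a * b * a⁻¹ * b⁻¹ ∈ B := by
    rw [← e]
    exact B.mul_mem (B.mul_mem (B.mul_mem hau hbu) (B.inv_mem hau)) (B.inv_mem hbu)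
  have hT : a * b * a⁻¹ * b⁻¹ ∈ T :=
    T.mul_mem (T.mul_mem (T.mul_mem ha hb) (T.inv_mem ha)) (T.inv_mem hb)
  have h3 : a * b * a⁻¹ * b⁻¹ ∈ B ⊓ T := Subgroup.mem_inf.mpr ⟨hB, hT⟩
  rw [hBT, Subgroup.mem_bot] at h3
  apply hab
  have h4 : a * b = (a * b * a⁻¹ * b⁻¹) * (b * a) := by group
  rw [h4, h3, one_mul]

end Pool.Agent.Lib.MP_7ab245_nt.Solv.GY
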