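import Pool.Agent.Lib.MP_7ab245_nt.Solv.GY.Y02
import Pool.Agent.Lib.MP_7ab245_nt.Solv.GY.Y03

/-! GY-Y04: the index lemma.  Commuting simple groups `T ∈ s`, none of them in `B`: `[⟨s⟩ : B ∩ ⟨s⟩]² ≥ 2^#s`.
PROOF.  Strong induction on `#s` (for all `B`).  `s = ∅` trivial.  Take `T ∈ s`, `s' = s.erase T`, `Q = s'.sup id`, so `s.sup id = T ⊔ Q`.  `T` commutes with `Q` (its generators), `T ⊓ Q` is central in `T` (an
element of `Q` commutes with `T`), a subgroup normalised by `T`, so `⊥` or `T` (`Simp`), not `T` as `T` is not abelian: `T ⊓ Q = ⊥`.  `R` from `exists_proj B`: `R ≤ T`.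
(i) `R ≠ T`: `2 |R| ≤ |T|` (Lagrange).  `|B ⊓ (T ⊔ Q)| = |R| |B ⊓ Q|`, `|T ⊔ Q| = |T| |Q|`, and `2^(k-1) |B ⊓ Q|² ≤ |Q|²` by induction: even a factor 4.
(ii) `R = T`: `B ⊓ T` is normalised by `T`: for `t ∈ T` there is `q ∈ Q` with `t q ∈ B`, and `t x t⁻¹ = (t q) x (t q)⁻¹` for `x ∈ T`; so `B ⊓ T = ⊥` (not `T` since `¬ T ≤ B`).
 Let `B₁` be the projection to `Q`: `exists_proj` with the roles of `T` and `Q` exchanged: `B₁ = {q ∈ Q | ∃ t ∈ T, q * t ∈ B}`, `|B ⊓ (T ⊔ Q)| = |B₁| |B ⊓ T| = |B₁|`.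
 At most one `T_j ∈ s'` satisfies `T_j ≤ B₁` (`at_most_one`; `T_j` is normalised by `Q` because it is normalised by itself and commutes with the other members).  Let `s''` be `s'` without this member
 (`#s'' ≥ k - 2`), `Q'' = s''.sup id ≤ Q`.  Induction for `s''` and `B₁`: `2^(k-2) |B₁ ⊓ Q''|² ≤ |Q''|²`.  And `|Q''| / |B₁ ⊓ Q''| ≤ |Q| / |B₁|` (`B₁ ≤ Q`; index of the intersection,
 `Subgroup.relIndex`; or `|B₁| |Q''| ≤ |Q| |B₁ ⊓ Q''|` since the cosets `b Q''`..).  So `|T ⊔ Q| / |B ⊓ (T ⊔ Q)| = |T| |Q| / |B₁| ≥ 2 · 2^((k-2)/2)`. -/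

set_option autoImplicit false

namespace Pool.Agent.Lib.MP_7ab245_nt.Solv.GY

open SX

private theorem comm_sup {Γ : Type*} [Group Γ] {T : Subgroup Γ} (s : Finset (Subgroup Γ))
    (h : ∀ T' ∈ s, Comm T T') : Comm T (s.sup id) := by
  have h1 : s.sup id ≤ Subgroup.centralizer (T : Set Γ) := by
    apply Finset.sup_le
    intro T' hT' x hx
    rw [Subgroup.mem_centralizer_iff]
    exact fun a ha => h T' hT' a ha x hx
  intro a ha b hb
  exact Subgroup.mem_centralizer_iff.1 (h1 hb) a ha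

private theorem inf_bot {Γ : Type*} [Group Γ] {T Q : Subgroup Γ} (hc : Comm T Q) (hs : Simp T)
    (hn : NonAb T) : T ⊓ Q = ⊥ := by
  rcases hs (T ⊓ Q) inf_le_left (fun t ht x hx => by
    have h1 := hc t ht x hx.2
    rw [h1, mul_inv_cancel_right]; exact hx) with h | h
  · exact h
  · exfalso
    obtain ⟨a, ha, b, hb, hab⟩ := hn
    have : b ∈ T ⊓ Q := by rw [h]; exact hb
    exact hab (hc a ha b this.2)

private theorem norm_sup {Γ : Type*} [Group Γ] (s : Finset (Subgroup Γ))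
    (hc : ∀ T ∈ s, ∀ T' ∈ s, T ≠ T' → Comm T T') {U : Subgroup Γ} (hU : U ∈ s) :
    ∀ q ∈ s.sup id, ∀ u ∈ U, q * u * q⁻¹ ∈ U := by
  have h1 : s.sup id ≤ Subgroup.normalizer (U : Set Γ) := by
    apply Finset.sup_le
    intro T' hT' x hx
    by_cases h : T' = U
    · subst h
      exact Subgroup.le_normalizer hx
    · rw [Subgroup.mem_normalizer_iff]
      intro u
      constructor
      · intro hu
        rw [hc T' hT' U hU h x hx u hu, mul_inv_cancel_right]
        exact hu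
      · intro hu
        have h2 := hc T' hT' U hU h x⁻¹ (T'.inv_mem hx) _ hu
        have h3 : x⁻¹ * (x * u * x⁻¹) = u * x⁻¹ := by group
        rw [h3] at h2
        rw [mul_right_cancel h2]
        exact hu
  intro q hq u hu
  exact (Subgroup.mem_normalizer_iff.1 (h1 hq) u).1 hu

private theorem card_mul_card_le {Γ : Type*} [Group Γ] [Finite Γ] {B Q' Q : Subgroup Γ}
    (hB : B ≤ Q) (hQ : Q' ≤ Q) : Nat.card B * Nat.card Q' ≤ Nat.card Q * Nat.card (B ⊓ Q' : Subgroup Γ) := by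
  have h1 : Nat.card (B ⊓ Q' : Subgroup Γ) * (B ⊓ Q').relIndex Q' = Nat.card Q' := by
    have := Subgroup.relIndex_mul_relIndex (⊥ : Subgroup Γ) (B ⊓ Q') Q' bot_le inf_le_right
    rwa [Subgroup.relIndex_bot_left, Subgroup.relIndex_bot_left] at this
  have h2 : Nat.card B * B.relIndex Q = Nat.card Q := by
    have := Subgroup.relIndex_mul_relIndex (⊥ : Subgroup Γ) B Q bot_le hB
    rwa [Subgroup.relIndex_bot_left, Subgroup.relIndex_bot_left] at this
  have h3 : (B ⊓ Q').relIndex Q' ≤ B.relIndex Q := by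
    rw [Subgroup.inf_relIndex_right]
    refine Subgroup.relIndex_le_of_le_right hQ (fun h0 => ?_)
    have h3 := Subgroup.relIndex_dvd_card B Q
    rw [h0, zero_dvd_iff] at h3
    exact Nat.card_pos.ne' h3
  calc Nat.card B * Nat.card Q' = Nat.card B * ((B ⊓ Q').relIndex Q' * Nat.card (B ⊓ Q' : Subgroup Γ)) := by
        rw [mul_comm ((B ⊓ Q').relIndex Q'), h1]
    _ = Nat.card B * (B ⊓ Q').relIndex Q' * Nat.card (B ⊓ Q' : Subgroup Γ) := by ring
    _ ≤ Nat.card B * B.relIndex Q * Nat.card (B ⊓ Q' : Subgroup Γ) := by gcongr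
    _ = _ := by rw [h2]

theorem index_lemma {Γ : Type*} [Group Γ] [Finite Γ] (s : Finset (Subgroup Γ))
    (hc : ∀ T ∈ s, ∀ T' ∈ s, T ≠ T' → Comm T T') (hs : ∀ T ∈ s, Simp T)
    (hn : ∀ T ∈ s, NonAb T) (B : Subgroup Γ) (hB : ∀ T ∈ s, ¬ T ≤ B) :
    2 ^ s.card * Nat.card (B ⊓ s.sup id : Subgroup Γ) ^ 2 ≤
      Nat.card (s.sup id : Subgroup Γ) ^ 2 := by
  classical
  induction hk : s.card using Nat.strong_induction_on generalizing s B with
  | _ k ih =>
  rcases s.eq_empty_or_nonempty with h0 | ⟨T, hT⟩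
  · subst h0
    rw [Finset.card_empty] at hk
    subst hk
    rw [Finset.sup_empty, inf_bot_eq, pow_zero, one_mul]
  · obtain ⟨s', hs'⟩ : ∃ s', s' = s.erase T := ⟨_, rfl⟩
    have hsub : ∀ U ∈ s', U ∈ s ∧ U ≠ T := by
      intro U hU
      rw [hs', Finset.mem_erase] at hU
      exact ⟨hU.2, hU.1⟩
    have hcard : s'.card + 1 = k := by
      rw [hs', Finset.card_erase_of_mem hT, ← hk]
      have := Finset.card_pos.2 ⟨T, hT⟩
      omega
    obtain ⟨Q, hQ⟩ : ∃ Q, Q = s'.sup id := ⟨_, rfl⟩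
    have hsup : s.sup id = T ⊔ Q := by
      rw [hQ, hs', ← Finset.insert_erase hT, Finset.sup_insert, Finset.erase_insert_eq_erase,
        Finset.erase_idem]
      rfl
    have hcTQ : Comm T Q := by
      rw [hQ]
      exact comm_sup s' (fun U hU => hc T hT U (hsub U hU).1 (hsub U hU).2.symm)
    have hcQT : Comm Q T := fun a ha b hb => (hcTQ b hb a ha).symm
    have hTQ : T ⊓ Q = ⊥ := inf_bot hcTQ (hs T hT) (hn T hT)
    have hcard1 : Nat.card (T ⊔ Q : Subgroup Γ) = Nat.card T * Nat.card Q := card_sup_eq hcTQ hTQ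
    obtain ⟨R, hR, hRcard⟩ := exists_proj B hcTQ hTQ
    have hRT : R ≤ T := fun t ht => ((hR t).1 ht).1
    rw [hsup, hcard1]
    by_cases hRe : R = T
    · -- the projection is everything
      have hpr : ∀ t ∈ T, ∃ q ∈ Q, t * q ∈ B := by
        intro t ht
        rw [← hRe] at ht
        exact ((hR t).1 ht).2
      have hBT : B ⊓ T = ⊥ := by
        rcases hs T hT (B ⊓ T) inf_le_right (fun t ht x hx => by
          obtain ⟨q, hq, hqB⟩ := hpr t ht
          refine ⟨?_, T.mul_mem (T.mul_mem ht hx.2) (T.inv_mem ht)⟩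
          have h1 : t * q * x * (t * q)⁻¹ = t * x * t⁻¹ := by
            have h2 := hcTQ x hx.2 q hq
            calc t * q * x * (t * q)⁻¹ = t * (q * x) * q⁻¹ * t⁻¹ := by group
              _ = t * (x * q) * q⁻¹ * t⁻¹ := by rw [h2]
              _ = t * x * t⁻¹ := by group
          rw [← h1]
          exact B.mul_mem (B.mul_mem hqB hx.1) (B.inv_mem hqB)) with h | h
        · exact h
        · exact absurd (fun x hx => by rw [← h] at hx; exact hx.1) (hB T hT)
      obtain ⟨B₁, hB₁, hB₁card⟩ := exists_proj B hcQT (by rw [inf_comm]; exact hTQ)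
      have hB₁Q : B₁ ≤ Q := fun q hq => ((hB₁ q).1 hq).1
      have hcard2 : Nat.card (B ⊓ (T ⊔ Q) : Subgroup Γ) = Nat.card B₁ := by
        rw [sup_comm, hB₁card, hBT]
        simp
      obtain ⟨s'', hs''⟩ : ∃ s'', s'' = s'.filter (fun U => ¬ U ≤ B₁) := ⟨_, rfl⟩
      have hone : (s'.filter (fun U => U ≤ B₁)).card ≤ 1 := by
        rw [Finset.card_le_one]
        intro U₁ hU₁ U₂ hU₂
        by_contra hne
        rw [Finset.mem_filter] at hU₁ hU₂
        have hUQ : ∀ U ∈ s', U ≤ Q := fun U hU => by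
          rw [hQ]; exact Finset.le_sup (f := id) hU
        refine at_most_one hcTQ (hUQ U₁ hU₁.1) (hUQ U₂ hU₂.1)
          (hc U₁ (hsub _ hU₁.1).1 U₂ (hsub _ hU₂.1).1 hne) ?_ ?_ (hs T hT) (hn T hT) hBT hpr
          (hB _ (hsub _ hU₁.1).1) (hB _ (hsub _ hU₂.1).1) ?_ ?_
        · rw [hQ]
          exact norm_sup s' (fun A hA A' hA' => hc A (hsub A hA).1 A' (hsub A' hA').1) hU₁.1
        · rw [hQ]
          exact norm_sup s' (fun A hA A' hA' => hc A (hsub A hA).1 A' (hsub A' hA').1) hU₂.1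
        · intro u hu
          obtain ⟨huQ, t, ht, htB⟩ := (hB₁ u).1 (hU₁.2 hu)
          exact ⟨t, ht, by rw [hcTQ t ht u huQ]; exact htB⟩
        · intro u hu
          obtain ⟨huQ, t, ht, htB⟩ := (hB₁ u).1 (hU₂.2 hu)
          exact ⟨t, ht, by rw [hcTQ t ht u huQ]; exact htB⟩
      have hcard3 : k ≤ s''.card + 2 := by
        have := Finset.card_filter_add_card_filter_not (s := s') (fun U => U ≤ B₁)
        rw [← hs''] at this
        omega
      have hsub'' : ∀ U ∈ s'', U ∈ s' ∧ ¬ U ≤ B₁ := by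
        intro U hU
        rw [hs'', Finset.mem_filter] at hU
        exact hU
      have hlt : s''.card < k := by
        have : s''.card ≤ s'.card := by rw [hs'']; exact Finset.card_filter_le _ _
        omega
      have hih := ih s''.card hlt s''
        (fun A hA A' hA' => hc A (hsub A (hsub'' A hA).1).1 A' (hsub A' (hsub'' A' hA').1).1)
        (fun A hA => hs A (hsub A (hsub'' A hA).1).1) (fun A hA => hn A (hsub A (hsub'' A hA).1).1)
        B₁ (fun A hA => (hsub'' A hA).2) rfl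
      obtain ⟨Q'', hQ''⟩ : ∃ Q'', Q'' = s''.sup id := ⟨_, rfl⟩
      rw [← hQ''] at hih
      have hQQ : Q'' ≤ Q := by
        rw [hQ'', hQ]
        exact Finset.sup_mono (fun U hU => (hsub'' U hU).1)
      have hm := card_mul_card_le hB₁Q hQQ
      rw [hcard2]
      have hT2 : 2 ≤ Nat.card T := by
        obtain ⟨a, ha, b, hb, hab⟩ := hn T hT
        have : Nontrivial T := by
          refine ⟨⟨a, ha⟩, 1, fun h => ?_⟩
          have h1 : a = 1 := congrArg Subtype.val h
          rw [h1] at hab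
          simp at hab
        exact Finite.one_lt_card
      have hQ0 : 0 < Nat.card Q'' := Nat.card_pos
      have h2k : 2 ^ k ≤ 4 * 2 ^ s''.card := by
        calc 2 ^ k ≤ 2 ^ (s''.card + 2) := Nat.pow_le_pow_right (by norm_num) hcard3
          _ = 4 * 2 ^ s''.card := by rw [pow_add]; ring
      have hfin : 2 ^ k * Nat.card B₁ ^ 2 * Nat.card Q'' ^ 2 ≤
          (Nat.card T * Nat.card Q) ^ 2 * Nat.card Q'' ^ 2 := by
        calc 2 ^ k * Nat.card B₁ ^ 2 * Nat.card Q'' ^ 2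
            = 2 ^ k * (Nat.card B₁ * Nat.card Q'') ^ 2 := by ring
          _ ≤ 2 ^ k * (Nat.card Q * Nat.card (B₁ ⊓ Q'' : Subgroup Γ)) ^ 2 := by gcongr
          _ ≤ 4 * 2 ^ s''.card * (Nat.card Q * Nat.card (B₁ ⊓ Q'' : Subgroup Γ)) ^ 2 := by gcongr
          _ = 4 * Nat.card Q ^ 2 * (2 ^ s''.card * Nat.card (B₁ ⊓ Q'' : Subgroup Γ) ^ 2) := by ring
          _ ≤ 4 * Nat.card Q ^ 2 * Nat.card Q'' ^ 2 := by gcongr
          _ = (2 * Nat.card Q) ^ 2 * Nat.card Q'' ^ 2 := by ring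
          _ ≤ (Nat.card T * Nat.card Q) ^ 2 * Nat.card Q'' ^ 2 := by gcongr
      exact Nat.le_of_mul_le_mul_right hfin (by positivity)
    · have hlt : 2 * Nat.card R ≤ Nat.card T := by
        obtain ⟨m, hm⟩ := Subgroup.card_dvd_of_le hRT
        have hm0 : m ≠ 0 := by
          rintro rfl
          have : 0 < Nat.card T := Nat.card_pos
          omega
        have hm1 : m ≠ 1 := by
          rintro rfl
          apply hRe
          apply Subgroup.eq_of_le_of_card_ge hRT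
          rw [hm, mul_one]
        rw [hm, mul_comm 2]
        exact Nat.mul_le_mul_left _ (by omega)
      have hih := ih s'.card (by omega) s'
        (fun A hA A' hA' => hc A (hsub A hA).1 A' (hsub A' hA').1)
        (fun A hA => hs A (hsub A hA).1) (fun A hA => hn A (hsub A hA).1)
        B (fun A hA => hB A (hsub A hA).1) rfl
      rw [← hQ] at hih
      rw [hRcard, ← hcard, pow_succ]
      calc 2 ^ s'.card * 2 * (Nat.card R * Nat.card (B ⊓ Q : Subgroup Γ)) ^ 2
          ≤ 2 ^ s'.card * 4 * (Nat.card R * Nat.card (B ⊓ Q : Subgroup Γ)) ^ 2 := by gcongr; norm_num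
        _ = (2 * Nat.card R) ^ 2 * (2 ^ s'.card * Nat.card (B ⊓ Q : Subgroup Γ) ^ 2) := by ring
        _ ≤ Nat.card T ^ 2 * Nat.card Q ^ 2 := by gcongr
        _ = (Nat.card T * Nat.card Q) ^ 2 := by ring

end Pool.Agent.Lib.MP_7ab245_nt.Solv.GY
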