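import Pool.Agent.Lib.MP_7ab245_nt.Solv.GY.Y01
import Pool.Agent.Lib.MP_7ab245_nt.Solv.GY.Y04

/-! GY-Y05: a line is moved by at most `2 log₂ n` members of `Comp`.
PROOF.  `y = ρ x w`, `n = osz ρ w`.  `B = (H1 ρ y).map φ`.  Its index is at most the index of `H1 ρ y`, which is at most the size of the orbit of `y` (`H1` contains the stabiliser of `y`,
whose index is the size of the orbit `{ρ g y} = {ρ g w}`).  A mover `T` is not in `B`: let `φ g ∈ T`, `ρ g y ≠ ± y`; if `φ g = φ h` with `h ∈ H1 ρ y`, then `g = h ν`, `φ ν = 1`, so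
`ρ ν y = ρ (ν * x) w = ± ρ x w = ± y` (`IsQ`) and `ρ g y = ± y`, contradiction.  The movers are finitely many; apply `index_lemma` to the finset of all movers (`comp_comm`, `comp_simp`) and `B`:
`2^k |B ⊓ Q|² ≤ |Q|²`, and `|Q| / |B ⊓ Q| ≤ [Γ : B] ≤ n` (`Subgroup.relIndex_le_index` or so). -/

set_option autoImplicit false

namespace Pool.Agent.Lib.MP_7ab245_nt.Solv.GY

open SX

theorem movers_le {G Γ W : Type*} [Group G] [Finite G] [Group Γ] [AddCommGroup W] [Module ℚ W]
    (ρ : Representation ℚ G W) (w : W) (φ : G →* Γ) (hφ : IsQ ρ w φ) (hna : AllNA Γ) (x : G) :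
    2 ^ (movers ρ φ (ρ x w)).ncard ≤ osz ρ w ^ 2 := by
  classical
  have : Finite Γ := Finite.of_surjective φ hφ.1
  set y := ρ x w with hy
  set B : Subgroup Γ := (H1 ρ y).map φ with hB
  have hmul : ∀ (a b : G) (v : W), ρ (a * b) v = ρ a (ρ b v) := by
    intro a b v
    rw [map_mul, Module.End.mul_apply]
  -- the index of `H1`
  have hrange : Set.range (fun g : G => ρ g y) = Set.range (fun g : G => ρ g w) := by
    ext v
    constructor
    · rintro ⟨g, rfl⟩
      refine ⟨g * x, ?_⟩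
      show ρ (g * x) w = ρ g y
      rw [hmul]
    · rintro ⟨g, rfl⟩
      refine ⟨g * x⁻¹, ?_⟩
      show ρ (g * x⁻¹) y = ρ g w
      rw [hy, ← hmul, inv_mul_cancel_right]
  have hidx1 : (H1 ρ y).index ≤ osz ρ w := by
    unfold osz
    rw [← hrange, Subgroup.index_eq_card]
    let F : Set.range (fun g : G => ρ g y) → G ⧸ (H1 ρ y) := fun p =>
      ((Classical.choose p.2 : G) : G ⧸ (H1 ρ y))
    refine Nat.card_le_card_of_surjective F ?_
    intro q
    induction q using QuotientGroup.induction_on with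
    | H g =>
      refine ⟨⟨ρ g y, ⟨g, rfl⟩⟩, ?_⟩
      have hspec : ρ (Classical.choose (⟨g, rfl⟩ : ∃ g', (fun g : G => ρ g y) g' = ρ g y)) y =
          ρ g y := Classical.choose_spec (⟨g, rfl⟩ : ∃ g', (fun g : G => ρ g y) g' = ρ g y)
      show ((Classical.choose (⟨g, rfl⟩ : ∃ g', (fun g : G => ρ g y) g' = ρ g y) : G) :
        G ⧸ (H1 ρ y)) = (g : G ⧸ (H1 ρ y))
      generalize Classical.choose (⟨g, rfl⟩ : ∃ g', (fun g : G => ρ g y) g' = ρ g y) = c at hspec ⊢
      rw [QuotientGroup.eq]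
      left
      rw [hmul, ← hspec, ← hmul, inv_mul_cancel, map_one, Module.End.one_apply]
  have hidx0 : (H1 ρ y).index ≠ 0 := Subgroup.index_ne_zero_of_finite
  have hidx : B.index ≤ osz ρ w :=
    le_trans (Nat.le_of_dvd (Nat.pos_of_ne_zero hidx0) (Subgroup.index_map_dvd _ hφ.1)) hidx1
  -- movers are not in `B`
  have hnotB : ∀ T ∈ movers ρ φ y, ¬ T ≤ B := by
    intro T hT hTB
    obtain ⟨_, g, hg, hg1, hg2⟩ := hT
    obtain ⟨h, hh, hhg⟩ := Subgroup.mem_map.mp (hTB hg)
    have hν : φ (h⁻¹ * g) = 1 := by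
      rw [map_mul, map_inv, hhg, inv_mul_cancel]
    have h1 := (hφ.2 _).mp hν x
    have h2 : ρ g y = ρ h (ρ (h⁻¹ * g * x) w) := by
      rw [hy, ← hmul, ← hmul]
      congr 2
      group
    have hh' : ρ h y = y ∨ ρ h y = -y := hh
    rcases h1 with h1 | h1
    · rw [h1, ← hy] at h2
      rcases hh' with h3 | h3
      · exact hg1 (h2.trans h3)
      · exact hg2 (h2.trans h3)
    · rw [h1, map_neg, ← hy] at h2
      rcases hh' with h3 | h3
      · rw [h3] at h2
        exact hg2 h2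
      · rw [h3, neg_neg] at h2
        exact hg1 h2
  set s : Finset (Subgroup Γ) := (Set.toFinite (movers ρ φ y)).toFinset with hs
  have hmem : ∀ T, T ∈ s ↔ T ∈ movers ρ φ y := fun T => Set.Finite.mem_toFinset _
  have hcard : (movers ρ φ y).ncard = s.card := Set.ncard_eq_toFinset_card _ _
  rw [hcard]
  have h1 := index_lemma s
    (fun T hT T' hT' hne => comp_comm ((hmem T).mp hT).1 ((hmem T').mp hT').1 hne)
    (fun T hT => comp_simp ((hmem T).mp hT).1)
    (fun T hT => hna T ((hmem T).mp hT).1) B (fun T hT => hnotB T ((hmem T).mp hT))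
  set Q := s.sup id with hQ
  have h2 : Nat.card Q ≤ Nat.card (B ⊓ Q : Subgroup Γ) * osz ρ w := by
    have h3 := Subgroup.relIndex_mul_relIndex (⊥ : Subgroup Γ) (B ⊓ Q) Q bot_le inf_le_right
    rw [Subgroup.relIndex_bot_left, Subgroup.relIndex_bot_left, Subgroup.inf_relIndex_right] at h3
    rw [← h3]
    refine Nat.mul_le_mul_left _ ?_
    have h4 : B.relIndex ⊤ ≠ 0 := by
      rw [Subgroup.relIndex_top_right]
      exact Subgroup.index_ne_zero_of_finite
    have h5 := Subgroup.relIndex_le_of_le_right (H := B) (K := Q) (L := ⊤) le_top h4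
    rw [Subgroup.relIndex_top_right] at h5
    exact le_trans h5 hidx
  have hb : 0 < Nat.card (B ⊓ Q : Subgroup Γ) := Nat.card_pos
  have h3 : 2 ^ s.card * Nat.card (B ⊓ Q : Subgroup Γ) ^ 2 ≤
      osz ρ w ^ 2 * Nat.card (B ⊓ Q : Subgroup Γ) ^ 2 := by
    calc _ ≤ Nat.card Q ^ 2 := h1
      _ ≤ (Nat.card (B ⊓ Q : Subgroup Γ) * osz ρ w) ^ 2 := Nat.pow_le_pow_left h2 2
      _ = _ := by ring
  exact Nat.le_of_mul_le_mul_right h3 (pow_pos hb 2)

end Pool.Agent.Lib.MP_7ab245_nt.Solv.GY
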