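import Pool.Agent.Lib.MP_7ab245_nt.Solv.GY.Defs

/-! GY-Y06: transport by group elements, and a counting lemma.
PROOF.  `φ (x * u * x⁻¹) ∈ cj (φ x) T ↔ φ u ∈ T` and `ρ (x * u * x⁻¹) (ρ x y) = ρ x (ρ u y)`; `ρ x` is injective.
`card_range_prod_le`: the set of pairs is the union over `a ∈ range f` of `{a} × {F j : f j = a}`. -/

set_option autoImplicit false

namespace Pool.Agent.Lib.MP_7ab245_nt.Solv.GY

open SX

private theorem y06_inj {G W : Type*} [Group G] [AddCommGroup W] [Module ℚ W]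
    (ρ : Representation ℚ G W) (x : G) : Function.Injective (fun v => ρ x v) := by
  intro a b h
  have h1 := congrArg (fun v => ρ x⁻¹ v) h
  simpa [← Module.End.mul_apply, ← map_mul] using h1

private theorem y06_conj {G W : Type*} [Group G] [AddCommGroup W] [Module ℚ W]
    (ρ : Representation ℚ G W) (x u : G) (y : W) :
    ρ (x * u * x⁻¹) (ρ x y) = ρ x (ρ u y) := by
  simp [← Module.End.mul_apply, ← map_mul]

theorem mv_cj {G Γ W : Type*} [Group G] [Group Γ] [AddCommGroup W] [Module ℚ W]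
    (ρ : Representation ℚ G W) (φ : G →* Γ) (T : Subgroup Γ) (x : G) (y : W) :
    Mv ρ φ (cj (φ x) T) (ρ x y) ↔ Mv ρ φ T y := by
  constructor
  · rintro ⟨g, hg, h1, h2⟩
    have hg' := mem_cj'.1 hg
    have e : g = x * (x⁻¹ * g * x) * x⁻¹ := by group
    refine ⟨x⁻¹ * g * x, by simpa using hg', ?_, ?_⟩
    · intro h
      apply h1
      rw [e, y06_conj, h]
    · intro h
      apply h2
      rw [e, y06_conj, h, map_neg]
  · rintro ⟨u, hu, h1, h2⟩
    refine ⟨x * u * x⁻¹, ?_, ?_, ?_⟩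
    · rw [mem_cj]
      exact ⟨φ u, hu, by simp⟩
    · intro h
      apply h1
      rw [y06_conj] at h
      exact y06_inj ρ x h
    · intro h
      apply h2
      rw [y06_conj, ← map_neg] at h
      exact y06_inj ρ x h

theorem orb_cj {G Γ W : Type*} [Group G] [Group Γ] [AddCommGroup W] [Module ℚ W]
    (ρ : Representation ℚ G W) (φ : G →* Γ) (T : Subgroup Γ) (x : G) (y : W) :
    orb ρ φ (cj (φ x) T) (ρ x y) = (fun v => ρ x v) '' orb ρ φ T y := by
  ext v
  constructor
  · rintro ⟨g, hg, rfl⟩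
    have hg' := mem_cj'.1 hg
    have e : g = x * (x⁻¹ * g * x) * x⁻¹ := by group
    refine ⟨ρ (x⁻¹ * g * x) y, ⟨x⁻¹ * g * x, by simpa using hg', rfl⟩, ?_⟩
    show ρ x (ρ (x⁻¹ * g * x) y) = ρ g (ρ x y)
    conv_rhs => rw [e]
    rw [y06_conj]
  · rintro ⟨_, ⟨u, hu, rfl⟩, rfl⟩
    refine ⟨x * u * x⁻¹, ?_, ?_⟩
    · show φ (x * u * x⁻¹) ∈ cj (φ x) T
      rw [mem_cj]
      exact ⟨φ u, hu, by simp⟩
    · show ρ (x * u * x⁻¹) (ρ x y) = ρ x (ρ u y)
      rw [y06_conj]

theorem card_orb_cj {G Γ W : Type*} [Group G] [Finite G] [Group Γ] [AddCommGroup W] [Module ℚ W]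
    (ρ : Representation ℚ G W) (φ : G →* Γ) (T : Subgroup Γ) (x : G) (y : W) :
    Nat.card (orb ρ φ (cj (φ x) T) (ρ x y)) = Nat.card (orb ρ φ T y) := by
  rw [orb_cj]
  exact Nat.card_image_of_injective (y06_inj ρ x) _

theorem card_range_prod_le {ι A B : Type*} [Finite ι] (f : ι → A) (F : ι → B) (c : ℕ)
    (h : ∀ i, {b | ∃ j, f j = f i ∧ F j = b}.ncard ≤ c) :
    Nat.card (Set.range fun i => (f i, F i)) ≤ Nat.card (Set.range f) * c := by
  classical
  have := Fintype.ofFinite ι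
  let s : Finset (A × B) := Finset.univ.image fun i => (f i, F i)
  have hs : Set.range (fun i => (f i, F i)) = (s : Set (A × B)) := by
    ext x; simp [s]
  have hf : Set.range f = ((s.image Prod.fst : Finset A) : Set A) := by
    ext x; simp [s]
  rw [hs, hf, Nat.card_coe_set_eq, Nat.card_coe_set_eq, Set.ncard_coe_finset,
    Set.ncard_coe_finset, mul_comm]
  refine Finset.card_le_mul_card_image s c fun a ha => ?_
  obtain ⟨x, hx, hxa⟩ := Finset.mem_image.1 ha
  obtain ⟨i, -, hi⟩ := Finset.mem_image.1 hx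
  have hai : a = f i := by rw [← hxa, ← hi]
  refine le_trans ?_ (h i)
  have hfin : {b | ∃ j, f j = f i ∧ F j = b}.Finite :=
    (Set.finite_range F).subset (by rintro b ⟨j, -, rfl⟩; exact ⟨j, rfl⟩)
  rw [Set.ncard_eq_toFinset_card _ hfin]
  refine Finset.card_le_card_of_injOn Prod.snd ?_ ?_
  · intro y hy
    rw [Finset.mem_coe, Finset.mem_filter] at hy
    obtain ⟨j, -, hj⟩ := Finset.mem_image.1 hy.1
    rw [Finset.mem_coe, hfin.mem_toFinset]
    refine ⟨j, ?_, ?_⟩
    · rw [← hai, ← hy.2, ← hj]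
    · rw [← hj]
  · intro y hy z hz hyz
    rw [Finset.mem_coe, Finset.mem_filter] at hy hz
    exact Prod.ext (hy.2.trans hz.2.symm) hyz

/-- a function of the first coordinate does not increase the range -/
theorem card_range_comp_le {ι A B : Type*} [Finite ι] (f : ι → A) (F : ι → B)
    (h : ∀ i j, f i = f j → F i = F j) : Nat.card (Set.range F) ≤ Nat.card (Set.range f) := by
  classical
  have hfin : Finite (Set.range f) := (Set.finite_range f).to_subtype
  let g : Set.range f → Set.range F := fun a => ⟨F a.2.choose, ⟨a.2.choose, rfl⟩⟩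
  refine Nat.card_le_card_of_surjective g ?_
  rintro ⟨_, ⟨i, rfl⟩⟩
  refine ⟨⟨f i, ⟨i, rfl⟩⟩, ?_⟩
  apply Subtype.ext
  show F (Exists.choose _) = F i
  exact h _ _ (Exists.choose_spec (⟨i, rfl⟩ : ∃ j, f j = f i))

end Pool.Agent.Lib.MP_7ab245_nt.Solv.GY
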