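import Pool.Agent.Lib.MP_7ab245_nt.Solv.GY.Y05
import Pool.Agent.Lib.MP_7ab245_nt.Solv.GY.Y06

/-! GY-Y07: the number of pairs `(x w, x a w)`, `a` in the preimage of a simple factor `T`.
PROOF.  `card_I_le`: `f x = ρ x w` has `osz ρ w` values, and for given `f x = y` the group `cj (φ x) T` is a mover of `y` (`mv_cj`, `comp_cj`), of which there are at most
`log₂ (n²)` (`movers_le`, `Nat.le_log_of_pow_le`..): `card_range_prod_le`.
`card_I2_le`: the same for two groups.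
`pair_le`: `f x = (ρ x w, cj (φ x) T)`, `F x = ρ (x * a) w = ρ (x a x⁻¹) (ρ x w) ∈ orb ρ φ (cj (φ x) T) (ρ x w)`, a set of `Nat.card (orb ρ φ T w)` elements (`card_orb_cj`); for `f j = f i` the
set is the same.  `tsz ρ w ![1, a]` is the number of tuples `![ρ (x * 1) w, ρ (x * a) w]`, a function of `(f x, F x)` (`card_range_comp_le`). -/

set_option autoImplicit false

namespace Pool.Agent.Lib.MP_7ab245_nt.Solv.GY

open SX

variable {G Γ W : Type*} [Group G] [Finite G] [Group Γ] [AddCommGroup W] [Module ℚ W]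
    (ρ : Representation ℚ G W) (w : W) (φ : G →* Γ)

private theorem y07_movers (hφ : IsQ ρ w φ) (hna : AllNA Γ) {T : Subgroup Γ} (hT : Comp T)
    (hm : Mv ρ φ T w) (i : G) (S : Set (Subgroup Γ))
    (hS : ∀ b ∈ S, ∃ j : G, ρ j w = ρ i w ∧ cj (φ j) T = b) :
    S.ncard ≤ Nat.log 2 (osz ρ w ^ 2) := by
  have hΓ : Finite Γ := Finite.of_surjective φ hφ.1
  have hsub : S ⊆ movers ρ φ (ρ i w) := by
    intro b hb
    obtain ⟨j, hj, rfl⟩ := hS b hb
    refine ⟨comp_cj hT _, ?_⟩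
    rw [← hj]
    exact (mv_cj ρ φ T j w).2 hm
  refine (Set.ncard_le_ncard hsub (Set.toFinite _)).trans ?_
  exact Nat.le_log_of_pow_le (by norm_num) (movers_le ρ w φ hφ hna i)

theorem card_I_le (hφ : IsQ ρ w φ) (hna : AllNA Γ) {T : Subgroup Γ} (hT : Comp T)
    (hm : Mv ρ φ T w) :
    Nat.card (Set.range fun x : G => (ρ x w, cj (φ x) T)) ≤
      osz ρ w * Nat.log 2 (osz ρ w ^ 2) := by
  refine card_range_prod_le (fun x : G => ρ x w) (fun x => cj (φ x) T) _ ?_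
  intro i
  exact y07_movers ρ w φ hφ hna hT hm i _ (fun b hb => hb)

theorem card_I2_le (hφ : IsQ ρ w φ) (hna : AllNA Γ) {T T' : Subgroup Γ} (hT : Comp T)
    (hT' : Comp T') (hm : Mv ρ φ T w) (hm' : Mv ρ φ T' w) :
    Nat.card (Set.range fun x : G => ((ρ x w, cj (φ x) T), cj (φ x) T')) ≤
      osz ρ w * Nat.log 2 (osz ρ w ^ 2) * Nat.log 2 (osz ρ w ^ 2) := by
  refine (card_range_prod_le (fun x : G => (ρ x w, cj (φ x) T)) (fun x => cj (φ x) T')
    (Nat.log 2 (osz ρ w ^ 2)) ?_).trans (Nat.mul_le_mul_right _ (card_I_le ρ w φ hφ hna hT hm))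
  intro i
  refine y07_movers ρ w φ hφ hna hT' hm' i _ ?_
  rintro b ⟨j, hj, hb⟩
  exact ⟨j, (Prod.ext_iff.1 hj).1, hb⟩

theorem pair_le (hφ : IsQ ρ w φ) (hna : AllNA Γ) {T : Subgroup Γ} (hT : Comp T)
    (hm : Mv ρ φ T w) (a : G) (ha : φ a ∈ T) :
    tsz ρ w ![1, a] ≤ osz ρ w * Nat.log 2 (osz ρ w ^ 2) * Nat.card (orb ρ φ T w) := by
  have h1 : tsz ρ w ![1, a] ≤
      Nat.card (Set.range fun x : G => ((ρ x w, cj (φ x) T), ρ (x * a) w)) := by
    refine card_range_comp_le (fun x : G => ((ρ x w, cj (φ x) T), ρ (x * a) w))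
      (fun x => fun i => ρ (x * ![1, a] i) w) ?_
    intro i j hij
    have e1 : ρ i w = ρ j w := (Prod.ext_iff.1 (Prod.ext_iff.1 hij).1).1
    have e2 : ρ (i * a) w = ρ (j * a) w := (Prod.ext_iff.1 hij).2
    funext l
    fin_cases l
    · change ρ (i * 1) w = ρ (j * 1) w
      rw [mul_one, mul_one, e1]
    · exact e2
  refine h1.trans ((card_range_prod_le (fun x : G => (ρ x w, cj (φ x) T))
    (fun x => ρ (x * a) w) (Nat.card (orb ρ φ T w)) ?_).trans
      (Nat.mul_le_mul_right _ (card_I_le ρ w φ hφ hna hT hm)))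
  intro i
  rw [← card_orb_cj ρ φ T i w, Nat.card_coe_set_eq]
  refine Set.ncard_le_ncard ?_ ((Set.toFinite _).image _)
  rintro b ⟨j, hj, rfl⟩
  have e1 : ρ j w = ρ i w := (Prod.ext_iff.1 hj).1
  have e2 : cj (φ j) T = cj (φ i) T := (Prod.ext_iff.1 hj).2
  refine ⟨j * a * j⁻¹, ?_, ?_⟩
  · change φ (j * a * j⁻¹) ∈ cj (φ i) T
    rw [← e2, mem_cj]
    exact ⟨φ a, ha, by rw [map_mul, map_mul, map_inv]⟩
  · change ρ (j * a * j⁻¹) (ρ i w) = ρ (j * a) w
    rw [← e1, ← Module.End.mul_apply, ← map_mul]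
    congr 2
    group

end Pool.Agent.Lib.MP_7ab245_nt.Solv.GY
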