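import Pool.Agent.Lib.MP_7ab245_nt.Solv.GY.Y07

/-! GY-Y08: the product trick.
PROOF.  Let `n = osz ρ w`, `L = log₂ n²`.  `f x = ((ρ x w, cj (φ x) T), cj (φ x) T')` has at most `n L²` values (`card_I2_le`); adding `ρ (x * a) w` and `ρ (x * b) w` (each one of the `n` vectors of the
orbit) gives at most `n³ L²` values of `g x = (f x, ρ (x * a) w, ρ (x * b) w)`.  CLAIM: if `g x = g x'` then `ρ (x' * (a * b)) w = ± ρ (x * (a * b)) w`; so there are at most 2 values of the fourth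
vector for given `g x` (`card_range_prod_le` with `c = 2`), in total `2 n³ L²`.
Proof of the claim.  `y = ρ x w = ρ x' w`, `a₁ = x a x⁻¹`, `b₁ = x b x⁻¹`, `a₂ = x' a x'⁻¹`, `b₂ = x' b x'⁻¹`.  `φ a₁, φ a₂ ∈ cj (φ x) T = cj (φ x') T`, `φ b₁, φ b₂ ∈ cj (φ x) T'`; `ρ a₁ y = ρ a₂ y`,
`ρ b₁ y = ρ b₂ y`.  `d = a₁⁻¹ a₂`: `φ d ∈ cj (φ x) T`, `ρ d y = y`.  `φ d` and `φ b₁` commute, so `d b₁ = b₁ d ν`, `φ ν = 1`, and `ρ ν y = ± y` (`IsQ`, `y = ρ x w`).  So
`ρ (x' a b) w = ρ (a₂ b₂) y = ρ a₂ (ρ b₂ y) = ρ a₂ (ρ b₁ y) = ρ a₁ (ρ (d b₁) y) = ρ a₁ (ρ b₁ (ρ d (ρ ν y))) = ± ρ a₁ (ρ b₁ y) = ± ρ (x a b) w`. -/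

set_option autoImplicit false

namespace Pool.Agent.Lib.MP_7ab245_nt.Solv.GY

open SX

private theorem quad_claim {G Γ W : Type*} [Group G] [Group Γ] [AddCommGroup W] [Module ℚ W]
    (ρ : Representation ℚ G W) (w : W) (φ : G →* Γ) (hφ : IsQ ρ w φ)
    {T T' : Subgroup Γ} (hT : Comp T) (hT' : Comp T') (hTT : T ≠ T') (a b : G) (ha : φ a ∈ T)
    (hb : φ b ∈ T') (x x' : G) (h1 : ρ x w = ρ x' w) (h2 : cj (φ x) T = cj (φ x') T)
    (h4 : ρ (x * a) w = ρ (x' * a) w)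
    (h5 : ρ (x * b) w = ρ (x' * b) w) :
    ρ (x' * (a * b)) w = ρ (x * (a * b)) w ∨ ρ (x' * (a * b)) w = -ρ (x * (a * b)) w := by
  have hmul : ∀ (g h : G) (v : W), ρ g (ρ h v) = ρ (g * h) v := by
    intro g h v
    rw [map_mul, Module.End.mul_apply]
  set d : G := (x * a * x⁻¹)⁻¹ * (x' * a * x'⁻¹) with hd
  set b₁ : G := x * b * x⁻¹ with hb₁
  -- `ρ d y = y`
  have hdy : ρ d (ρ x w) = ρ x w := by
    have e1 : ρ (x' * a * x'⁻¹) (ρ x w) = ρ (x' * a) w := by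
      rw [h1, hmul]
      congr 2
      group
    have e2 : ρ (x * a * x⁻¹)⁻¹ (ρ (x * a) w) = ρ x w := by
      rw [hmul]
      congr 2
      group
    rw [hd, ← hmul, e1, ← h4, e2]
  -- membership
  have hφd : φ d ∈ cj (φ x) T := by
    have e1 : φ (x * a * x⁻¹) ∈ cj (φ x) T := by
      rw [map_mul, map_mul, map_inv]
      exact mem_cj.2 ⟨φ a, ha, rfl⟩
    have e2 : φ (x' * a * x'⁻¹) ∈ cj (φ x) T := by
      rw [h2, map_mul, map_mul, map_inv]
      exact mem_cj.2 ⟨φ a, ha, rfl⟩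
    rw [hd, map_mul, map_inv]
    exact (cj (φ x) T).mul_mem ((cj (φ x) T).inv_mem e1) e2
  have hφb : φ b₁ ∈ cj (φ x) T' := by
    rw [hb₁, map_mul, map_mul, map_inv]
    exact mem_cj.2 ⟨φ b, hb, rfl⟩
  have hne : cj (φ x) T ≠ cj (φ x) T' := by
    intro h
    apply hTT
    have h6 := congrArg (cj (φ x)⁻¹) h
    rwa [← cj_mul, ← cj_mul, inv_mul_cancel, cj_one, cj_one] at h6
  have hcomm : φ d * φ b₁ = φ b₁ * φ d :=
    comp_comm (comp_cj hT (φ x)) (comp_cj hT' (φ x)) hne _ hφd _ hφb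
  set ν : G := (b₁ * d)⁻¹ * (d * b₁) with hν
  have hφν : φ ν = 1 := by
    rw [hν, map_mul, map_inv, map_mul φ b₁ d, map_mul φ d b₁, hcomm, inv_mul_cancel]
  have hνy : ρ ν (ρ x w) = ρ x w ∨ ρ ν (ρ x w) = -ρ x w := by
    have := (hφ.2 ν).1 hφν x
    rwa [← hmul] at this
  -- the values
  have e3 : ρ (x' * (a * b)) w = ρ (x * a * x⁻¹) (ρ (b₁ * d) (ρ ν (ρ x w))) := by
    have e4 : ρ (x' * (a * b)) w = ρ (x' * a * x'⁻¹) (ρ (x' * b) w) := by
      rw [hmul]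
      congr 2
      group
    rw [e4, ← h5, hmul, hmul, hmul, hmul]
    congr 2
    rw [hν, hd, hb₁]
    group
  have e5 : ρ (b₁ * d) (ρ x w) = ρ (x * b) w := by
    rw [← hmul, hdy, hmul]
    congr 2
    rw [hb₁]
    group
  have e6 : ρ (x * a * x⁻¹) (ρ (x * b) w) = ρ (x * (a * b)) w := by
    rw [hmul]
    congr 2
    group
  rw [e3]
  rcases hνy with h7 | h7
  · left
    rw [h7, e5, e6]
  · right
    rw [h7, map_neg, e5, map_neg, e6]

theorem quad_le {G Γ W : Type*} [Group G] [Finite G] [Group Γ] [AddCommGroup W] [Module ℚ W]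
    (ρ : Representation ℚ G W) (w : W) (φ : G →* Γ) (hφ : IsQ ρ w φ) (hna : AllNA Γ)
    {T T' : Subgroup Γ} (hT : Comp T) (hT' : Comp T') (hTT : T ≠ T') (hm : Mv ρ φ T w)
    (hm' : Mv ρ φ T' w) (a b : G) (ha : φ a ∈ T) (hb : φ b ∈ T') :
    tsz ρ w ![1, a, b, a * b] ≤ 2 * osz ρ w ^ 3 * Nat.log 2 (osz ρ w ^ 2) ^ 2 := by
  classical
  set f : G → (W × Subgroup Γ) × Subgroup Γ := fun x => ((ρ x w, cj (φ x) T), cj (φ x) T') with hf
  set va : G → W := fun x => ρ (x * a) w with hva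
  set vb : G → W := fun x => ρ (x * b) w with hvb
  set vab : G → W := fun x => ρ (x * (a * b)) w with hvab
  have hfinO : (Set.range fun x : G => ρ x w).Finite := Set.finite_range _
  have hO : (Set.range fun x : G => ρ x w).ncard = osz ρ w := by
    rw [← Nat.card_coe_set_eq]
    rfl
  have c0 := card_I2_le ρ w φ hφ hna hT hT' hm hm'
  have c1 : Nat.card (Set.range fun x => (f x, va x)) ≤ Nat.card (Set.range f) * osz ρ w := by
    apply card_range_prod_le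
    intro i
    rw [← hO]
    apply Set.ncard_le_ncard _ hfinO
    rintro _ ⟨j, -, rfl⟩
    exact ⟨j * a, rfl⟩
  have c2 : Nat.card (Set.range fun x => ((f x, va x), vb x)) ≤
      Nat.card (Set.range fun x => (f x, va x)) * osz ρ w := by
    apply card_range_prod_le
    intro i
    rw [← hO]
    apply Set.ncard_le_ncard _ hfinO
    rintro _ ⟨j, -, rfl⟩
    exact ⟨j * b, rfl⟩
  have c3 : Nat.card (Set.range fun x => (((f x, va x), vb x), vab x)) ≤
      Nat.card (Set.range fun x => ((f x, va x), vb x)) * 2 := by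
    apply card_range_prod_le
    intro i
    have hsub : {v | ∃ j, ((f j, va j), vb j) = ((f i, va i), vb i) ∧ vab j = v} ⊆
        {vab i, -vab i} := by
      rintro _ ⟨j, hj, rfl⟩
      simp only [hf, hva, hvb, Prod.mk.injEq] at hj
      obtain ⟨⟨⟨⟨h1, h2⟩, h3⟩, h4⟩, h5⟩ := hj
      have := quad_claim ρ w φ hφ hT hT' hTT a b ha hb i j h1.symm h2.symm h4.symm h5.symm
      simpa [hvab] using this
    refine (Set.ncard_le_ncard hsub (Set.toFinite _)).trans ?_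
    have := Set.ncard_insert_le (vab i) ({-vab i} : Set W)
    rwa [Set.ncard_singleton] at this
  have c4 : tsz ρ w ![1, a, b, a * b] ≤
      Nat.card (Set.range fun x => (((f x, va x), vb x), vab x)) := by
    apply card_range_comp_le
    intro i j hij
    simp only [hf, hva, hvb, hvab, Prod.mk.injEq] at hij
    obtain ⟨⟨⟨⟨⟨h1, h2⟩, h3⟩, h4⟩, h5⟩, h6⟩ := hij
    funext k
    fin_cases k
    · simpa using h1
    · simpa using h4
    · simpa using h5
    · simpa using h6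
  set n := osz ρ w
  set L := Nat.log 2 (n ^ 2)
  calc tsz ρ w ![1, a, b, a * b]
      ≤ Nat.card (Set.range fun x => (((f x, va x), vb x), vab x)) := c4
    _ ≤ Nat.card (Set.range fun x => ((f x, va x), vb x)) * 2 := c3
    _ ≤ (Nat.card (Set.range fun x => (f x, va x)) * n) * 2 := by gcongr
    _ ≤ ((Nat.card (Set.range f) * n) * n) * 2 := by gcongr
    _ ≤ (((n * L * L) * n) * n) * 2 := by gcongr
    _ = 2 * n ^ 3 * L ^ 2 := by ring

end Pool.Agent.Lib.MP_7ab245_nt.Solv.GY
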