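import Mathlib

/-! GY-Y09: planes which meet pairwise.
PROOF.  If all `L i` are equal they are in the 2-dimensional space `L i₀`, contradiction to `h3` (`S = L i₀`; if `ι` is empty take `S = ⊥`).  So `L 1 ≠ L 2` for two indices; `ℓ = L 1 ⊓ L 2` has dimension 1, `S = L 1 ⊔ L 2` dimension 3.
By `h3` there is `L 3` not in `S`.  `L 3 ⊓ S` has dimension `≤ 1` (otherwise `L 3 ≤ S`) and contains the nonzero spaces `L 3 ⊓ L 1`, `L 3 ⊓ L 2`, so these two are equal to `L 3 ⊓ S`, which is therefore contained in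
`L 1 ⊓ L 2 = ℓ`, so equal to `ℓ`.  The same for every `L i` not in `S`: `ℓ ≤ L i`.  If `L i ≤ S`: `0 ≠ L i ⊓ L 3 ≤ S ⊓ L 3 = ℓ`, so `ℓ ≤ L i`.  Take `v` a generator of `ℓ`. -/

set_option autoImplicit false

namespace Pool.Agent.Lib.MP_7ab245_nt.Solv.GY

open Module

private theorem finrank_pos_of_ne_bot {V : Type*} [AddCommGroup V] [Module ℚ V] (A : Submodule ℚ V)
    [FiniteDimensional ℚ A] (h : A ≠ ⊥) : 1 ≤ finrank ℚ A := by
  rw [Nat.one_le_iff_ne_zero]
  intro h0
  exact h (Submodule.finrank_eq_zero.1 h0)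

theorem common_line {ι V : Type*} [AddCommGroup V] [Module ℚ V] (L : ι → Submodule ℚ V)
    (h2 : ∀ i, finrank ℚ (L i) = 2) (hm : ∀ i j, L i ⊓ L j ≠ ⊥)
    (h3 : ∀ S : Submodule ℚ V, FiniteDimensional ℚ S → finrank ℚ S ≤ 3 → ∃ i, ¬ L i ≤ S) :
    ∃ v : V, v ≠ 0 ∧ ∀ i, v ∈ L i := by
  have hfin : ∀ i, FiniteDimensional ℚ (L i) := fun i =>
    FiniteDimensional.of_finrank_pos (by rw [h2 i]; norm_num)
  have hinf : ∀ i (A : Submodule ℚ V), FiniteDimensional ℚ (L i ⊓ A : Submodule ℚ V) := fun i A => by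
    have := hfin i
    exact Submodule.finiteDimensional_of_le (inf_le_left : L i ⊓ A ≤ L i)
  obtain ⟨i1, _⟩ := h3 ⊥ inferInstance (by rw [finrank_bot]; norm_num)
  obtain ⟨i2, hi2⟩ := h3 (L i1) (hfin i1) (by rw [h2 i1]; norm_num)
  have f1 := hfin i1
  have f2 := hfin i2
  set ℓ := L i1 ⊓ L i2 with hℓ
  set S := L i1 ⊔ L i2 with hS
  have fℓ : FiniteDimensional ℚ ℓ := hinf i1 (L i2)
  have hℓ1 : finrank ℚ ℓ = 1 := by
    have h1 := finrank_pos_of_ne_bot ℓ (hm i1 i2)
    have h4 : finrank ℚ ℓ < finrank ℚ (L i2) := by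
      refine Submodule.finrank_lt_finrank_of_lt (lt_of_le_of_ne inf_le_right ?_)
      intro h
      apply hi2
      rw [← h]; exact inf_le_left
    rw [h2 i2] at h4
    omega
  have hS3 : finrank ℚ S = 3 := by
    have := Submodule.finrank_sup_add_finrank_inf_eq (L i1) (L i2)
    rw [← hS, ← hℓ, h2 i1, h2 i2] at this
    omega
  have fS : FiniteDimensional ℚ S := FiniteDimensional.of_finrank_pos (by rw [hS3]; norm_num)
  -- the members not contained in `S`
  have hA : ∀ i, ¬ L i ≤ S → L i ⊓ S = ℓ := by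
    intro i hi
    have fi := hfin i
    have fiS := hinf i S
    have fi1 := hinf i (L i1)
    have fi2 := hinf i (L i2)
    have h4 : finrank ℚ (L i ⊓ S : Submodule ℚ V) < finrank ℚ (L i) := by
      refine Submodule.finrank_lt_finrank_of_lt (lt_of_le_of_ne inf_le_left ?_)
      intro h
      apply hi
      rw [← h]; exact inf_le_right
    rw [h2 i] at h4
    have e1 : L i ⊓ L i1 = L i ⊓ S := by
      refine Submodule.eq_of_le_of_finrank_le (inf_le_inf_left _ le_sup_left) ?_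
      have := finrank_pos_of_ne_bot (L i ⊓ L i1) (hm i i1)
      omega
    have e2 : L i ⊓ L i2 = L i ⊓ S := by
      refine Submodule.eq_of_le_of_finrank_le (inf_le_inf_left _ le_sup_right) ?_
      have := finrank_pos_of_ne_bot (L i ⊓ L i2) (hm i i2)
      omega
    have e3 : L i ⊓ S ≤ ℓ := by
      refine le_inf ?_ ?_
      · rw [← e1]; exact inf_le_right
      · rw [← e2]; exact inf_le_right
    refine Submodule.eq_of_le_of_finrank_le e3 ?_
    rw [hℓ1, ← e1]
    exact finrank_pos_of_ne_bot (L i ⊓ L i1) (hm i i1)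
  obtain ⟨i3, hi3⟩ := h3 S fS (by rw [hS3])
  have hall : ∀ i, ℓ ≤ L i := by
    intro i
    by_cases hi : L i ≤ S
    · have fi3 := hinf i (L i3)
      have h5 : L i ⊓ L i3 ≤ ℓ := by
        rw [← hA i3 hi3]
        exact le_inf inf_le_right (inf_le_left.trans hi)
      have h6 : L i ⊓ L i3 = ℓ := by
        refine Submodule.eq_of_le_of_finrank_le h5 ?_
        rw [hℓ1]
        exact finrank_pos_of_ne_bot _ (hm i i3)
      rw [← h6]; exact inf_le_left
    · rw [← hA i hi]; exact inf_le_left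
  obtain ⟨v, hv, hv0⟩ := Submodule.exists_mem_ne_zero_of_ne_bot (hm i1 i2)
  exact ⟨v, hv0, fun i => hall i hv⟩

end Pool.Agent.Lib.MP_7ab245_nt.Solv.GY
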