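import Pool.Agent.Lib.MP_7ab245_nt.Solv.GY.Y09
import Pool.Agent.Lib.MP_7ab245_nt.Solv.GY.Defs

/-! GY-Y10: a line in `span (w, b w)` fixed by `T`.
PROOF.  `L = span {w, ρ b w}`, of dimension 2: `ρ b w = c w` would give `c ^ orderOf b = 1`, so `c = ± 1`, excluded (`w ≠ 0` as `ρ b w ≠ w`).  For `a` with `φ a ∈ T` the space `ρ a L` contains `ρ a w` and
`ρ (a * b) w`.  `hdep`: `w, ρ a w, ρ b w, ρ (a * b) w` are dependent, so `L ⊓ ρ a L ≠ ⊥` (a relation `(c₀ w + c₂ b w) + (c₁ a w + c₃ a b w) = 0`; both brackets are nonzero since `L`, `ρ a L` are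
planes).  The planes `ρ a L`, `φ a ∈ T`, meet pairwise (`ρ a L ⊓ ρ a' L = ρ a (L ⊓ ρ (a⁻¹ a') L)`).  They are not all in a space of dimension `≤ 3`: it would contain all `ρ a w`, whose span has dimension `≥ 4`.
By `common_line` the subspace `Λ = ⨅ ρ a L` is not `⊥`; it is mapped to itself by all `ρ a`, `φ a ∈ T`.  `Λ ≠ L` (otherwise all `ρ a w ∈ L`), so `Λ` is a line `ℚ v`, and `ρ a v = c v`, `c ^ orderOf a = 1`, `c = ± 1`.
`v = α w + β ρ b w`.  `β ≠ 0`: otherwise `ρ a w = ± w` for all `a` with `φ a ∈ T`, contradiction to `hm : Mv ρ φ T w`.  `α ≠ 0`: otherwise `ρ a (ρ b w) = ± ρ b w` for all these `a`: contradiction to `hmb`. -/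

set_option autoImplicit false

namespace Pool.Agent.Lib.MP_7ab245_nt.Solv.GY

open SX Module

private theorem rmul {G W : Type*} [Group G] [AddCommGroup W] [Module ℚ W]
    (ρ : Representation ℚ G W) (a b : G) (v : W) : ρ (a * b) v = ρ a (ρ b v) := by
  rw [map_mul]; rfl

private theorem rinj {G W : Type*} [Group G] [AddCommGroup W] [Module ℚ W]
    (ρ : Representation ℚ G W) (d : G) : Function.Injective (ρ d) := by
  intro u v huv
  have := congrArg (ρ d⁻¹) huv
  rw [← rmul, ← rmul, inv_mul_cancel, map_one] at this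
  simpa using this

/-- an eigenvalue of an element of finite order is `± 1` -/
private theorem eig {G W : Type*} [Group G] [Finite G] [AddCommGroup W] [Module ℚ W]
    (ρ : Representation ℚ G W) (a : G) (v : W) (hv : v ≠ 0) (c : ℚ) (h : ρ a v = c • v) :
    c = 1 ∨ c = -1 := by
  have h4 : ∀ k : ℕ, ρ (a ^ k) v = c ^ k • v := by
    intro k
    induction k with
    | zero => simp
    | succ k ih =>
      rw [pow_succ, rmul, h, map_smul, ih, smul_smul, pow_succ, mul_comm]
  have h5 := h4 (orderOf a)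
  rw [pow_orderOf_eq_one, map_one, Module.End.one_apply] at h5
  have h6 : (c ^ orderOf a - 1) • v = 0 := by
    rw [sub_smul, one_smul, ← h5, sub_self]
  have h7 : c ^ orderOf a = 1 := sub_eq_zero.1 ((smul_eq_zero.1 h6).resolve_right hv)
  have h8 : orderOf a ≠ 0 := (orderOf_pos a).ne'
  have h9 : |c| ^ orderOf a = 1 := by rw [← abs_pow, h7, abs_one]
  have h10 : |c| = 1 := (pow_eq_one_iff_of_nonneg (abs_nonneg c) h8).1 h9
  exact eq_or_eq_neg_of_abs_eq h10

theorem exists_line {G Γ W : Type*} [Group G] [Finite G] [Group Γ] [AddCommGroup W] [Module ℚ W]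
    (ρ : Representation ℚ G W) (w : W) (φ : G →* Γ) {T : Subgroup Γ}
    (hm : Mv ρ φ T w) (h4 : 4 ≤ finrank ℚ (spn ρ w φ T)) (b : G)
    (hb1 : ρ b w ≠ w) (hb2 : ρ b w ≠ -w) (hmb : Mv ρ φ T (ρ b w))
    (hdep : ∀ a, φ a ∈ T → ¬ LinearIndependent ℚ (fun i => ρ ((![1, a, b, a * b] : Fin 4 → G) i) w)) :
    ∃ α β : ℚ, α ≠ 0 ∧ β ≠ 0 ∧ α • w + β • ρ b w ≠ 0 ∧
      ∀ a, φ a ∈ T → ρ a (α • w + β • ρ b w) = α • w + β • ρ b w ∨
        ρ a (α • w + β • ρ b w) = -(α • w + β • ρ b w) := by
  have hw : w ≠ 0 := by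
    intro h; apply hb1; rw [h, map_zero]
  -- independence of `w` and `ρ b w`
  have hind : ∀ s t : ℚ, s • w + t • ρ b w = 0 → s = 0 ∧ t = 0 := by
    intro s t hst
    by_cases ht : t = 0
    · rw [ht, zero_smul, add_zero] at hst
      exact ⟨(smul_eq_zero.mp hst).resolve_right hw, ht⟩
    · exfalso
      have h3 : ρ b w = (-(s / t)) • w := by
        have h4 : t • ρ b w = (-s) • w := by
          rw [neg_smul, ← sub_eq_zero, sub_neg_eq_add, add_comm]
          exact hst
        have h5 : ρ b w = t⁻¹ • (t • ρ b w) := by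
          rw [smul_smul, inv_mul_cancel₀ ht, one_smul]
        rw [h5, h4, smul_smul]
        congr 1
        field_simp
      rcases eig ρ b w hw _ h3 with hc | hc
      · apply hb1; rw [h3, hc, one_smul]
      · apply hb2; rw [h3, hc, neg_smul, one_smul]
  have hli : LinearIndependent ℚ ![w, ρ b w] := LinearIndependent.pair_iff.2 hind
  let L : G → Submodule ℚ W := fun a => (Submodule.span ℚ (Set.range ![w, ρ b w])).map (ρ a)
  have hmem : ∀ a v, v ∈ L a ↔ ∃ s t : ℚ, ρ a (s • w + t • ρ b w) = v := by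
    intro a v
    change v ∈ (Submodule.span ℚ (Set.range ![w, ρ b w])).map (ρ a) ↔ _
    rw [Submodule.mem_map]
    constructor
    · rintro ⟨u, hu, rfl⟩
      have h1 : u ∈ Submodule.span ℚ ({w, ρ b w} : Set W) := by
        convert hu using 2
        simp [Matrix.range_cons, Set.pair_comm]
      obtain ⟨s, t, hst⟩ := Submodule.mem_span_pair.1 h1
      exact ⟨s, t, by rw [hst]⟩
    · rintro ⟨s, t, rfl⟩
      refine ⟨_, ?_, rfl⟩
      refine Submodule.add_mem _ (Submodule.smul_mem _ _ (Submodule.subset_span ⟨0, rfl⟩))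
        (Submodule.smul_mem _ _ (Submodule.subset_span ⟨1, rfl⟩))
  let I := {a : G // φ a ∈ T}
  have h2 : ∀ i : I, finrank ℚ (L i.1) = 2 := by
    intro i
    change finrank ℚ ((Submodule.span ℚ (Set.range ![w, ρ b w])).map (ρ i.1)) = 2
    rw [← (Submodule.equivMapOfInjective (ρ i.1) (rinj ρ i.1) _).finrank_eq,
      finrank_span_eq_card hli]
    rfl
  have hmeet0 : ∀ a, φ a ∈ T → ∃ v, v ≠ 0 ∧ v ∈ L 1 ∧ v ∈ L a := by
    intro a ha
    have h1 := hdep a ha
    rw [Fintype.not_linearIndependent_iff] at h1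
    obtain ⟨c, hc, i, hi⟩ := h1
    rw [Fin.sum_univ_four] at hc
    simp only [Matrix.cons_val_zero, Matrix.cons_val_one, Matrix.cons_val, map_one] at hc
    have hc' : (c 0 • w + c 2 • ρ b w) + ρ a (c 1 • w + c 3 • ρ b w) = 0 := by
      rw [map_add, map_smul, map_smul, ← rmul]
      rw [← hc]
      simp only [Module.End.one_apply]
      abel
    refine ⟨c 0 • w + c 2 • ρ b w, ?_, (hmem _ _).2 ⟨c 0, c 2, by rw [map_one]; rfl⟩,
      (hmem _ _).2 ⟨-c 1, -c 3, ?_⟩⟩
    · intro h0
      have h00 := hind _ _ h0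
      rw [h0, zero_add] at hc'
      have h01 : c 1 • w + c 3 • ρ b w = 0 := rinj ρ a (by rw [hc', map_zero])
      have h02 := hind _ _ h01
      fin_cases i
      · exact hi h00.1
      · exact hi h02.1
      · exact hi h00.2
      · exact hi h02.2
    · rw [neg_smul, neg_smul, ← neg_add, map_neg]
      exact (eq_neg_of_add_eq_zero_left hc').symm
  have hmeet : ∀ i j : I, L i.1 ⊓ L j.1 ≠ ⊥ := by
    intro i j h
    have hij : φ (i.1⁻¹ * j.1) ∈ T := by
      rw [map_mul, map_inv]
      exact T.mul_mem (T.inv_mem i.2) j.2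
    obtain ⟨v, hv0, hv1, hv2⟩ := hmeet0 _ hij
    have h1 : ρ i.1 v ∈ L i.1 ⊓ L j.1 := by
      constructor
      · obtain ⟨s, t, hst⟩ := (hmem _ _).1 hv1
        rw [map_one] at hst
        exact (hmem _ _).2 ⟨s, t, by rw [← hst]; rfl⟩
      · obtain ⟨s, t, hst⟩ := (hmem _ _).1 hv2
        refine (hmem _ _).2 ⟨s, t, ?_⟩
        rw [← hst, ← rmul]
        congr 2
        group
    rw [h, Submodule.mem_bot] at h1
    exact hv0 (rinj ρ i.1 (by rw [h1, map_zero]))
  have h3 : ∀ S : Submodule ℚ W, FiniteDimensional ℚ S → finrank ℚ S ≤ 3 → ∃ i : I, ¬ L i.1 ≤ S := by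
    intro S hS hS3
    by_contra hcon
    push Not at hcon
    have h1 : spn ρ w φ T ≤ S := by
      rw [spn, Submodule.span_le]
      rintro _ ⟨a, ha, rfl⟩
      refine hcon ⟨a, ha⟩ ((hmem _ _).2 ⟨1, 0, ?_⟩)
      simp
    have := Submodule.finrank_mono h1
    omega
  obtain ⟨v, hv0, hv⟩ := common_line (fun i : I => L i.1) h2 hmeet h3
  have hv1 : ∀ a, φ a ∈ T → ∀ c, φ c ∈ T → ρ a v ∈ L c := by
    intro a ha c hc
    have hac : φ (a⁻¹ * c) ∈ T := by
      rw [map_mul, map_inv]
      exact T.mul_mem (T.inv_mem ha) hc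
    obtain ⟨s, t, hst⟩ := (hmem _ _).1 (hv ⟨_, hac⟩)
    refine (hmem _ _).2 ⟨s, t, ?_⟩
    rw [← hst, ← rmul]
    congr 2
    group
  have hone : φ (1 : G) ∈ T := by rw [map_one]; exact T.one_mem
  have hfd : ∀ a : G, FiniteDimensional ℚ (L a) := by
    intro a
    change FiniteDimensional ℚ ((Submodule.span ℚ (Set.range ![w, ρ b w])).map (ρ a))
    have : FiniteDimensional ℚ (Submodule.span ℚ (Set.range ![w, ρ b w])) :=
      FiniteDimensional.span_of_finite ℚ (Set.finite_range _)
    infer_instance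
  have hv2 : ∀ a, φ a ∈ T → ∃ c : ℚ, ρ a v = c • v := by
    intro a ha
    by_contra hcon
    push Not at hcon
    have hli2 : LinearIndependent ℚ ![v, ρ a v] := by
      rw [LinearIndependent.pair_iff]
      intro s t hst
      by_cases ht : t = 0
      · rw [ht, zero_smul, add_zero] at hst
        exact ⟨(smul_eq_zero.mp hst).resolve_right hv0, ht⟩
      · exfalso
        apply hcon (-(s / t))
        have h4 : t • ρ a v = (-s) • v := by
          rw [neg_smul, ← sub_eq_zero, sub_neg_eq_add, add_comm]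
          exact hst
        have h5 : ρ a v = t⁻¹ • (t • ρ a v) := by
          rw [smul_smul, inv_mul_cancel₀ ht, one_smul]
        rw [h5, h4, smul_smul]
        congr 1
        field_simp
    have hspan : ∀ c, φ c ∈ T → Submodule.span ℚ (Set.range ![v, ρ a v]) = L c := by
      intro c hc
      have : FiniteDimensional ℚ (L c) := hfd c
      apply Submodule.eq_of_le_of_finrank_eq
      · rw [Submodule.span_le]
        rintro _ ⟨i, rfl⟩
        fin_cases i
        · exact hv ⟨c, hc⟩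
        · exact hv1 a ha c hc
      · rw [finrank_span_eq_card hli2, h2 ⟨c, hc⟩]
        rfl
    obtain ⟨i, hi⟩ := h3 (L 1) (hfd 1) (by rw [h2 ⟨1, hone⟩]; norm_num)
    apply hi
    rw [← hspan i.1 i.2, hspan 1 hone]
  have hv3 : ∀ a, φ a ∈ T → ρ a v = v ∨ ρ a v = -v := by
    intro a ha
    obtain ⟨c, hc⟩ := hv2 a ha
    rcases eig ρ a v hv0 c hc with h | h
    · left; rw [hc, h, one_smul]
    · right; rw [hc, h, neg_smul, one_smul]
  obtain ⟨s, t, hst⟩ := (hmem _ _).1 (hv ⟨1, hone⟩)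
  rw [map_one] at hst
  have hst : s • w + t • ρ b w = v := hst
  refine ⟨s, t, ?_, ?_, by rw [hst]; exact hv0, by rw [hst]; exact hv3⟩
  · intro hs
    rw [hs, zero_smul, zero_add] at hst
    have ht : t ≠ 0 := by
      intro ht; rw [ht, zero_smul] at hst; exact hv0 hst.symm
    obtain ⟨a, ha, ha1, ha2⟩ := hmb
    rcases hv3 a ha with h | h
    · rw [← hst, map_smul] at h
      exact ha1 (smul_right_injective W ht h)
    · rw [← hst, map_smul, ← smul_neg] at h
      exact ha2 (smul_right_injective W ht h)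
  · intro ht
    rw [ht, zero_smul, add_zero] at hst
    have hs : s ≠ 0 := by
      intro hs; rw [hs, zero_smul] at hst; exact hv0 hst.symm
    obtain ⟨a, ha, ha1, ha2⟩ := hm
    rcases hv3 a ha with h | h
    · rw [← hst, map_smul] at h
      exact ha1 (smul_right_injective W hs h)
    · rw [← hst, map_smul, ← smul_neg] at h
      exact ha2 (smul_right_injective W hs h)

end Pool.Agent.Lib.MP_7ab245_nt.Solv.GY
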