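import Pool.Agent.Lib.MP_7ab245_nt.Solv.GY.Defs

/-! GY-Y11: sign characters.
PROOF.  `χ` is a character of `T.comap φ` with values `± 1` which is `1` on the kernel of `φ`.  Let `K = {t ∈ T | χ g = 1 for all g with φ g = t}` (`= {φ g | φ g ∈ T, χ g = 1}`), a subgroup of `T` normalised by `T`; by `Simp T`
it is `T` (then `χ = 1`) or `⊥`.  If it is `⊥`: for `a, b ∈ T`, `a = φ g`, `b = φ h` (`φ` surjective), `χ (g h g⁻¹ h⁻¹) = 1`, so `a b a⁻¹ b⁻¹ ∈ K = ⊥`: `T` is abelian, contradiction.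
`sign_eq`: apply this to the product of two characters. Here a sign character of `T.comap φ` is given by a function `χ : G → ℚ`, only its values on `{g | φ g ∈ T}` matter. -/

set_option autoImplicit false

namespace Pool.Agent.Lib.MP_7ab245_nt.Solv.GY

open SX

/-- `χ` is a character with values `± 1` on the preimage of `T` -/
def IsSign {G Γ : Type*} [Group G] [Group Γ] (φ : G →* Γ) (T : Subgroup Γ) (χ : G → ℚ) : Prop :=
  (∀ g, φ g ∈ T → χ g = 1 ∨ χ g = -1) ∧ ∀ g h, φ g ∈ T → φ h ∈ T → χ (g * h) = χ g * χ h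

private theorem Y11_one {G Γ : Type*} [Group G] [Group Γ] {φ : G →* Γ}
    {T : Subgroup Γ} {χ : G → ℚ} (h : IsSign φ T χ) : χ 1 = 1 := by
  have h1 : φ 1 ∈ T := by rw [map_one]; exact T.one_mem
  have h2 := h.2 1 1 h1 h1
  rw [mul_one] at h2
  rcases h.1 1 h1 with h3 | h3
  · exact h3
  · rw [h3] at h2; norm_num at h2

private theorem Y11_inv {G Γ : Type*} [Group G] [Group Γ] {φ : G →* Γ}
    {T : Subgroup Γ} {χ : G → ℚ} (h : IsSign φ T χ) {g : G} (hg : φ g ∈ T) : χ g⁻¹ = χ g := by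
  have h1 : φ g⁻¹ ∈ T := by rw [map_inv]; exact T.inv_mem hg
  have h2 := h.2 g g⁻¹ hg h1
  rw [mul_inv_cancel, Y11_one h] at h2
  rcases h.1 g hg with h3 | h3 <;> rcases h.1 g⁻¹ h1 with h4 | h4 <;> rw [h3, h4] at h2 ⊢ <;>
    norm_num at h2

private theorem Y11_triv {G Γ : Type*} [Group G] [Group Γ] (φ : G →* Γ)
    (hφ : Function.Surjective φ) {T : Subgroup Γ} (hs : Simp T) (hna : NonAb T) (χ : G → ℚ)
    (h : IsSign φ T χ) (hk : ∀ ν, φ ν = 1 → χ ν = 1) : ∀ g, φ g ∈ T → χ g = 1 := by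
  -- the value depends only on `φ g`
  have hdep : ∀ g g', φ g ∈ T → φ g = φ g' → χ g = χ g' := by
    intro g g' hg e
    have hν : φ (g'⁻¹ * g) = 1 := by rw [map_mul, map_inv, e, inv_mul_cancel]
    have hνT : φ (g'⁻¹ * g) ∈ T := by rw [hν]; exact T.one_mem
    have hg' : φ g' ∈ T := e ▸ hg
    have h1 := h.2 g' (g'⁻¹ * g) hg' hνT
    rw [hk _ hν, mul_one, mul_inv_cancel_left] at h1
    exact h1
  let K : Subgroup Γ :=
    { carrier := {t | t ∈ T ∧ ∀ g, φ g = t → χ g = 1}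
      one_mem' := ⟨T.one_mem, fun g hg => hk g hg⟩
      mul_mem' := by
        rintro a b ⟨ha, ha'⟩ ⟨hb, hb'⟩
        refine ⟨T.mul_mem ha hb, ?_⟩
        intro g hg
        obtain ⟨x, hx⟩ := hφ a
        obtain ⟨y, hy⟩ := hφ b
        have e : φ g = φ (x * y) := by rw [hg, map_mul, hx, hy]
        have hgT : φ g ∈ T := by rw [hg]; exact T.mul_mem ha hb
        rw [hdep g (x * y) hgT e, h.2 x y (hx ▸ ha) (hy ▸ hb), ha' x hx, hb' y hy, mul_one]
      inv_mem' := by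
        rintro a ⟨ha, ha'⟩
        refine ⟨T.inv_mem ha, ?_⟩
        intro g hg
        have hgT : φ g ∈ T := by rw [hg]; exact T.inv_mem ha
        rw [← Y11_inv h hgT]
        exact ha' _ (by rw [map_inv, hg, inv_inv]) }
  have hKT : K ≤ T := fun t ht => ht.1
  have hKn : ∀ t ∈ T, ∀ x ∈ K, t * x * t⁻¹ ∈ K := by
    rintro t ht x ⟨hx, hx'⟩
    refine ⟨T.mul_mem (T.mul_mem ht hx) (T.inv_mem ht), ?_⟩
    intro g hg
    obtain ⟨s, hs'⟩ := hφ t
    obtain ⟨y, hy⟩ := hφ x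
    have hsT : φ s ∈ T := hs' ▸ ht
    have hyT : φ y ∈ T := hy ▸ hx
    have hsT' : φ s⁻¹ ∈ T := by rw [map_inv]; exact T.inv_mem hsT
    have e : φ g = φ (s * y * s⁻¹) := by rw [hg, map_mul, map_mul, map_inv, hs', hy]
    have hgT : φ g ∈ T := by
      rw [hg]; exact T.mul_mem (T.mul_mem ht hx) (T.inv_mem ht)
    have hsyT : φ (s * y) ∈ T := by rw [map_mul]; exact T.mul_mem hsT hyT
    rw [hdep g _ hgT e, h.2 (s * y) s⁻¹ hsyT hsT', h.2 s y hsT hyT, hx' y hy, mul_one,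
      Y11_inv h hsT]
    rcases h.1 s hsT with h3 | h3 <;> rw [h3] <;> norm_num
  rcases hs K hKT hKn with hK | hK
  · exfalso
    obtain ⟨a, ha, b, hb, hab⟩ := hna
    obtain ⟨g, hg⟩ := hφ a
    obtain ⟨k, hk'⟩ := hφ b
    have hgT : φ g ∈ T := hg ▸ ha
    have hkT : φ k ∈ T := hk' ▸ hb
    have hgT' : φ g⁻¹ ∈ T := by rw [map_inv]; exact T.inv_mem hgT
    have hkT' : φ k⁻¹ ∈ T := by rw [map_inv]; exact T.inv_mem hkT
    have hgk : φ (g * k) ∈ T := by rw [map_mul]; exact T.mul_mem hgT hkT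
    have hgkg : φ (g * k * g⁻¹) ∈ T := by rw [map_mul]; exact T.mul_mem hgk hgT'
    have hmem : a * b * a⁻¹ * b⁻¹ ∈ K := by
      have hT : a * b * a⁻¹ * b⁻¹ ∈ T :=
        T.mul_mem (T.mul_mem (T.mul_mem ha hb) (T.inv_mem ha)) (T.inv_mem hb)
      refine ⟨hT, ?_⟩
      intro x hx
      have e : φ x = φ (g * k * g⁻¹ * k⁻¹) := by
        rw [hx, map_mul, map_mul, map_mul, map_inv, map_inv, hg, hk']
      rw [hdep x _ (by rw [hx]; exact hT) e, h.2 _ _ hgkg hkT', h.2 _ _ hgk hgT',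
        h.2 _ _ hgT hkT, Y11_inv h hgT, Y11_inv h hkT]
      rcases h.1 g hgT with h3 | h3 <;> rcases h.1 k hkT with h4 | h4 <;> rw [h3, h4] <;> norm_num
    rw [hK, Subgroup.mem_bot] at hmem
    apply hab
    have h5 : a * b * a⁻¹ = b := mul_inv_eq_one.1 hmem
    exact mul_inv_eq_iff_eq_mul.1 h5
  · intro g hg
    have : φ g ∈ K := by rw [hK]; exact hg
    exact this.2 g rfl

theorem sign_eq {G Γ : Type*} [Group G] [Group Γ] (φ : G →* Γ) (hφ : Function.Surjective φ)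
    {T : Subgroup Γ} (hs : Simp T) (hna : NonAb T) (χ χ' : G → ℚ) (h : IsSign φ T χ)
    (h' : IsSign φ T χ') (hk : ∀ ν, φ ν = 1 → χ ν = χ' ν) : ∀ g, φ g ∈ T → χ g = χ' g := by
  have hp : IsSign φ T (fun g => χ g * χ' g) := by
    refine ⟨?_, ?_⟩
    · intro g hg
      rcases h.1 g hg with h3 | h3 <;> rcases h'.1 g hg with h4 | h4 <;>
        simp only [h3, h4] <;> norm_num
    · intro g k hg hk
      change χ (g * k) * χ' (g * k) = χ g * χ' g * (χ k * χ' k)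
      rw [h.2 g k hg hk, h'.2 g k hg hk]
      ring
  have h1 := Y11_triv φ hφ hs hna _ hp (by
    intro ν hν
    have hνT : φ ν ∈ T := by rw [hν]; exact T.one_mem
    change χ ν * χ' ν = 1
    rw [hk ν hν]
    rcases h'.1 ν hνT with h3 | h3 <;> rw [h3] <;> norm_num)
  intro g hg
  have h2 : χ g * χ' g = 1 := h1 g hg
  rcases h.1 g hg with h3 | h3 <;> rcases h'.1 g hg with h4 | h4 <;> rw [h3, h4] at h2 ⊢ <;>
    norm_num at h2

/-- a vector `v ≠ 0` with `ρ a v = ± v` for all `a` in the preimage of `T` gives a sign character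
(`χ a = 1` if `ρ a v = v`, `-1` otherwise) -/
theorem exists_sign {G Γ W : Type*} [Group G] [Group Γ] [AddCommGroup W] [Module ℚ W]
    (ρ : Representation ℚ G W) (φ : G →* Γ) (T : Subgroup Γ) (v : W) (hv : v ≠ 0)
    (h : ∀ a, φ a ∈ T → ρ a v = v ∨ ρ a v = -v) :
    ∃ χ : G → ℚ, IsSign φ T χ ∧ ∀ a, φ a ∈ T → ρ a v = χ a • v := by
  classical
  let χ : G → ℚ := fun a => if ρ a v = v then 1 else -1
  have hχ : ∀ a, φ a ∈ T → ρ a v = χ a • v := by
    intro a ha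
    by_cases h1 : ρ a v = v
    · have : χ a = 1 := if_pos h1
      rw [this, one_smul]; exact h1
    · have : χ a = -1 := if_neg h1
      rw [this, neg_one_smul]
      exact (h a ha).resolve_left h1
  refine ⟨χ, ⟨?_, ?_⟩, hχ⟩
  · intro g _
    by_cases h1 : ρ g v = v
    · exact Or.inl (if_pos h1)
    · exact Or.inr (if_neg h1)
  · intro g k hg hk
    have hgk : φ (g * k) ∈ T := by rw [map_mul]; exact T.mul_mem hg hk
    have h1 := hχ (g * k) hgk
    rw [map_mul, Module.End.mul_apply, hχ k hk, map_smul, hχ g hg, smul_smul] at h1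
    have h2 := smul_left_injective ℚ hv h1
    rw [← h2, mul_comm]

end Pool.Agent.Lib.MP_7ab245_nt.Solv.GY
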