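import Pool.Agent.Lib.MP_7ab245_nt.Solv.GY.Y10
import Pool.Agent.Lib.MP_7ab245_nt.Solv.GY.Y11

/-! GY-Y12: one sign character for all `b ∈ B`.
PROOF.  Notation: `ε ν` for `φ ν = 1` is the sign with `ρ ν w = ε ν • w` (`IsQ` with `x = 1`).
For `b ∈ B`, `ρ b w ≠ ± w`: `v = α w + β ρ b w` from `exists_line`, `χ_b` from `exists_sign`.  For `φ ν = 1` (so `φ ν ∈ T`): `ρ ν w = ε ν w`, `ρ ν (ρ b w) = ± ρ b w`
(`IsQ`: `ρ (ν * b) w = ± ρ b w`), and `ρ ν v = χ_b ν v`; as `w`, `ρ b w` are independent (`ρ b w = c w` gives `c ^ orderOf b = 1`) and `α, β ≠ 0`: `χ_b ν = ε ν` and `ρ ν (ρ b w) = ε ν • ρ b w`.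
So all `χ_b` agree on the kernel; by `sign_eq` they agree on the preimage of `T`: one `χ` (take it from one fixed `b₀` given by `hB3`).
Conclusion (2): for `b ∈ B` moving `w`: `α, β` as above with `ρ a v = χ_b a • v = χ a • v`.
Conclusion (3): `a ↦ χ (b⁻¹ * a * b)` is also a sign character of the preimage of `T` (`φ (b⁻¹ a b) ∈ T` by `hB1`), and on the kernel (`φ (b⁻¹ ν b) = 1`):
`χ (b⁻¹ ν b) = ε (b⁻¹ ν b)`, and `ρ (b⁻¹ ν b) w = ρ b⁻¹ (ρ ν (ρ b w)) = ρ b⁻¹ (ε ν • ρ b w) = ε ν • w` (if `ρ b w = ± w` this is clear too), so `ε (b⁻¹ ν b) = ε ν`; use `sign_eq`. -/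

set_option autoImplicit false

namespace Pool.Agent.Lib.MP_7ab245_nt.Solv.GY

open SX Module

private theorem y12_ind {G W : Type*} [Group G] [Finite G] [AddCommGroup W] [Module ℚ W]
    (ρ : Representation ℚ G W) (w : W) (hw : w ≠ 0) (b : G) (hb1 : ρ b w ≠ w)
    (hb2 : ρ b w ≠ -w) (x y : ℚ) (h : x • w + y • ρ b w = 0) : x = 0 ∧ y = 0 := by
  have hy : y = 0 := by
    by_contra hy
    obtain ⟨c, hc⟩ : ∃ c : ℚ, ρ b w = c • w := by
      refine ⟨-(x / y), ?_⟩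
      have h1 : y • ρ b w = (-x) • w := by
        rw [neg_smul]
        exact eq_neg_of_add_eq_zero_right h
      have h2 : ρ b w = y⁻¹ • (y • ρ b w) := by
        rw [smul_smul, inv_mul_cancel₀ hy, one_smul]
      rw [h2, h1, smul_smul]
      congr 1
      field_simp
    have hpow : ∀ n : ℕ, ρ (b ^ n) w = c ^ n • w := by
      intro n
      induction n with
      | zero => simp
      | succ n ih =>
        rw [pow_succ', map_mul, Module.End.mul_apply, ih, map_smul, hc, smul_smul, pow_succ]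
    have h1 := hpow (orderOf b)
    rw [pow_orderOf_eq_one, map_one, Module.End.one_apply] at h1
    have h2 : (1 - c ^ orderOf b) • w = 0 := by
      rw [sub_smul, one_smul, ← h1, sub_self]
    have h3 : 1 - c ^ orderOf b = 0 := (smul_eq_zero.1 h2).resolve_right hw
    have h4 : c ^ orderOf b = 1 := by linarith
    have h5 : |c| ^ orderOf b = 1 := by rw [← abs_pow, h4, abs_one]
    have h6 : |c| = 1 := (pow_eq_one_iff_of_nonneg (abs_nonneg c) (orderOf_pos b).ne').1 h5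
    rcases (abs_eq (zero_le_one' ℚ)).1 h6 with h7 | h7
    · rw [h7, one_smul] at hc
      exact hb1 hc
    · rw [h7, neg_smul, one_smul] at hc
      exact hb2 hc
  refine ⟨?_, hy⟩
  rw [hy, zero_smul, add_zero] at h
  exact (smul_eq_zero.1 h).resolve_right hw

open Classical in
private noncomputable def y12_eps {G W : Type*} [Group G] [AddCommGroup W] [Module ℚ W]
    (ρ : Representation ℚ G W) (w : W) (ν : G) : ℚ := if ρ ν w = w then 1 else -1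

private theorem y12_eps_spec {G Γ W : Type*} [Group G] [Group Γ] [AddCommGroup W] [Module ℚ W]
    (ρ : Representation ℚ G W) (w : W) (φ : G →* Γ) (hφ : IsQ ρ w φ) (ν : G) (hν : φ ν = 1) :
    ρ ν w = y12_eps ρ w ν • w := by
  have h1 := (hφ.2 ν).1 hν 1
  rw [mul_one, map_one, Module.End.one_apply] at h1
  unfold y12_eps
  split_ifs with h2
  · rw [one_smul]
    exact h2
  · rw [neg_smul, one_smul]
    exact h1.resolve_left h2

/-- the sign character of one `b` -/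
private theorem y12_one {G Γ W : Type*} [Group G] [Finite G] [Group Γ] [AddCommGroup W]
    [Module ℚ W] (ρ : Representation ℚ G W) (w : W) (hw : w ≠ 0) (φ : G →* Γ) (hφ : IsQ ρ w φ)
    {T : Subgroup Γ} (hm : Mv ρ φ T w) (h4 : 4 ≤ finrank ℚ (spn ρ w φ T)) (b : G)
    (hb1 : ρ b w ≠ w) (hb2 : ρ b w ≠ -w) (hmb : Mv ρ φ T (ρ b w))
    (hdep : ∀ a, φ a ∈ T → ¬ LinearIndependent ℚ (fun i => ρ ((![1, a, b, a * b] : Fin 4 → G) i) w)) :
    ∃ χ : G → ℚ, IsSign φ T χ ∧ (∃ α β : ℚ, α ≠ 0 ∧ β ≠ 0 ∧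
        ∀ a, φ a ∈ T → ρ a (α • w + β • ρ b w) = χ a • (α • w + β • ρ b w)) ∧
      ∀ ν, φ ν = 1 → χ ν = y12_eps ρ w ν ∧ ρ ν (ρ b w) = y12_eps ρ w ν • ρ b w := by
  obtain ⟨α, β, hα, hβ, hv, hpm⟩ := exists_line ρ w φ hm h4 b hb1 hb2 hmb hdep
  obtain ⟨χ, hχ, hχv⟩ := exists_sign ρ φ T _ hv hpm
  refine ⟨χ, hχ, ⟨α, β, hα, hβ, hχv⟩, ?_⟩
  intro ν hν
  have hνT : φ ν ∈ T := by
    rw [hν]
    exact T.one_mem
  have h1 := y12_eps_spec ρ w φ hφ ν hν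
  obtain ⟨δ, hδ⟩ : ∃ δ : ℚ, ρ ν (ρ b w) = δ • ρ b w := by
    have h2 := (hφ.2 ν).1 hν b
    rw [map_mul, Module.End.mul_apply] at h2
    rcases h2 with h2 | h2
    · exact ⟨1, by rw [one_smul, h2]⟩
    · exact ⟨-1, by rw [neg_smul, one_smul, h2]⟩
  have h2 := hχv ν hνT
  rw [map_add, map_smul, map_smul, h1, hδ, smul_add, smul_smul, smul_smul, smul_smul,
    smul_smul] at h2
  have h3 : (α * y12_eps ρ w ν - χ ν * α) • w + (β * δ - χ ν * β) • ρ b w = 0 := by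
    rw [sub_smul, sub_smul]
    have h5 := sub_eq_zero.2 h2
    rw [← h5]
    abel
  obtain ⟨h5, h6⟩ := y12_ind ρ w hw b hb1 hb2 _ _ h3
  have h7 : χ ν = y12_eps ρ w ν := by
    have : α * (y12_eps ρ w ν - χ ν) = 0 := by linarith
    have := (mul_eq_zero.1 this).resolve_left hα
    linarith
  have h8 : χ ν = δ := by
    have : β * (δ - χ ν) = 0 := by linarith
    have := (mul_eq_zero.1 this).resolve_left hβ
    linarith
  refine ⟨h7, ?_⟩
  rw [hδ, ← h8, h7]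

theorem exists_chi {G Γ W : Type*} [Group G] [Finite G] [Group Γ] [AddCommGroup W] [Module ℚ W]
    (ρ : Representation ℚ G W) (w : W) (φ : G →* Γ) (hφ : IsQ ρ w φ) {T : Subgroup Γ}
    (hs : Simp T) (hna : NonAb T) (hm : Mv ρ φ T w)
    (B : Set G) (hB1 : ∀ b ∈ B, ∀ a, φ a ∈ T → φ (b⁻¹ * a * b) ∈ T)
    (hB2 : ∀ b ∈ B, Mv ρ φ T (ρ b w)) (hB3 : ∃ b ∈ B, ρ b w ≠ w ∧ ρ b w ≠ -w)
    (h4 : 4 ≤ finrank ℚ (spn ρ w φ T))
    (hdep : ∀ a, φ a ∈ T → ∀ b ∈ B,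
      ¬ LinearIndependent ℚ (fun i => ρ ((![1, a, b, a * b] : Fin 4 → G) i) w)) :
    ∃ χ : G → ℚ, IsSign φ T χ ∧
      (∀ b ∈ B, ρ b w ≠ w → ρ b w ≠ -w → ∃ α β : ℚ, α ≠ 0 ∧ β ≠ 0 ∧
        ∀ a, φ a ∈ T → ρ a (α • w + β • ρ b w) = χ a • (α • w + β • ρ b w)) ∧
      ∀ a, φ a ∈ T → ∀ b ∈ B, χ (b⁻¹ * a * b) = χ a := by
  obtain ⟨b₀, hb₀, hb01, hb02⟩ := hB3
  have hw : w ≠ 0 := by
    rintro rfl
    exact hb01 (map_zero _)
  obtain ⟨χ, hχ, -, hχk⟩ := y12_one ρ w hw φ hφ hm h4 b₀ hb01 hb02 (hB2 b₀ hb₀)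
    (fun a ha => hdep a ha b₀ hb₀)
  -- the kernel acts on all `ρ b w` by the same sign
  have hA2 : ∀ b ∈ B, ∀ ν, φ ν = 1 → ρ ν (ρ b w) = y12_eps ρ w ν • ρ b w := by
    intro b hb ν hν
    by_cases h1 : ρ b w = w
    · rw [h1]
      exact y12_eps_spec ρ w φ hφ ν hν
    · by_cases h2 : ρ b w = -w
      · rw [h2, map_neg, smul_neg, y12_eps_spec ρ w φ hφ ν hν]
      · obtain ⟨χ', -, -, hk'⟩ := y12_one ρ w hw φ hφ hm h4 b h1 h2 (hB2 b hb)
          (fun a ha => hdep a ha b hb)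
        exact (hk' ν hν).2
  refine ⟨χ, hχ, ?_, ?_⟩
  · intro b hb hb1 hb2
    obtain ⟨χ', hχ', ⟨α, β, hα, hβ, hv⟩, hk'⟩ := y12_one ρ w hw φ hφ hm h4 b hb1 hb2 (hB2 b hb)
      (fun a ha => hdep a ha b hb)
    refine ⟨α, β, hα, hβ, fun a ha => ?_⟩
    rw [hv a ha, sign_eq φ hφ.1 hs hna χ' χ hχ' hχ
      (fun ν hν => by rw [(hk' ν hν).1, (hχk ν hν).1]) a ha]
  · intro a ha b hb
    refine sign_eq φ hφ.1 hs hna (fun g => χ (b⁻¹ * g * b)) χ ⟨fun g hg => ?_, fun g g' hg hg' => ?_⟩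
      hχ (fun ν hν => ?_) a ha
    · exact hχ.1 _ (hB1 b hb g hg)
    · have e : b⁻¹ * (g * g') * b = b⁻¹ * g * b * (b⁻¹ * g' * b) := by group
      show χ (b⁻¹ * (g * g') * b) = χ (b⁻¹ * g * b) * χ (b⁻¹ * g' * b)
      rw [e]
      exact hχ.2 _ _ (hB1 b hb g hg) (hB1 b hb g' hg')
    · have hν' : φ (b⁻¹ * ν * b) = 1 := by
        rw [map_mul, map_mul, hν, mul_one, map_inv, inv_mul_cancel]
      show χ (b⁻¹ * ν * b) = χ ν
      rw [(hχk _ hν').1, (hχk ν hν).1]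
      have h1 := y12_eps_spec ρ w φ hφ _ hν'
      have h2 : ρ (b⁻¹ * ν * b) w = y12_eps ρ w ν • w := by
        rw [map_mul, map_mul, Module.End.mul_apply, Module.End.mul_apply, hA2 b hb ν hν, map_smul,
          ← Module.End.mul_apply, ← map_mul, inv_mul_cancel, map_one, Module.End.one_apply]
      have h3 : (y12_eps ρ w (b⁻¹ * ν * b) - y12_eps ρ w ν) • w = 0 := by
        rw [sub_smul, ← h1, ← h2, sub_self]
      have h5 := (smul_eq_zero.1 h3).resolve_right hw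
      linarith

end Pool.Agent.Lib.MP_7ab245_nt.Solv.GY
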