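import Pool.Agent.Lib.MP_7ab245_nt.Solv.GY.Y11

/-! GY-Y13: the projector.
PROOF.  `H = T.comap φ`, finite; `E v = (1/|H|) ∑_{a ∈ H} χ a • ρ a v`.  `ρ a (E v) = χ a • E v = E (ρ a v)` for `a ∈ H` (reindex, `χ a² = 1`, `χ` multiplicative); so `E (E v) = E v`, and `E v = v` if `ρ a v = χ a • v` for
all `a ∈ H`.  For `b ∈ B`: `ρ b (E v) = E (ρ b v)`: reindex `a ↦ b⁻¹ a b` (`hB1`: it maps the finite set `H` into itself, injective, so a bijection of `H`), `χ (b⁻¹ a b) = χ a`.
Last property: `u = w - E w`.  If `ρ b w = ± w` then `ρ b (E w) = E (ρ b w) = ± E w`, so `ρ b u = ± u`.  Otherwise `α w + β ρ b w = E (α w + β ρ b w) = α E w + β ρ b (E w)`, so `α u + β ρ b u = 0`, `ρ b u = c u` with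
`c = -α/β`; if `u ≠ 0` then `c ^ orderOf b = 1`, `c = ± 1`.  (If `u = 0` the claim is trivial.) -/

set_option autoImplicit false

namespace Pool.Agent.Lib.MP_7ab245_nt.Solv.GY

open SX Module

theorem exists_proj_E {G Γ W : Type*} [Group G] [Finite G] [Group Γ] [AddCommGroup W] [Module ℚ W]
    (ρ : Representation ℚ G W) (w : W) (φ : G →* Γ) {T : Subgroup Γ}
    (B : Set G) (hB1 : ∀ b ∈ B, ∀ a, φ a ∈ T → φ (b⁻¹ * a * b) ∈ T)
    (χ : G → ℚ) (hχ : IsSign φ T χ)
    (h1 : ∀ b ∈ B, ρ b w ≠ w → ρ b w ≠ -w → ∃ α β : ℚ, α ≠ 0 ∧ β ≠ 0 ∧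
        ∀ a, φ a ∈ T → ρ a (α • w + β • ρ b w) = χ a • (α • w + β • ρ b w))
    (h2 : ∀ a, φ a ∈ T → ∀ b ∈ B, χ (b⁻¹ * a * b) = χ a) :
    ∃ E : W →ₗ[ℚ] W, (∀ a, φ a ∈ T → ∀ v, ρ a (E v) = χ a • E v ∧ E (ρ a v) = χ a • E v) ∧
      (∀ b ∈ B, ∀ v, E (ρ b v) = ρ b (E v)) ∧ (∀ v, E (E v) = E v) ∧
      ∀ b ∈ B, ρ b (w - E w) = w - E w ∨ ρ b (w - E w) = -(w - E w) := by
  classical
  have := Fintype.ofFinite G
  obtain ⟨hχ1, hχm⟩ := hχ
  let S : Finset G := Finset.univ.filter fun a => φ a ∈ T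
  have hS : ∀ a, a ∈ S ↔ φ a ∈ T := fun a => by simp [S]
  have hsq : ∀ a, φ a ∈ T → χ a * χ a = 1 := by
    intro a ha
    rcases hχ1 a ha with h | h <;> rw [h] <;> norm_num
  have hN : (S.card : ℚ) ≠ 0 := by
    have h1 : (1 : G) ∈ S := by rw [hS, map_one]; exact T.one_mem
    exact_mod_cast (Finset.card_pos.2 ⟨1, h1⟩).ne'
  let E : W →ₗ[ℚ] W := (S.card : ℚ)⁻¹ • ∑ a ∈ S, χ a • ρ a
  have hE : ∀ v, E v = (S.card : ℚ)⁻¹ • ∑ a ∈ S, χ a • ρ a v := by
    intro v
    simp only [E, LinearMap.smul_apply, LinearMap.sum_apply]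
  have hρ : ∀ a b v, ρ a (ρ b v) = ρ (a * b) v := by
    intro a b v
    rw [map_mul]; rfl
  -- left and right translations
  have hL : ∀ a, φ a ∈ T → ∀ v, ρ a (E v) = χ a • E v := by
    intro a ha v
    have h3 : ∑ b ∈ S, χ b • ρ (a * b) v = χ a • ∑ b ∈ S, χ b • ρ b v := by
      rw [Finset.smul_sum]
      refine Finset.sum_bij' (fun b _ => a * b) (fun b _ => a⁻¹ * b) ?_ ?_ ?_ ?_ ?_
      · intro b hb
        rw [hS] at hb ⊢
        rw [map_mul]; exact T.mul_mem ha hb
      · intro b hb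
        rw [hS] at hb ⊢
        rw [map_mul, map_inv]; exact T.mul_mem (T.inv_mem ha) hb
      · intro b _; group
      · intro b _; group
      · intro b hb
        rw [hS] at hb
        rw [hχm a b ha hb, smul_smul, ← mul_assoc, hsq a ha, one_mul]
    rw [hE, map_smul, map_sum, smul_comm (χ a)]
    congr 1
    rw [← h3]
    refine Finset.sum_congr rfl fun b _ => ?_
    rw [map_smul, hρ]
  have hR : ∀ a, φ a ∈ T → ∀ v, E (ρ a v) = χ a • E v := by
    intro a ha v
    have h3 : ∑ b ∈ S, χ b • ρ (b * a) v = χ a • ∑ b ∈ S, χ b • ρ b v := by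
      rw [Finset.smul_sum]
      refine Finset.sum_bij' (fun b _ => b * a) (fun b _ => b * a⁻¹) ?_ ?_ ?_ ?_ ?_
      · intro b hb
        rw [hS] at hb ⊢
        rw [map_mul]; exact T.mul_mem hb ha
      · intro b hb
        rw [hS] at hb ⊢
        rw [map_mul, map_inv]; exact T.mul_mem hb (T.inv_mem ha)
      · intro b _; group
      · intro b _; group
      · intro b hb
        rw [hS] at hb
        rw [hχm b a hb ha, smul_smul, mul_comm (χ b) (χ a), ← mul_assoc, hsq a ha, one_mul]
    rw [hE, hE, smul_comm (χ a)]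
    congr 1
    rw [← h3]
    refine Finset.sum_congr rfl fun b _ => ?_
    rw [hρ]
  have hfix : ∀ v, (∀ a, φ a ∈ T → ρ a v = χ a • v) → E v = v := by
    intro v hv
    have h3 : ∑ a ∈ S, χ a • ρ a v = (S.card : ℚ) • v := by
      have h4 : ∀ a ∈ S, χ a • ρ a v = v := by
        intro a ha
        rw [hS] at ha
        rw [hv a ha, smul_smul, hsq a ha, one_smul]
      rw [Finset.sum_congr rfl h4, Finset.sum_const, Nat.cast_smul_eq_nsmul]
    rw [hE, h3, smul_smul, inv_mul_cancel₀ hN, one_smul]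
  have hB : ∀ b ∈ B, ∀ v, E (ρ b v) = ρ b (E v) := by
    intro b hb v
    have hinj : Function.Injective (fun a : G => b⁻¹ * a * b) := by
      intro x y hxy
      have h3 : b⁻¹ * x * b = b⁻¹ * y * b := hxy
      exact mul_left_cancel (mul_right_cancel h3)
    have himg : S.image (fun a : G => b⁻¹ * a * b) = S := by
      apply Finset.eq_of_subset_of_card_le
      · intro x hx
        obtain ⟨a, ha, rfl⟩ := Finset.mem_image.1 hx
        rw [hS] at ha ⊢
        exact hB1 b hb a ha
      · rw [Finset.card_image_of_injective _ hinj]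
    have h3 : ∑ a ∈ S, χ a • ρ (b * a) v = ∑ a ∈ S, χ a • ρ (a * b) v := by
      conv_lhs => rw [← himg]
      rw [Finset.sum_image (fun x _ y _ hxy => hinj hxy)]
      refine Finset.sum_congr rfl fun a ha => ?_
      rw [hS] at ha
      have e : b * (b⁻¹ * a * b) = a * b := by group
      rw [h2 a ha b hb, e]
    rw [hE, hE, map_smul, map_sum]
    congr 1
    have h4 : ∀ a ∈ S, ρ b (χ a • ρ a v) = χ a • ρ (b * a) v := by
      intro a _
      rw [map_smul, hρ]
    rw [Finset.sum_congr rfl h4, h3]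
    refine Finset.sum_congr rfl fun a _ => ?_
    rw [hρ]
  refine ⟨E, fun a ha v => ⟨hL a ha v, hR a ha v⟩, hB, fun v => hfix _ fun a ha => hL a ha v, ?_⟩
  intro b hb
  by_cases hp : ρ b w = w
  · left
    rw [map_sub, ← hB b hb, hp]
  · by_cases hm : ρ b w = -w
    · right
      rw [map_sub, ← hB b hb, hm, map_neg, neg_sub]
      abel
    · obtain ⟨α, β, hα, hβ, hab⟩ := h1 b hb hp hm
      have h3 := hfix _ hab
      rw [map_add, map_smul, map_smul, hB b hb] at h3
      set u := w - E w with hu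
      have h4 : α • u + β • ρ b u = 0 := by
        rw [hu, map_sub, smul_sub, smul_sub]
        have h5 : α • w - α • E w + (β • ρ b w - β • ρ b (E w)) =
            (α • w + β • ρ b w) - (α • E w + β • ρ b (E w)) := by abel
        rw [h5, h3, sub_self]
      set c : ℚ := -(β⁻¹ * α) with hc
      have h6 : ρ b u = c • u := by
        have h7 : β • ρ b u = -(α • u) := by
          rw [← add_eq_zero_iff_eq_neg, add_comm]; exact h4
        have h8 : ρ b u = β⁻¹ • (β • ρ b u) := by
          rw [smul_smul, inv_mul_cancel₀ hβ, one_smul]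
        rw [h8, h7, hc, smul_neg, smul_smul, neg_smul]
      by_cases hu0 : u = 0
      · left
        rw [hu0, map_zero]
      · have h9 : ∀ n : ℕ, ρ (b ^ n) u = c ^ n • u := by
          intro n
          induction n with
          | zero => simp
          | succ n ih =>
            rw [pow_succ', ← hρ, ih, map_smul, h6, smul_smul, pow_succ]
        have hn : 0 < orderOf b := orderOf_pos b
        have h10 := h9 (orderOf b)
        rw [pow_orderOf_eq_one, map_one, Module.End.one_apply] at h10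
        have h11 : (c ^ orderOf b - 1) • u = 0 := by
          rw [sub_smul, one_smul, ← h10, sub_self]
        have h12 : c ^ orderOf b = 1 := by
          rcases smul_eq_zero.1 h11 with h13 | h13
          · exact sub_eq_zero.1 h13
          · exact absurd h13 hu0
        have h14 : |c| = 1 := by
          have h15 : |c| ^ orderOf b = 1 := by rw [← abs_pow, h12, abs_one]
          exact (pow_eq_one_iff_of_nonneg (abs_nonneg c) hn.ne').1 h15
        rcases (abs_eq (zero_le_one)).1 h14 with h15 | h15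
        · left; rw [h6, h15, one_smul]
        · right; rw [h6, h15, neg_smul, one_smul]

end Pool.Agent.Lib.MP_7ab245_nt.Solv.GY
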