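import Pool.Agent.Lib.MP_7ab245_nt.Solv.GY.Y11

/-! GY-Y14: the orbit of a vector of product type.
PROOF.  `s = E w`, `u = w - E w`, `O = Set.range (fun x => ρ x w)`, `X = orb ρ φ T' s = {ρ b s}`, `Y = orb ρ φ T u = {ρ a u}`.
(i) `ρ b w = ρ b s + ρ b u = ρ b s ± u` for `φ b ∈ T'`: `|orb ρ φ T' w| ≤ 2 |X|`.  (ii) `ρ a w = ρ a s + ρ a u = ± s + ρ a u`: `|orb ρ φ T w| ≤ 2 |Y|`.
(iii) `ρ (a * b) w = ρ a (ρ b s) + ρ a (ρ b u)`, `ρ b s = ρ b (E w) = E (ρ b w)` so `ρ a (ρ b s) = χ a • ρ b s`, and `ρ a (ρ b u) = ± ρ a u`.  Moreover `E (ρ b s) = ρ b s` and `E (ρ a u) = χ a • E u = 0`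
(`E u = E w - E (E w) = 0`).  So `E (ρ (a * b) w) = ± ρ b s` and `(1 - E) (ρ (a * b) w) = ± ρ a u`.  For `p ∈ X`, `q ∈ Y` choose `b`, `a` with `ρ b s = p`, `ρ a u = q`; the map `X × Y → O`, `(p, q) ↦ ρ (a * b) w`,
has fibres of at most 4 elements (`E` and `1 - E` of the image determine `p`, `q` up to sign): `|X| |Y| ≤ 4 |O|`.  Together `|orb T w| |orb T' w| ≤ 4 |X| |Y| ≤ 16 |O|`. -/

set_option autoImplicit false

namespace Pool.Agent.Lib.MP_7ab245_nt.Solv.GY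

open SX Module

private theorem ncard_sub {α β : Type*} {A : Set α} {B : Set β} (f : β → α) (hB : B.Finite)
    (h : A ⊆ f '' B) : A.ncard ≤ B.ncard :=
  (Set.ncard_le_ncard h (hB.image f)).trans (Set.ncard_image_le hB)

private theorem ncard_bool : (Set.univ : Set Bool).ncard = 2 := by
  rw [Set.ncard_univ, Nat.card_eq_fintype_card, Fintype.card_bool]

/-- the sign of a boolean -/
private def sgb (i : Bool) : ℚ := if i then 1 else -1

theorem orb_mul_le {G Γ W : Type*} [Group G] [Finite G] [Group Γ] [AddCommGroup W] [Module ℚ W]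
    (ρ : Representation ℚ G W) (w : W) (φ : G →* Γ) {T T' : Subgroup Γ}
    (χ : G → ℚ) (hχ : IsSign φ T χ) (E : W →ₗ[ℚ] W)
    (h1 : ∀ a, φ a ∈ T → ∀ v, ρ a (E v) = χ a • E v ∧ E (ρ a v) = χ a • E v)
    (h2 : ∀ b, φ b ∈ T' → ∀ v, E (ρ b v) = ρ b (E v)) (h3 : ∀ v, E (E v) = E v)
    (h4 : ∀ b, φ b ∈ T' → ρ b (w - E w) = w - E w ∨ ρ b (w - E w) = -(w - E w)) :
    Nat.card (orb ρ φ T w) * Nat.card (orb ρ φ T' w) ≤ 16 * osz ρ w := by
  have hfin : ∀ (S : Subgroup Γ) (y : W), (orb ρ φ S y).Finite := fun S y =>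
    (Set.toFinite {u | φ u ∈ S}).image _
  set O : Set W := Set.range fun x : G => ρ x w with hO
  have hOf : O.Finite := Set.finite_range _
  set X := orb ρ φ T' (E w) with hX
  set Y := orb ρ φ T (w - E w) with hY
  have hEu : E (w - E w) = 0 := by rw [map_sub, h3, sub_self]
  have hw : w = E w + (w - E w) := by abel
  -- signs
  have hs : ∀ a, φ a ∈ T → ∃ i : Bool, χ a = sgb i := by
    intro a ha
    rcases hχ.1 a ha with h | h
    · exact ⟨true, by rw [h]; rfl⟩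
    · exact ⟨false, by rw [h]; rfl⟩
  have ht : ∀ b, φ b ∈ T' → ∃ j : Bool, ρ b (w - E w) = sgb j • (w - E w) := by
    intro b hb
    rcases h4 b hb with h | h
    · exact ⟨true, by rw [h]; simp [sgb]⟩
    · exact ⟨false, by rw [h]; simp [sgb]⟩
  have hsq : ∀ i, sgb i * sgb i = 1 := by
    intro i
    cases i <;> simp [sgb]
  -- (i)
  have c1 : (orb ρ φ T' w).ncard ≤ X.ncard * 2 := by
    rw [← ncard_bool, ← Set.ncard_prod]
    refine ncard_sub (fun p : W × Bool => p.1 + sgb p.2 • (w - E w))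
      ((hfin _ _).prod Set.finite_univ) ?_
    rintro _ ⟨b, hb, rfl⟩
    obtain ⟨j, hj⟩ := ht b hb
    refine ⟨(ρ b (E w), j), ⟨⟨b, hb, rfl⟩, Set.mem_univ _⟩, ?_⟩
    simp only
    rw [← hj, ← map_add, ← hw]
  -- (ii)
  have c2 : (orb ρ φ T w).ncard ≤ Y.ncard * 2 := by
    rw [← ncard_bool, ← Set.ncard_prod]
    refine ncard_sub (fun p : W × Bool => sgb p.2 • E w + p.1)
      ((hfin _ _).prod Set.finite_univ) ?_
    rintro _ ⟨a, ha, rfl⟩
    obtain ⟨i, hi⟩ := hs a ha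
    refine ⟨(ρ a (w - E w), i), ⟨⟨a, ha, rfl⟩, Set.mem_univ _⟩, ?_⟩
    simp only
    rw [← hi, ← (h1 a ha w).1, ← map_add, ← hw]
  -- (iii)
  have c3 : X.ncard * Y.ncard ≤ O.ncard * (2 * 2) := by
    rw [← ncard_bool, ← Set.ncard_prod, ← Set.ncard_prod, ← Set.ncard_prod]
    refine ncard_sub (fun z : W × (Bool × Bool) =>
      (sgb z.2.1 • E z.1, sgb z.2.2 • (z.1 - E z.1)))
      (hOf.prod (Set.finite_univ.prod Set.finite_univ)) ?_
    rintro ⟨p, q⟩ ⟨⟨b, hb, hp⟩, ⟨a, ha, hq⟩⟩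
    simp only at hp hq
    obtain ⟨i, hi⟩ := hs a ha
    obtain ⟨j, hj⟩ := ht b hb
    have e1 : ρ (a * b) w = sgb i • p + sgb j • q := by
      have e2 : ρ (a * b) w = ρ a (ρ b w) := by rw [map_mul]; rfl
      rw [e2]
      conv_lhs => rw [hw]
      rw [map_add, map_add, hj, map_smul, ← h2 b hb w, (h1 a ha (ρ b w)).1, h2 b hb w, hp, hi, hq]
    have e3 : E p = p := by
      rw [← hp, ← h2 b hb, h3]
    have e4 : E q = 0 := by
      rw [← hq, (h1 a ha _).2, hEu, smul_zero]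
    refine ⟨(ρ (a * b) w, (i, j)), ⟨⟨a * b, rfl⟩, Set.mem_univ _, Set.mem_univ _⟩, ?_⟩
    simp only
    rw [e1]
    simp only [map_add, map_smul, e3, e4, smul_zero, add_zero]
    refine Prod.ext ?_ ?_
    · simp only
      rw [smul_smul, hsq, one_smul]
    · simp only
      rw [add_sub_cancel_left, smul_smul, hsq, one_smul]
  have g1 : Nat.card (orb ρ φ T w) = (orb ρ φ T w).ncard := rfl
  have g2 : Nat.card (orb ρ φ T' w) = (orb ρ φ T' w).ncard := rfl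
  have g3 : osz ρ w = O.ncard := rfl
  rw [g1, g2, g3]
  calc (orb ρ φ T w).ncard * (orb ρ φ T' w).ncard ≤ (Y.ncard * 2) * (X.ncard * 2) :=
        Nat.mul_le_mul c2 c1
    _ = 4 * (X.ncard * Y.ncard) := by ring
    _ ≤ 4 * (O.ncard * (2 * 2)) := Nat.mul_le_mul_left 4 c3
    _ = 16 * O.ncard := by ring

end Pool.Agent.Lib.MP_7ab245_nt.Solv.GY
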