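import Pool.Agent.Lib.MP_7ab245_nt.Solv.GY.Y11

/-! GY-Y15: few images of `w`.
PROOF.  `s = E w`, `u = w - s`, so `ρ b w = ρ b s + ρ b u` with `ρ b u = ± u` (`h4`).  Moreover `ρ b s = E (ρ b w) = ± E (ρ t w) = ± χ t • s = ± s`.  So `ρ b w` is one of `± s ± u`. -/

set_option autoImplicit false

namespace Pool.Agent.Lib.MP_7ab245_nt.Solv.GY

open SX Module

theorem few_images {G Γ W : Type*} [Group G] [Group Γ] [AddCommGroup W] [Module ℚ W]
    (ρ : Representation ℚ G W) (w : W) (φ : G →* Γ) {T : Subgroup Γ} (B : Set G)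
    (χ : G → ℚ) (hχ : IsSign φ T χ) (E : W →ₗ[ℚ] W)
    (h1 : ∀ a, φ a ∈ T → ∀ v, ρ a (E v) = χ a • E v ∧ E (ρ a v) = χ a • E v)
    (h2 : ∀ b ∈ B, ∀ v, E (ρ b v) = ρ b (E v))
    (h4 : ∀ b ∈ B, ρ b (w - E w) = w - E w ∨ ρ b (w - E w) = -(w - E w))
    (hB : ∀ b ∈ B, ∃ t, φ t ∈ T ∧ (ρ b w = ρ t w ∨ ρ b w = -ρ t w)) :
    ((fun b => ρ b w) '' B).ncard ≤ 4 := by
  classical
  set s : W := E w with hs
  have hsub : (fun b => ρ b w) '' B ⊆
      (({s + (w - s), s + -(w - s), -s + (w - s), -s + -(w - s)} : Finset W) : Set W) := by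
    rintro _ ⟨b, hb, rfl⟩
    have e1 : ρ b w = ρ b s + ρ b (w - s) := by rw [← map_add, add_sub_cancel]
    have e2 : ρ b s = s ∨ ρ b s = -s := by
      obtain ⟨t, ht, hbt⟩ := hB b hb
      rw [hs, ← h2 b hb w]
      rcases hbt with hbt | hbt
      · rw [hbt, (h1 t ht w).2]
        rcases hχ.1 t ht with h | h
        · left; rw [h, one_smul]
        · right; rw [h, neg_smul, one_smul]
      · rw [hbt, map_neg, (h1 t ht w).2]
        rcases hχ.1 t ht with h | h
        · right; rw [h, one_smul]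
        · left; rw [h, neg_smul, one_smul, neg_neg]
    simp only [Finset.coe_insert, Finset.coe_singleton, Set.mem_insert_iff, Set.mem_singleton_iff]
    rcases e2 with e2 | e2 <;> rcases h4 b hb with e3 | e3
    · left; rw [e1, e2, e3]
    · right; left; rw [e1, e2, e3]
    · right; right; left; rw [e1, e2, e3]
    · right; right; right; rw [e1, e2, e3]
  refine (Set.ncard_le_ncard hsub (Finset.finite_toSet _)).trans ?_
  rw [Set.ncard_coe_finset]
  exact Finset.card_le_four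

end Pool.Agent.Lib.MP_7ab245_nt.Solv.GY
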