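import Pool.Agent.Lib.MP_7ab245_nt.Solv.GY.Y06

/-! GY-Y16: `cen` is a group; transport.
PROOF.  `cen_mul`: `d, d' ∈ cen`: `cj (φ (d * d')) T = cj (φ d) (cj (φ d') T) = T`.  If `T` moves `ρ x w` then `T = cj (φ d') T` moves `ρ (d' * x) w` (`mv_cj`) and `a (d d') x w = ± d a d' x w` (`d` at `d' * x`) and
`a d' x w = ± d' a x w` (`d'` at `x`).  `cen_inv`: `T` moves `ρ (d⁻¹ * x) w` (`cj (φ d⁻¹) T = T`); apply the property of `d` at `d⁻¹ * x`: `a d (d⁻¹ x) w = ± d a d⁻¹ x w`, and multiply by `d⁻¹`.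
`cen_conj`: `φ a ∈ cj (φ x) T` iff `φ (x⁻¹ a x) ∈ T`; `cj (φ x) T` moves `ρ z w` iff `T` moves `ρ (x⁻¹ * z) w` (`mv_cj`).  `cen_mv`: `mv_cj` with `cj (φ d) T = T`. -/

set_option autoImplicit false

namespace Pool.Agent.Lib.MP_7ab245_nt.Solv.GY

open SX

variable {G Γ W : Type*} [Group G] [Group Γ] [AddCommGroup W] [Module ℚ W]
    (ρ : Representation ℚ G W) (w : W) (φ : G →* Γ) (T : Subgroup Γ)

private theorem rmul (a b : G) (v : W) : ρ (a * b) v = ρ a (ρ b v) := by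
  rw [map_mul]; rfl

theorem cen_one : (1 : G) ∈ cen ρ w φ T := by
  refine ⟨by rw [map_one, cj_one], fun a x _ _ => Or.inl ?_⟩
  simp

private theorem cen_mv' {d : G} (hd : d ∈ cen ρ w φ T) {x : G} (hm : Mv ρ φ T (ρ x w)) :
    Mv ρ φ T (ρ (d * x) w) := by
  have h := (mv_cj ρ φ T d (ρ x w)).2 hm
  rw [hd.1] at h
  rwa [rmul]

theorem cen_mul {d d' : G} (hd : d ∈ cen ρ w φ T) (hd' : d' ∈ cen ρ w φ T) :
    d * d' ∈ cen ρ w φ T := by
  refine ⟨by rw [map_mul, cj_mul, hd'.1, hd.1], fun a x ha hm => ?_⟩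
  have h1 := hd'.2 a x ha hm
  have h2 := hd.2 a (d' * x) ha (cen_mv' ρ w φ T hd' hm)
  have e1 : a * (d * d') * x = a * d * (d' * x) := by group
  have e2 : d * a * (d' * x) = d * (a * d' * x) := by group
  have e3 : d * d' * a * x = d * (d' * a * x) := by group
  rw [e1, e3]
  rw [e2] at h2
  rw [rmul ρ d (a * d' * x)] at h2
  rw [rmul ρ d (d' * a * x)]
  rcases h1 with h1 | h1 <;> rcases h2 with h2 | h2 <;> rw [h1] at h2
  · exact Or.inl h2
  · exact Or.inr h2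
  · rw [map_neg] at h2
    exact Or.inr h2
  · rw [map_neg, neg_neg] at h2
    exact Or.inl h2

theorem cen_inv {d : G} (hd : d ∈ cen ρ w φ T) : d⁻¹ ∈ cen ρ w φ T := by
  have hT : cj (φ d⁻¹) T = T := by
    conv_lhs => rw [← hd.1]
    rw [← cj_mul, map_inv, inv_mul_cancel, cj_one]
  refine ⟨hT, fun a x ha hm => ?_⟩
  have hm' : Mv ρ φ T (ρ (d⁻¹ * x) w) := by
    have h := (mv_cj ρ φ T d⁻¹ (ρ x w)).2 hm
    rw [hT] at h
    rwa [rmul]
  have h := hd.2 a (d⁻¹ * x) ha hm'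
  have e1 : a * d * (d⁻¹ * x) = d * (d⁻¹ * a * x) := by group
  have e2 : d * a * (d⁻¹ * x) = d * (a * d⁻¹ * x) := by group
  rw [e1, e2, rmul ρ d, rmul ρ d] at h
  have hinj : Function.Injective (ρ d) := by
    intro u v huv
    have := congrArg (ρ d⁻¹) huv
    rw [← rmul, ← rmul, inv_mul_cancel, map_one] at this
    simpa using this
  rcases h with h | h
  · exact Or.inl (hinj h).symm
  · right
    rw [← map_neg] at h
    rw [hinj h, neg_neg]

theorem cen_conj {d : G} (hd : d ∈ cen ρ w φ T) (x : G) :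
    x * d * x⁻¹ ∈ cen ρ w φ (cj (φ x) T) := by
  refine ⟨?_, fun a z ha hm => ?_⟩
  · rw [← cj_mul, ← map_mul, show x * d * x⁻¹ * x = x * d by group, map_mul, cj_mul, hd.1]
  · have ha' : φ (x⁻¹ * a * x) ∈ T := by
      rw [map_mul, map_mul, map_inv]
      exact mem_cj'.1 ha
    have hm' : Mv ρ φ T (ρ (x⁻¹ * z) w) := by
      rw [← mv_cj ρ φ T x, ← rmul, show x * (x⁻¹ * z) = z by group]
      exact hm
    have h := hd.2 _ _ ha' hm'
    have e1 : a * (x * d * x⁻¹) * z = x * (x⁻¹ * a * x * d * (x⁻¹ * z)) := by group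
    have e2 : x * d * x⁻¹ * a * z = x * (d * (x⁻¹ * a * x) * (x⁻¹ * z)) := by group
    rw [e1, e2, rmul ρ x, rmul ρ x]
    rcases h with h | h
    · exact Or.inl (by rw [h])
    · exact Or.inr (by rw [h, map_neg])

theorem cen_norm {d : G} (hd : d ∈ cen ρ w φ T) {a : G} (ha : φ a ∈ T) :
    φ (d⁻¹ * a * d) ∈ T ∧ φ (d * a * d⁻¹) ∈ T := by
  constructor
  · rw [map_mul, map_mul, map_inv]
    exact mem_cj'.1 (by rw [hd.1]; exact ha)
  · rw [map_mul, map_mul, map_inv, ← hd.1]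
    exact mem_cj.2 ⟨_, ha, rfl⟩

theorem cen_mv {d : G} (hd : d ∈ cen ρ w φ T) {x : G} (hm : Mv ρ φ T (ρ x w)) :
    Mv ρ φ T (ρ (d * x) w) := cen_mv' ρ w φ T hd hm

end Pool.Agent.Lib.MP_7ab245_nt.Solv.GY
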