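import Pool.Agent.Lib.MP_7ab245_nt.Solv.GY.Y01
import Pool.Agent.Lib.MP_7ab245_nt.Solv.GY.Y16

/-! GY-Y17: consequences of uniqueness, and the product trick for `cen`.
PROOF.  `uniq_all`: `T`, `T'` move `ρ x w`; then `cj (φ x⁻¹) T`, `cj (φ x⁻¹) T'` are in `Comp` (`comp_cj`) and move `w` (`mv_cj`), so they are equal; apply `cj (φ x)`.
`cj_eq_of_eq`: `cj (φ x) T` and `cj (φ x') T` move `ρ x w = ρ x' w` (`mv_cj`), so they are equal.
`quadD_le`: CLAIM: if `ρ x w = ρ x' w`, `ρ (x * a) w = ρ (x' * a) w`, `ρ (x * d) w = ρ (x' * d) w` then `ρ (x' * (a * d)) w = ± ρ (x * (a * d)) w`; so there are at most `n ^ 3` triples and at most 2 values of the fourth vector for a given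
triple (`card_range_prod_le` with `c = 2`).  Proof of the claim: `y = ρ x w = ρ x' w`, `T_x = cj (φ x) T = cj (φ x') T`, `a₁ = x a x⁻¹`, `a₂ = x' a x'⁻¹`, `d₂ = x' d x'⁻¹ ∈ cen (T_x)` (`cen_conj`).  `s = a₁⁻¹ a₂`, `φ s ∈ T_x`, `ρ s y = y`.
`ρ (x' a d) w = ρ (a₂ d₂) y = ρ a₁ (ρ (s d₂) y) = ± ρ a₁ (ρ (d₂ s) y) = ± ρ a₁ (ρ d₂ y)` (`d₂ ∈ cen (T_x)`, `T_x` moves `y = ρ x w`), and `ρ d₂ y = ρ (x' d) w = ρ (x d) w`, `ρ a₁ (ρ (x d) w) = ρ (x a d) w`. -/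

set_option autoImplicit false

namespace Pool.Agent.Lib.MP_7ab245_nt.Solv.GY

open SX

variable {G Γ W : Type*} [Group G] [Group Γ] [AddCommGroup W] [Module ℚ W]
    (ρ : Representation ℚ G W) (w : W) (φ : G →* Γ)

private theorem y17_mul (a b : G) (v : W) : ρ (a * b) v = ρ a (ρ b v) := by
  rw [map_mul]; rfl

private theorem y17_inv (x : G) (v : W) : ρ x⁻¹ (ρ x v) = v := by
  rw [← y17_mul, inv_mul_cancel, map_one]; rfl

private theorem y17_neg {T : Subgroup Γ} {y : W} (h : Mv ρ φ T (-y)) : Mv ρ φ T y := by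
  obtain ⟨g, hg, h1, h2⟩ := h
  refine ⟨g, hg, fun h3 => h1 ?_, fun h3 => h2 ?_⟩
  · rw [map_neg, h3]
  · rw [map_neg, h3]

theorem uniq_all (hu : Uniq ρ w φ) (x : G) {T T' : Subgroup Γ} (hT : Comp T) (hT' : Comp T')
    (h : Mv ρ φ T (ρ x w)) (h' : Mv ρ φ T' (ρ x w)) : T = T' := by
  have h1 := (mv_cj ρ φ T x⁻¹ (ρ x w)).2 h
  have h2 := (mv_cj ρ φ T' x⁻¹ (ρ x w)).2 h'
  rw [y17_inv] at h1 h2
  have h3 := hu _ _ (comp_cj hT (φ x⁻¹)) (comp_cj hT' (φ x⁻¹)) h1 h2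
  have e : ∀ R : Subgroup Γ, cj (φ x) (cj (φ x⁻¹) R) = R := by
    intro R
    rw [← cj_mul, ← map_mul, mul_inv_cancel, map_one, cj_one]
  rw [← e T, h3, e T']

theorem cj_eq_of_eq (hu : Uniq ρ w φ) {T : Subgroup Γ} (hT : Comp T) (hm : Mv ρ φ T w)
    {x x' : G} (h : ρ x w = ρ x' w ∨ ρ x w = -ρ x' w) : cj (φ x) T = cj (φ x') T := by
  have h1 : Mv ρ φ (cj (φ x) T) (ρ x w) := (mv_cj ρ φ T x w).2 hm
  have h2 : Mv ρ φ (cj (φ x') T) (ρ x' w) := (mv_cj ρ φ T x' w).2 hm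
  have h3 : Mv ρ φ (cj (φ x) T) (ρ x' w) := by
    rcases h with h | h
    · rw [← h]; exact h1
    · exact y17_neg ρ φ (by rw [← h]; exact h1)
  exact uniq_all ρ w φ hu x' (comp_cj hT _) (comp_cj hT _) h3 h2

private theorem y17_claim (hu : Uniq ρ w φ) {T : Subgroup Γ} (hT : Comp T) (hm : Mv ρ φ T w)
    (a d : G) (ha : φ a ∈ T) (hd : d ∈ cen ρ w φ T) {x x' : G} (h1 : ρ x w = ρ x' w)
    (h2 : ρ (x * a) w = ρ (x' * a) w) (h3 : ρ (x * d) w = ρ (x' * d) w) :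
    ρ (x' * (a * d)) w = ρ (x * (a * d)) w ∨ ρ (x' * (a * d)) w = -ρ (x * (a * d)) w := by
  have hTx : cj (φ x) T = cj (φ x') T := cj_eq_of_eq ρ w φ hu hT hm (Or.inl h1)
  have hd2 : x' * d * x'⁻¹ ∈ cen ρ w φ (cj (φ x') T) := cen_conj ρ w φ T hd x'
  have hm2 : Mv ρ φ (cj (φ x') T) (ρ x' w) := (mv_cj ρ φ T x' w).2 hm
  set s : G := (x * a * x⁻¹)⁻¹ * (x' * a * x'⁻¹) with hs
  have hφs : φ s ∈ cj (φ x') T := by
    rw [hs, map_mul, map_inv]
    refine Subgroup.mul_mem _ (Subgroup.inv_mem _ ?_) ?_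
    · rw [← hTx, map_mul, map_mul, map_inv]
      exact mem_cj.2 ⟨_, ha, rfl⟩
    · rw [map_mul, map_mul, map_inv]
      exact mem_cj.2 ⟨_, ha, rfl⟩
  have hsy : ρ (s * x') w = ρ x' w := by
    have e1 : s * x' = (x * a * x⁻¹)⁻¹ * (x' * a) := by rw [hs]; group
    rw [e1, y17_mul, ← h2, ← y17_mul]
    have e2 : (x * a * x⁻¹)⁻¹ * (x * a) = x := by group
    rw [e2, h1]
  have h4 := hd2.2 s x' hφs hm2
  have e3 : ρ (x' * d * x'⁻¹ * s * x') w = ρ (x * d) w := by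
    have e4 : x' * d * x'⁻¹ * s * x' = (x' * d * x'⁻¹) * (s * x') := by group
    rw [e4, y17_mul, hsy, ← y17_mul]
    have e5 : x' * d * x'⁻¹ * x' = x' * d := by group
    rw [e5, h3]
  have e6 : ρ (x' * (a * d)) w = ρ (x * a * x⁻¹) (ρ (s * (x' * d * x'⁻¹) * x') w) := by
    rw [← y17_mul]
    congr 2
    rw [hs]
    group
  have e7 : ρ (x * (a * d)) w = ρ (x * a * x⁻¹) (ρ (x * d) w) := by
    rw [← y17_mul]
    congr 2
    group
  rw [e6, e7]
  rcases h4 with h4 | h4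
  · left
    rw [h4, e3]
  · right
    rw [h4, e3, map_neg]

theorem quadD_le [Finite G] (hu : Uniq ρ w φ) {T : Subgroup Γ} (hT : Comp T) (hm : Mv ρ φ T w)
    (a d : G) (ha : φ a ∈ T) (hd : d ∈ cen ρ w φ T) :
    tsz ρ w ![1, a, d, a * d] ≤ 2 * osz ρ w ^ 3 := by
  classical
  set f : G → W × W × W := fun x => (ρ x w, ρ (x * a) w, ρ (x * d) w) with hf
  set F : G → W := fun x => ρ (x * (a * d)) w with hF
  have h1 : tsz ρ w ![1, a, d, a * d] ≤ Nat.card (Set.range fun x => (f x, F x)) := by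
    refine card_range_comp_le (fun x => (f x, F x))
      (fun x : G => fun i => ρ (x * (![1, a, d, a * d] : Fin 4 → G) i) w) ?_
    intro i j hij
    simp only [hf, hF, Prod.mk.injEq] at hij
    obtain ⟨⟨e1, e2, e3⟩, e4⟩ := hij
    funext k
    fin_cases k
    · simpa using e1
    · simpa using e2
    · simpa using e3
    · simpa using e4
  have h2 : Nat.card (Set.range fun x => (f x, F x)) ≤ Nat.card (Set.range f) * 2 := by
    refine card_range_prod_le f F 2 fun x => ?_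
    have hsub : {b | ∃ j, f j = f x ∧ F j = b} ⊆ {F x, -F x} := by
      rintro b ⟨j, hj, rfl⟩
      simp only [hf, Prod.mk.injEq] at hj
      obtain ⟨e1, e2, e3⟩ := hj
      have := y17_claim ρ w φ hu hT hm a d ha hd e1.symm e2.symm e3.symm
      rcases this with h | h
      · exact Or.inl h
      · exact Or.inr h
    refine (Set.ncard_le_ncard hsub (Set.toFinite _)).trans ?_
    exact (Set.ncard_insert_le _ _).trans (by rw [Set.ncard_singleton])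
  have h3 : Nat.card (Set.range f) ≤ osz ρ w ^ 3 := by
    set O : Set W := Set.range fun x : G => ρ x w with hO
    have hOfin : Finite O := Set.finite_range _
    have : Nat.card (Set.range f) ≤ Nat.card (O × O × O) := by
      refine Nat.card_le_card_of_injective
        (fun p : Set.range f => ((⟨p.1.1, ?_⟩ : O), (⟨p.1.2.1, ?_⟩ : O), (⟨p.1.2.2, ?_⟩ : O))) ?_
      · obtain ⟨x, hx⟩ := p.2
        rw [← hx]; exact ⟨x, rfl⟩
      · obtain ⟨x, hx⟩ := p.2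
        rw [← hx]; exact ⟨x * a, rfl⟩
      · obtain ⟨x, hx⟩ := p.2
        rw [← hx]; exact ⟨x * d, rfl⟩
      · rintro ⟨⟨p1, p2, p3⟩, hp⟩ ⟨⟨q1, q2, q3⟩, hq⟩ h
        simp only [Prod.mk.injEq, Subtype.mk.injEq] at h
        obtain ⟨rfl, rfl, rfl⟩ := h
        rfl
    refine this.trans (le_of_eq ?_)
    rw [Nat.card_prod, Nat.card_prod]
    unfold osz
    ring
  calc tsz ρ w ![1, a, d, a * d] ≤ Nat.card (Set.range f) * 2 := h1.trans h2
    _ ≤ osz ρ w ^ 3 * 2 := Nat.mul_le_mul_right 2 h3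
    _ = 2 * osz ρ w ^ 3 := by ring

end Pool.Agent.Lib.MP_7ab245_nt.Solv.GY
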