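import Pool.Agent.Lib.MP_7ab245_nt.Solv.GY.Y12
import Pool.Agent.Lib.MP_7ab245_nt.Solv.GY.Y13
import Pool.Agent.Lib.MP_7ab245_nt.Solv.GY.Y14
import Pool.Agent.Lib.MP_7ab245_nt.Solv.GY.Y15
import Pool.Agent.Lib.MP_7ab245_nt.Solv.GY.Y17

/-! GY-Y18: the two applications of the invariant line.
PROOF.  `orb_mul_of_dep`: `exists_chi`, `exists_proj_E`, `orb_mul_le` with `B = {b | φ b ∈ T'}`: `hB1`: `φ (b⁻¹ a b) = φ a` (`Comm T T'`); `hB2`: `T` moves `ρ b w`: `T = cj (φ b) T` (elements of `T'` commute with `T`) and `mv_cj`; `hB3`: `hm'`.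
`card_cen0`: `B = cen0 ρ w φ T`: `hB1`: `cen_norm`; `hB2`: `cen_mv` with `x = 1`.  If no `b ∈ B` moves `w` then all `ρ b w = ± w`, at most 2 values.  Otherwise `exists_chi`, `exists_proj_E`, `few_images`. -/

set_option autoImplicit false

namespace Pool.Agent.Lib.MP_7ab245_nt.Solv.GY

open SX Module

variable {G Γ W : Type*} [Group G] [Finite G] [Group Γ] [AddCommGroup W] [Module ℚ W]
    (ρ : Representation ℚ G W) (w : W) (φ : G →* Γ)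

theorem orb_mul_of_dep (hφ : IsQ ρ w φ) {T T' : Subgroup Γ}
    (hc : Comm T T') (hs : Simp T) (hna : NonAb T) (hm : Mv ρ φ T w) (hm' : Mv ρ φ T' w)
    (h4 : 4 ≤ finrank ℚ (spn ρ w φ T))
    (hdep : ∀ a, φ a ∈ T → ∀ b, φ b ∈ T' →
      ¬ LinearIndependent ℚ (fun i => ρ ((![1, a, b, a * b] : Fin 4 → G) i) w)) :
    Nat.card (orb ρ φ T w) * Nat.card (orb ρ φ T' w) ≤ 16 * osz ρ w := by
  have hconj : ∀ b, φ b ∈ T' → ∀ a, φ a ∈ T → φ (b⁻¹ * a * b) = φ a := by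
    intro b hb a ha
    rw [map_mul, map_mul, map_inv, mul_assoc, hc _ ha _ hb, inv_mul_cancel_left]
  have hcj : ∀ b, φ b ∈ T' → cj (φ b) T = T := by
    intro b hb
    ext x
    rw [mem_cj']
    constructor
    · intro hx
      have h1 := hc _ hx _ hb
      have h2 : x = (φ b)⁻¹ * x * φ b := by
        have h3 : (φ b)⁻¹ * x * φ b * φ b = φ b * ((φ b)⁻¹ * x * φ b) := h1
        have h4 : φ b * ((φ b)⁻¹ * x * φ b) = x * φ b := by group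
        rw [h4] at h3
        exact (mul_right_cancel h3).symm
      rw [h2]; exact hx
    · intro hx
      have h1 := hc _ hx _ hb
      rw [mul_assoc, h1, inv_mul_cancel_left]
      exact hx
  have hB1 : ∀ b ∈ {b : G | φ b ∈ T'}, ∀ a, φ a ∈ T → φ (b⁻¹ * a * b) ∈ T := by
    intro b hb a ha
    rw [hconj b hb a ha]; exact ha
  have hB2 : ∀ b ∈ {b : G | φ b ∈ T'}, Mv ρ φ T (ρ b w) := by
    intro b hb
    have h1 := (mv_cj ρ φ T b w).2 hm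
    rwa [hcj b hb] at h1
  have hB3 : ∃ b ∈ {b : G | φ b ∈ T'}, ρ b w ≠ w ∧ ρ b w ≠ -w := by
    obtain ⟨b, hb, h1, h2⟩ := hm'
    exact ⟨b, hb, h1, h2⟩
  obtain ⟨χ, hχ, hχ1, hχ2⟩ := exists_chi ρ w φ hφ hs hna hm {b : G | φ b ∈ T'} hB1 hB2 hB3 h4
    (fun a ha b hb => hdep a ha b hb)
  obtain ⟨E, hE1, hE2, hE3, hE4⟩ := exists_proj_E ρ w φ {b : G | φ b ∈ T'} hB1 χ hχ hχ1 hχ2
  exact orb_mul_le ρ w φ χ hχ E hE1 (fun b hb => hE2 b hb) hE3 (fun b hb => hE4 b hb)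

theorem card_cen0 (hφ : IsQ ρ w φ) {T : Subgroup Γ} (hs : Simp T) (hna : NonAb T)
    (hm : Mv ρ φ T w) (h4 : 4 ≤ finrank ℚ (spn ρ w φ T))
    (hdep : ∀ a, φ a ∈ T → ∀ d ∈ cen ρ w φ T,
      ¬ LinearIndependent ℚ (fun i => ρ ((![1, a, d, a * d] : Fin 4 → G) i) w)) :
    ((fun d => ρ d w) '' cen0 ρ w φ T).ncard ≤ 4 := by
  by_cases hB3 : ∃ b ∈ cen0 ρ w φ T, ρ b w ≠ w ∧ ρ b w ≠ -w
  · have hB1 : ∀ b ∈ cen0 ρ w φ T, ∀ a, φ a ∈ T → φ (b⁻¹ * a * b) ∈ T :=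
      fun b hb a ha => (cen_norm ρ w φ T hb.1 ha).1
    have hm1 : Mv ρ φ T (ρ 1 w) := by
      rw [map_one]; exact hm
    have hB2 : ∀ b ∈ cen0 ρ w φ T, Mv ρ φ T (ρ b w) := by
      intro b hb
      have h := cen_mv ρ w φ T hb.1 hm1
      rwa [mul_one] at h
    obtain ⟨χ, hχ, hχ1, hχ2⟩ := exists_chi ρ w φ hφ hs hna hm (cen0 ρ w φ T) hB1 hB2 hB3 h4
      (fun a ha b hb => hdep a ha b hb.1)
    obtain ⟨E, hE1, hE2, hE3, hE4⟩ := exists_proj_E ρ w φ (cen0 ρ w φ T) hB1 χ hχ hχ1 hχ2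
    exact few_images ρ w φ (cen0 ρ w φ T) χ hχ E hE1 hE2 hE4 (fun b hb => hb.2)
  · push Not at hB3
    have hsub : (fun d => ρ d w) '' cen0 ρ w φ T ⊆ {w, -w} := by
      rintro _ ⟨b, hb, rfl⟩
      by_cases h : ρ b w = w
      · exact Or.inl h
      · exact Or.inr (hB3 b hb h)
    calc ((fun d => ρ d w) '' cen0 ρ w φ T).ncard ≤ ({w, -w} : Set W).ncard :=
          Set.ncard_le_ncard hsub (Set.toFinite _)
      _ ≤ 2 := (Set.ncard_insert_le _ _).trans (by rw [Set.ncard_singleton])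
      _ ≤ 4 := by norm_num

end Pool.Agent.Lib.MP_7ab245_nt.Solv.GY
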