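import Pool.Agent.Lib.MP_7ab245_nt.Solv.GY.Y16

/-! GY-Y19: the orbit of `w` under `cen`.
PROOF.  `X = (fun d => ρ d w) '' cen ρ w φ T`, `Z = orb ρ φ T w`.  For `p ∈ X` choose `d_p ∈ cen` with `ρ d_p w = p`.  The map `X × Z → O = range (fun x => ρ x w)`, `(p, q) ↦ ρ d_p q`, has fibres with at most 4 elements:
let `ρ d_p q = ρ d_p' q' = z`, `q = ρ a w`, `q' = ρ a' w`, `φ a, φ a' ∈ T`.  `δ = d_p⁻¹ d_p' ∈ cen` (`cen_mul`, `cen_inv`), `ρ (δ a') w = ρ a w`, and `ρ (δ a') w = ± ρ (a' δ) w` (`δ ∈ cen`, `T` moves `w`), so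
`ρ δ w = ± ρ (a'⁻¹ a) w`, i.e. `δ ∈ cen0`.  So `p' = ρ d_p' w = ρ d_p (ρ δ w) ∈ ρ d_p '' (ρ (cen0) w)`, at most 4 possibilities for `p'` when `(p, q)` is fixed, and `q' = ρ d_p'⁻¹ z` is determined by `p'`.
So `|X| |Z| ≤ 4 |O|`. -/

set_option autoImplicit false

namespace Pool.Agent.Lib.MP_7ab245_nt.Solv.GY

open SX

private theorem rmul {G W : Type*} [Group G] [AddCommGroup W] [Module ℚ W]
    (ρ : Representation ℚ G W) (a b : G) (v : W) : ρ (a * b) v = ρ a (ρ b v) := by
  rw [map_mul]; rfl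

private theorem rinj {G W : Type*} [Group G] [AddCommGroup W] [Module ℚ W]
    (ρ : Representation ℚ G W) (d : G) : Function.Injective (ρ d) := by
  intro u v huv
  have := congrArg (ρ d⁻¹) huv
  rw [← rmul, ← rmul, inv_mul_cancel, map_one] at this
  simpa using this

theorem card_cen_mul_le {G Γ W : Type*} [Group G] [Finite G] [Group Γ] [AddCommGroup W]
    [Module ℚ W] (ρ : Representation ℚ G W) (w : W) (φ : G →* Γ) {T : Subgroup Γ}
    (hm : Mv ρ φ T w) (h : ((fun d => ρ d w) '' cen0 ρ w φ T).ncard ≤ 4) :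
    ((fun d => ρ d w) '' cen ρ w φ T).ncard * Nat.card (orb ρ φ T w) ≤ 4 * osz ρ w := by
  classical
  set X : Set W := (fun d => ρ d w) '' cen ρ w φ T with hX
  set Y0 : Set W := (fun d => ρ d w) '' cen0 ρ w φ T with hY0
  set Z : Set W := orb ρ φ T w with hZ
  set O : Set W := Set.range (fun x : G => ρ x w) with hO
  have fX : X.Finite := (Set.toFinite _).image _
  have fY : Y0.Finite := (Set.toFinite _).image _
  have fZ : Z.Finite := by rw [hZ, orb]; exact (Set.toFinite _).image _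
  have fO : O.Finite := Set.finite_range _
  have hD : ∀ p : W, ∃ d : G, p ∈ X → d ∈ cen ρ w φ T ∧ ρ d w = p := by
    intro p
    by_cases hp : p ∈ X
    · obtain ⟨d, hd, hdp⟩ := hp
      exact ⟨d, fun _ => ⟨hd, hdp⟩⟩
    · exact ⟨1, fun h => absurd h hp⟩
  choose D hD using hD
  let F : W × W → W := fun pq => ρ (D pq.1) pq.2
  let S : Finset (W × W) := fX.toFinset ×ˢ fZ.toFinset
  have himg : S.image F ⊆ fO.toFinset := by
    intro z hz
    rw [Finset.mem_image] at hz
    obtain ⟨⟨p, q⟩, hpq, rfl⟩ := hz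
    rw [Finset.mem_product, Set.Finite.mem_toFinset, Set.Finite.mem_toFinset] at hpq
    obtain ⟨u, hu, rfl⟩ := hpq.2
    rw [Set.Finite.mem_toFinset]
    exact ⟨D p * u, rmul ρ _ _ _⟩
  have hfib : ∀ z ∈ S.image F, (S.filter (fun x => F x = z)).card ≤ 4 := by
    intro z hz
    rw [Finset.mem_image] at hz
    obtain ⟨⟨p, q⟩, hpq, hz⟩ := hz
    rw [Finset.mem_product, Set.Finite.mem_toFinset, Set.Finite.mem_toFinset] at hpq
    obtain ⟨a, ha, haq⟩ := hpq.2
    have ha : φ a ∈ T := ha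
    have haq : ρ a w = q := haq
    obtain ⟨hdp, hdpw⟩ := hD p hpq.1
    have fI : ((ρ (D p)) '' Y0).Finite := fY.image _
    have hle : (S.filter (fun x => F x = z)).card ≤ fI.toFinset.card := by
      apply Finset.card_le_card_of_injOn (fun x => x.1)
      · rintro ⟨p', q'⟩ hx
        rw [Finset.mem_coe, Finset.mem_filter, Finset.mem_product, Set.Finite.mem_toFinset,
          Set.Finite.mem_toFinset] at hx
        obtain ⟨⟨hp', hq'⟩, hFz⟩ := hx
        obtain ⟨a', ha', haq'⟩ := hq'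
        have ha' : φ a' ∈ T := ha'
        have haq' : ρ a' w = q' := haq'
        obtain ⟨hdp', hdpw'⟩ := hD p' hp'
        have hδ : (D p)⁻¹ * D p' ∈ cen ρ w φ T :=
          cen_mul ρ w φ T (cen_inv ρ w φ T hdp) hdp'
        have h1 : ρ ((D p)⁻¹ * D p' * a') w = ρ a w := by
          have h2 : ρ (D p') q' = ρ (D p) q := hFz.trans hz.symm
          rw [rmul, rmul, haq', h2, ← rmul ρ (D p)⁻¹, inv_mul_cancel, map_one, haq]
          rfl
        have h3 := hδ.2 a' 1 ha' (by simpa using hm)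
        rw [mul_one, mul_one] at h3
        rw [h1] at h3
        have hδ0 : (D p)⁻¹ * D p' ∈ cen0 ρ w φ T := by
          refine ⟨hδ, a'⁻¹ * a, ?_, ?_⟩
          · rw [map_mul, map_inv]
            exact T.mul_mem (T.inv_mem ha') ha
          · have h4 : ρ ((D p)⁻¹ * D p') w = ρ a'⁻¹ (ρ (a' * ((D p)⁻¹ * D p')) w) := by
              rw [← rmul]; congr 2; group
            rcases h3 with h3 | h3
            · left; rw [h4, h3, ← rmul]
            · right; rw [h4, h3, map_neg, ← rmul]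
        simp only [Set.Finite.coe_toFinset]
        refine ⟨ρ ((D p)⁻¹ * D p') w, ⟨_, hδ0, rfl⟩, ?_⟩
        rw [← rmul, show D p * ((D p)⁻¹ * D p') = D p' by group, hdpw']
      · rintro ⟨p', q'⟩ hx ⟨p'', q''⟩ hy hxy
        rw [Finset.mem_coe, Finset.mem_filter] at hx hy
        have h1 : p' = p'' := hxy
        subst h1
        have h2 : ρ (D p') q' = ρ (D p') q'' := hx.2.trans hy.2.symm
        rw [rinj ρ _ h2]
    refine hle.trans ?_
    rw [← Set.ncard_eq_toFinset_card _ fI]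
    exact (Set.ncard_image_le fY).trans h
  have hcard := Finset.card_le_mul_card_image S 4 hfib
  have hS : S.card = X.ncard * Nat.card Z := by
    rw [Finset.card_product, ← Set.ncard_eq_toFinset_card _ fX, ← Set.ncard_eq_toFinset_card _ fZ,
      Nat.card_coe_set_eq]
  have hO' : (S.image F).card ≤ osz ρ w := by
    refine (Finset.card_le_card himg).trans ?_
    rw [← Set.ncard_eq_toFinset_card _ fO, osz, Nat.card_coe_set_eq]
  rw [hS] at hcard
  exact hcard.trans (Nat.mul_le_mul_left 4 hO')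

end Pool.Agent.Lib.MP_7ab245_nt.Solv.GY
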