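import Pool.Agent.Lib.MP_7ab245_nt.Solv.GY.Y17

/-! GY-Y20: two counts.
PROOF.  `pairD_le`: `tsz ρ w ![1, d]` is the number of pairs `(ρ x w, ρ (x * d) w)`.  For given `y = ρ x w` the second vector `ρ (x * d) w = ρ (x d x⁻¹) y` is in `{ρ e y | e ∈ cen ρ w φ (cj (φ x) T)}` (`cen_conj`), a set which depends only
on `y` (`cj_eq_of_eq`) and has `((fun d => ρ d w) '' cen ρ w φ T).ncard` elements: it is the image under the injective map `ρ x` of `(fun d => ρ d w) '' cen ρ w φ T` (`cen_conj` for `x` and `x⁻¹`).  Use `card_range_prod_le`.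
`ncj_mul_le`: the map from the orbit `O` of `w` to the conjugates of `T`, `ρ x w ↦ cj (φ x) T`, is well defined (`cj_eq_of_eq`), surjective (`hφ`: `φ` surjective); the fibre over `cj (φ x) T` contains the set
`ρ x '' orb ρ φ T w`: `ρ (x * a) w`, `φ a ∈ T`, goes to `cj (φ x) (cj (φ a) T) = cj (φ x) T`.  So `|O| ≥ ncj T * |orb ρ φ T w|`. -/

set_option autoImplicit false

namespace Pool.Agent.Lib.MP_7ab245_nt.Solv.GY

open SX

variable {G Γ W : Type*} [Group G] [Finite G] [Group Γ] [AddCommGroup W] [Module ℚ W]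
    (ρ : Representation ℚ G W) (w : W) (φ : G →* Γ)

omit [Finite G] in
private theorem Y20_cen (hu : Uniq ρ w φ) {T : Subgroup Γ} (hT : Comp T) (hm : Mv ρ φ T w) {d : G}
    (hd : d ∈ cen ρ w φ T) (x x' : G) (h : ρ x' w = ρ x w) :
    x⁻¹ * (x' * d * x'⁻¹) * x ∈ cen ρ w φ T := by
  have h1 := cen_conj ρ w φ T hd x'
  rw [cj_eq_of_eq ρ w φ hu hT hm (Or.inl h)] at h1
  have h2 := cen_conj ρ w φ (cj (φ x) T) h1 x⁻¹
  rw [← cj_mul, map_inv, inv_mul_cancel, cj_one, inv_inv] at h2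
  exact h2

theorem pairD_le (hu : Uniq ρ w φ) {T : Subgroup Γ} (hT : Comp T) (hm : Mv ρ φ T w) {d : G}
    (hd : d ∈ cen ρ w φ T) :
    tsz ρ w ![1, d] ≤ osz ρ w * ((fun d => ρ d w) '' cen ρ w φ T).ncard := by
  have h1 : tsz ρ w ![1, d] ≤
      Nat.card (Set.range fun x : G => (ρ x w, ρ (x * d) w)) := by
    unfold tsz
    have e : (Set.range fun x : G => fun i => ρ (x * ![1, d] i) w) =
        (fun p : W × W => ![p.1, p.2]) '' Set.range fun x : G => (ρ x w, ρ (x * d) w) := by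
      rw [← Set.range_comp]
      congr 1
      funext x i
      fin_cases i <;> simp
    rw [e, Nat.card_coe_set_eq, Nat.card_coe_set_eq]
    exact Set.ncard_image_le (Set.finite_range _)
  refine h1.trans ?_
  unfold osz
  refine card_range_prod_le (fun x : G => ρ x w) (fun x => ρ (x * d) w) _ ?_
  intro x
  have hsub : {b | ∃ x', ρ x' w = ρ x w ∧ ρ (x' * d) w = b} ⊆
      (fun v => ρ x v) '' ((fun d => ρ d w) '' cen ρ w φ T) := by
    rintro b ⟨x', hx', rfl⟩
    refine ⟨ρ (x⁻¹ * (x' * d * x'⁻¹) * x) w,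
      ⟨_, Y20_cen ρ w φ hu hT hm hd x x' hx', rfl⟩, ?_⟩
    have e1 : ρ x (ρ (x⁻¹ * (x' * d * x'⁻¹) * x) w) = ρ (x' * d * x'⁻¹) (ρ x w) := by
      rw [← Module.End.mul_apply, ← map_mul, ← Module.End.mul_apply, ← map_mul]
      congr 2
      group
    change ρ x (ρ (x⁻¹ * (x' * d * x'⁻¹) * x) w) = ρ (x' * d) w
    rw [e1, ← hx', ← Module.End.mul_apply, ← map_mul]
    congr 2
    group
  have hfin : ((fun d => ρ d w) '' cen ρ w φ T).Finite := (Set.toFinite _).image _
  exact (Set.ncard_le_ncard hsub (hfin.image _)).trans (Set.ncard_image_le hfin)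

theorem ncj_mul_le (hφ : IsQ ρ w φ) (hu : Uniq ρ w φ) {T : Subgroup Γ} (hT : Comp T)
    (hm : Mv ρ φ T w) : ncj T * Nat.card (orb ρ φ T w) ≤ osz ρ w := by
  unfold ncj osz
  rw [← Nat.card_prod]
  have hch : ∀ C : Set.range fun s : Γ => cj s T, ∃ x : G, cj (φ x) T = C.1 := by
    rintro ⟨_, s, rfl⟩
    obtain ⟨x, rfl⟩ := hφ.1 s
    exact ⟨x, rfl⟩
  choose X hX using hch
  have hcj : ∀ u : G, φ u ∈ T → cj (φ u) T = T := by
    intro u hu'
    ext t
    rw [mem_cj']
    constructor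
    · intro h
      have h2 := T.mul_mem (T.mul_mem hu' h) (T.inv_mem hu')
      have e : φ u * ((φ u)⁻¹ * t * φ u) * (φ u)⁻¹ = t := by group
      rwa [e] at h2
    · intro h
      exact T.mul_mem (T.mul_mem (T.inv_mem hu') h) hu'
  have : Finite (Set.range fun x : G => ρ x w) := (Set.finite_range _).to_subtype
  refine Nat.card_le_card_of_injective
    (fun p : (Set.range fun s : Γ => cj s T) × orb ρ φ T w =>
      (⟨ρ (X p.1) p.2.1, by
        obtain ⟨u, _, hu'⟩ := p.2.2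
        refine ⟨X p.1 * u, ?_⟩
        change ρ (X p.1 * u) w = ρ (X p.1) p.2.1
        rw [map_mul, Module.End.mul_apply]
        exact congrArg (ρ (X p.1)) hu'⟩ : Set.range fun x : G => ρ x w)) ?_
  rintro ⟨C, v, u, hu1, hu2⟩ ⟨C', v', u', hu1', hu2'⟩ h
  have h1 : ρ (X C) v = ρ (X C') v' := congrArg Subtype.val h
  have hv : ρ u w = v := hu2
  have hv' : ρ u' w = v' := hu2'
  have h2 : ρ (X C * u) w = ρ (X C' * u') w := by
    rw [map_mul, Module.End.mul_apply, map_mul, Module.End.mul_apply, hv, hv', h1]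
  have h3 := cj_eq_of_eq ρ w φ hu hT hm (Or.inl h2)
  rw [map_mul, map_mul, cj_mul, cj_mul, hcj u hu1, hcj u' hu1', hX, hX] at h3
  have h4 : C = C' := Subtype.ext h3
  subst h4
  have h5 : v = v' := by
    have h6 := congrArg (ρ (X C)⁻¹) h1
    rwa [← Module.End.mul_apply, ← Module.End.mul_apply, ← map_mul, inv_mul_cancel, map_one,
      Module.End.one_apply, Module.End.one_apply] at h6
  subst h5
  rfl

end Pool.Agent.Lib.MP_7ab245_nt.Solv.GY
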