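import Pool.Agent.Lib.MP_7ab245_nt.Solv.GY.Y08
import Pool.Agent.Lib.MP_7ab245_nt.Solv.GY.Y18
import Pool.Agent.Lib.MP_7ab245_nt.Solv.GY.Y19
import Pool.Agent.Lib.MP_7ab245_nt.Solv.GY.Y20
import Pool.Agent.Lib.MP_7ab245_nt.Solv.GY.Y21

/-! GY-Y22: the structure of the action, from Theorem B (`HB`).
PROOF.  `indep_pair`: if `c₀ w + c₁ ρ a w = 0` with `c₁ ≠ 0` then `ρ a w = c w`, `c ^ orderOf a = 1` (`w ≠ 0` since `ρ a w ≠ w`), `c = ± 1`.
`n₀` = maximum of 5 and the `n₀` of `num_orbit`, `num_quad`, `num_two`, `num_cen`.  Let `n = osz ρ w`.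
(1) `2 n ^ (κ-1) ≤ |orb ρ φ T w| ^ κ` for every `T` moving `w`: take `a` with `φ a ∈ T`, `ρ a w ≠ ± w`; `HB` with `r = 2`, `u = ![1, a]`, `pair_le`, `num_orbit`.
(2) `Uniq`: let `T ≠ T'` both move `w`.  For `φ a ∈ T`, `φ b ∈ T'` the vectors for `![1, a, b, a * b]` are dependent: otherwise `HB` with `r = 4` and `quad_le` contradict `num_quad`.  `orb_mul_of_dep` (`comp_comm`, `comp_simp`) and (1) contradict `num_two`.
(3) `ncj_mul_le`, `num_ncj`.
(4) For `φ a ∈ T`, `d ∈ cen` the vectors for `![1, a, d, a * d]` are dependent: otherwise `HB` with `r = 4` and `quadD_le` contradict `num_quadD`.  `card_cen0`, `card_cen_mul_le`: `e |orb| ≤ 4 n`.  If `ρ d w ≠ ± w` then `HB` with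
`r = 2`, `u = ![1, d]` and `pairD_le` contradict `num_cen`. -/

set_option autoImplicit false

namespace Pool.Agent.Lib.MP_7ab245_nt.Solv.GY

open SX Module

theorem indep_pair {G W : Type*} [Group G] [Finite G] [AddCommGroup W] [Module ℚ W]
    (ρ : Representation ℚ G W) (w : W) (a : G) (h1 : ρ a w ≠ w) (h2 : ρ a w ≠ -w) :
    LinearIndependent ℚ (fun i => ρ ((![1, a] : Fin 2 → G) i) w) := by
  have hw : w ≠ 0 := by
    intro h
    apply h1
    rw [h, map_zero]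
  have hf : (fun i => ρ ((![1, a] : Fin 2 → G) i) w) = ![w, ρ a w] := by
    funext i
    fin_cases i
    · simp
    · simp
  rw [hf, LinearIndependent.pair_iff]
  intro s t hst
  by_cases ht : t = 0
  · rw [ht, zero_smul, add_zero] at hst
    exact ⟨(smul_eq_zero.mp hst).resolve_right hw, ht⟩
  · exfalso
    set c : ℚ := -(s / t) with hc
    have h3 : ρ a w = c • w := by
      have h4 : t • ρ a w = (-s) • w := by
        rw [neg_smul, ← sub_eq_zero, sub_neg_eq_add, add_comm]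
        exact hst
      have h5 : ρ a w = t⁻¹ • (t • ρ a w) := by
        rw [smul_smul, inv_mul_cancel₀ ht, one_smul]
      rw [h5, h4, smul_smul, hc]
      congr 1
      field_simp
    have h4 : ∀ k : ℕ, ρ (a ^ k) w = c ^ k • w := by
      intro k
      induction k with
      | zero => simp
      | succ k ih =>
        rw [pow_succ, map_mul, Module.End.mul_apply, h3, map_smul, ih, smul_smul, pow_succ]
        congr 1
        ring
    have h5 := h4 (orderOf a)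
    rw [pow_orderOf_eq_one, map_one, Module.End.one_apply] at h5
    have h6 : (c ^ orderOf a - 1) • w = 0 := by
      rw [sub_smul, one_smul, ← h5, sub_self]
    have h7 : c ^ orderOf a = 1 := by
      have := (smul_eq_zero.mp h6).resolve_right hw
      linarith
    rcases pow_eq_one_iff_cases.mp h7 with h8 | h8 | ⟨h8, _⟩
    · exact (orderOf_pos a).ne' h8
    · apply h1
      rw [h3, h8, one_smul]
    · apply h2
      rw [h3, h8, neg_smul, one_smul]

theorem structure_of_HB (κ : ℕ) (hκ : 3 ≤ κ) : ∃ n₀ : ℕ, ∀ {G Γ W : Type*} [Group G] [Finite G]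
    [Group Γ] [AddCommGroup W] [Module ℚ W] (ρ : Representation ℚ G W) (w : W) (φ : G →* Γ),
    IsQ ρ w φ → n₀ ≤ osz ρ w → AllNA Γ → HB ρ w 4 (4 * κ) →
    (∀ T, Comp T → Mv ρ φ T w → 4 ≤ finrank ℚ (spn ρ w φ T)) →
    Uniq ρ w φ ∧ ∀ T, Comp T → Mv ρ φ T w →
      2 * osz ρ w ^ (κ - 1) ≤ Nat.card (orb ρ φ T w) ^ κ ∧ 2 * ncj T ^ κ ≤ osz ρ w ∧
      ∀ d ∈ cen ρ w φ T, ρ d w = w ∨ ρ d w = -w := by
  obtain ⟨n1, hn1⟩ := num_orbit κ hκ
  obtain ⟨n2, hn2⟩ := num_quad κ hκ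
  obtain ⟨n3, hn3⟩ := num_two κ hκ
  obtain ⟨n4, hn4⟩ := num_cen κ hκ
  refine ⟨n1 + n2 + n3 + n4 + 5, ?_⟩
  intro G Γ W _ _ _ _ _ ρ w φ hφ hn hna hHB hfr
  set n := osz ρ w with hnn
  -- (1)
  have h1 : ∀ T, Comp T → Mv ρ φ T w → 2 * n ^ (κ - 1) ≤ Nat.card (orb ρ φ T w) ^ κ := by
    intro T hT hm
    obtain ⟨a, ha, ha1, ha2⟩ := hm
    have h2 := hHB 2 le_rfl (by norm_num) ![1, a] (indep_pair ρ w a ha1 ha2)
    have h3 := pair_le ρ w φ hφ hna hT ⟨a, ha, ha1, ha2⟩ a ha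
    exact hn1 n _ (by omega) (le_trans h2 (Nat.pow_le_pow_left h3 _))
  -- (2)
  have hU : Uniq ρ w φ := by
    intro T T' hT hT' hm hm'
    by_contra hne
    have hdep : ∀ a, φ a ∈ T → ∀ b, φ b ∈ T' →
      ¬ LinearIndependent ℚ (fun i => ρ ((![1, a, b, a * b] : Fin 4 → G) i) w) := by
      intro a ha b hb hli
      have h2 := hHB 4 (by norm_num) le_rfl ![1, a, b, a * b] hli
      have h3 := quad_le ρ w φ hφ hna hT hT' hne hm hm' a b ha hb
      exact hn2 n (by omega) (le_trans h2 (Nat.pow_le_pow_left h3 _))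
    have h2 := orb_mul_of_dep ρ w φ hφ (comp_comm hT hT' hne) (comp_simp hT) (hna T hT) hm hm'
      (hfr T hT hm) hdep
    exact hn3 n _ _ (by omega) (h1 T hT hm) (h1 T' hT' hm') h2
  refine ⟨hU, fun T hT hm => ⟨h1 T hT hm, ?_, ?_⟩⟩
  · exact num_ncj κ hκ n _ _ (by omega) (h1 T hT hm) (ncj_mul_le ρ w φ hφ hU hT hm)
  · have hdep : ∀ a, φ a ∈ T → ∀ d ∈ cen ρ w φ T,
      ¬ LinearIndependent ℚ (fun i => ρ ((![1, a, d, a * d] : Fin 4 → G) i) w) := by
      intro a ha d hd hli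
      have h2 := hHB 4 (by norm_num) le_rfl ![1, a, d, a * d] hli
      have h3 := quadD_le ρ w φ hU hT hm a d ha hd
      exact num_quadD κ hκ n (by omega) (le_trans h2 (Nat.pow_le_pow_left h3 _))
    have hc0 := card_cen0 ρ w φ hφ (comp_simp hT) (hna T hT) hm (hfr T hT hm) hdep
    have hcm := card_cen_mul_le ρ w φ hm hc0
    intro d hd
    by_contra hcon
    push Not at hcon
    have h2 := hHB 2 le_rfl (by norm_num) ![1, d] (indep_pair ρ w d hcon.1 hcon.2)
    have h3 := pairD_le ρ w φ hU hT hm hd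
    exact hn4 n _ _ (by omega) (h1 T hT hm) hcm (le_trans h2 (Nat.pow_le_pow_left h3 _))

end Pool.Agent.Lib.MP_7ab245_nt.Solv.GY
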